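import Pool.Agent.Helper23.BO.Basic

/-!
# BO-02: collapses and percolation

Induction on `Col`. `nil`: `S = E`. `coll`: the edge `ε` of `t` lies in no other member of `Y`, so
`edges (Y.erase t) ⊆ E.erase ε` (`deg Y ε = 1`: the filter is the singleton `t`); take the set `S`
given by the induction hypothesis for `Y.erase t` and
`E.erase ε`. All elements of `E.erase ε` are `Known (Y.erase t) S`, hence `Known Y S`
(`Known.mono`), and `ε` is known by `Known.step` with the triangle `t`, whose other edges are in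
`edges Y ⊆ E` and different from `ε`. `rem`: the induction hypothesis with the same `E`.
-/

set_option autoImplicit false

namespace Pool.MP_f18604_gt.BO

open Finset Module Pool.MP_f18604_gt.Gem Pool.MP_f18604_gt.KF

variable {α : Type} [Fintype α] [DecidableEq α]

theorem col_known {Y : Finset (Finset α)} {k : ℕ} (h : Col Y k) (hY : Tri Y)
    (E : Finset (Finset α)) (hE : edges Y ⊆ E) :
    ∃ S ⊆ E, S.card + Y.card = E.card + k ∧ ∀ ε ∈ E, Known Y S ε := by
  induction h generalizing E with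
  | nil => exact ⟨E, Finset.Subset.refl E, by simp, fun ε hε => Known.base hε⟩
  | @coll Y t ε k ht hε h1 _ ih =>
    have hc := (mem_powersetCard.1 hε).2
    have hεE : ε ∈ E := hE (mem_edges.2 ⟨t, ht, (mem_powersetCard.1 hε).1, hc⟩)
    have hsub : Y.erase t ⊆ Y := erase_subset _ _
    have hE' : edges (Y.erase t) ⊆ E.erase ε := by
      intro ε' hε'
      refine mem_erase.2 ⟨?_, hE (edges_mono hsub hε')⟩
      rintro rfl
      obtain ⟨t', ht', h2, _⟩ := mem_edges.1 hε'
      obtain ⟨h3, h4⟩ := mem_erase.1 ht'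
      have h5 : ∀ a ∈ Y.filter (fun t => ε' ⊆ t), ∀ b ∈ Y.filter (fun t => ε' ⊆ t), a = b :=
        card_le_one.1 (le_of_eq h1)
      exact h3 (h5 t' (mem_filter.2 ⟨h4, h2⟩) t (mem_filter.2 ⟨ht, (mem_powersetCard.1 hε).1⟩))
    obtain ⟨S, hS, hcard, hk⟩ := ih (hY.mono hsub) (E.erase ε) hE'
    refine ⟨S, hS.trans (erase_subset _ _), ?_, ?_⟩
    · rw [card_erase_of_mem ht, card_erase_of_mem hεE] at hcard
      have h2 : 0 < Y.card := card_pos.2 ⟨t, ht⟩
      have h3 : 0 < E.card := card_pos.2 ⟨ε, hεE⟩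
      omega
    · intro ε' hε'
      by_cases h2 : ε' = ε
      · subst h2
        refine Known.step ht (hY t ht) hε fun ε'' h3 h4 => ?_
        refine (hk ε'' (mem_erase.2 ⟨h4, hE ?_⟩)).mono hsub (Finset.Subset.refl S)
        exact mem_edges.2 ⟨t, ht, (mem_powersetCard.1 h3).1, (mem_powersetCard.1 h3).2⟩
      · exact (hk ε' (mem_erase.2 ⟨h2, hε'⟩)).mono hsub (Finset.Subset.refl S)
  | @rem Y t k ht _ ih =>
    have hsub : Y.erase t ⊆ Y := erase_subset _ _
    obtain ⟨S, hS, hcard, hk⟩ := ih (hY.mono hsub) E ((edges_mono hsub).trans hE)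
    refine ⟨S, hS, ?_, fun ε hε => (hk ε hε).mono hsub (Finset.Subset.refl S)⟩
    rw [card_erase_of_mem ht] at hcard
    have h2 : 0 < Y.card := card_pos.2 ⟨t, ht⟩
    omega

end Pool.MP_f18604_gt.BO
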