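import Pool.Agent.Helper23.BO.Dim1

/-!
# BO-13: percolation bounds the dimension of the space of cocycles

Let `E' = edges R ∪ S`. The map `φ ↦ (ε ↦ if ε ∈ E' then φ ε else 0)` is linear from `Coc E X` to `Coc E' R` (for `t ∈ R ⊆ X` the edges of `t` are in `edges R ⊆ E'`, so
the sum over the edges of `t` does not change). It is injective: if `φ ∈ Coc E X` vanishes on `E'` then it vanishes on every known `ε` (induction on
`Known X E' ε`: for the step with the triangle `t ∈ X`, `∑ over t.powersetCard 2` is zero and all terms but the one of `ε` are zero), in particular on `E`, and outside `E` it vanishes by definition. So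
`dimCoc E X ≤ dimCoc E' R = |E'| - |R| ≤ |edges R| + |S| - |R|` (`LinearMap.finrank_le_finrank_of_injective`, `dimCoc_noCyc`, `card_union_le`).
-/

set_option autoImplicit false

namespace Pool.MP_f18604_gt.BO

open Finset Module Pool.MP_f18604_gt.Gem Pool.MP_f18604_gt.KF

variable {α : Type} [Fintype α] [DecidableEq α]

theorem dimCoc_le {E X R S : Finset (Finset α)} (hX : Tri X) (hR : R ⊆ X) (hc : NoCyc R)
    (hkn : ∀ ε ∈ E, Known X (edges R ∪ S) ε) :
    dimCoc E X + R.card ≤ (edges R).card + S.card := by
  classical
  have hT : Tri R := hX.mono hR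
  have hE' : edges R ⊆ edges R ∪ S := subset_union_left
  have hdim := dimCoc_noCyc hT hE' hc
  have hcard := card_union_le (edges R) S
  have hmap : ∀ φ : Coc E X, (fun ε => if ε ∈ edges R ∪ S then (φ : Finset α → ZMod 2) ε else 0) ∈
      Coc (edges R ∪ S) R := by
    intro φ
    refine ⟨fun ε hε => if_neg hε, fun t ht => ?_⟩
    have h1 := φ.2.2 t (hR ht)
    rw [← h1]
    refine sum_congr rfl fun ε hε => ?_
    refine if_pos (hE' (mem_edges.2 ⟨t, ht, ?_⟩))
    exact mem_powersetCard.1 hε
  let L : Coc E X →ₗ[ZMod 2] Coc (edges R ∪ S) R :=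
    { toFun := fun φ => ⟨_, hmap φ⟩
      map_add' := by
        intro x y
        apply Subtype.ext
        funext ε
        change (if ε ∈ edges R ∪ S then ((x + y : Coc E X) : Finset α → ZMod 2) ε else 0) =
          (if ε ∈ edges R ∪ S then (x : Finset α → ZMod 2) ε else 0) +
          (if ε ∈ edges R ∪ S then (y : Finset α → ZMod 2) ε else 0)
        by_cases h : ε ∈ edges R ∪ S
        · rw [if_pos h, if_pos h, if_pos h]
          rfl
        · rw [if_neg h, if_neg h, if_neg h, add_zero]
      map_smul' := by
        intro c x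
        apply Subtype.ext
        funext ε
        change (if ε ∈ edges R ∪ S then ((c • x : Coc E X) : Finset α → ZMod 2) ε else 0) =
          c * (if ε ∈ edges R ∪ S then (x : Finset α → ZMod 2) ε else 0)
        by_cases h : ε ∈ edges R ∪ S
        · rw [if_pos h, if_pos h]
          rfl
        · rw [if_neg h, if_neg h, mul_zero] }
  have hinj : Function.Injective L := by
    rw [injective_iff_map_eq_zero]
    intro φ hφ
    have hval : ∀ ε ∈ edges R ∪ S, (φ : Finset α → ZMod 2) ε = 0 := by
      intro ε hε
      have h1 : (if ε ∈ edges R ∪ S then (φ : Finset α → ZMod 2) ε else 0) = 0 :=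
        congrFun (congrArg Subtype.val hφ) ε
      rwa [if_pos hε] at h1
    have hknown : ∀ ε, Known X (edges R ∪ S) ε → (φ : Finset α → ZMod 2) ε = 0 := by
      intro ε h
      induction h with
      | base h => exact hval _ h
      | @step t ε ht hc' hε _ ih =>
        have h1 := φ.2.2 t ht
        rw [sum_eq_single_of_mem ε hε (fun ε' h2 h3 => ih ε' h2 h3)] at h1
        exact h1
    apply Subtype.ext
    funext ε
    by_cases h : ε ∈ E
    · exact hknown ε (hkn ε h)
    · exact φ.2.1 ε h
  have h2 := LinearMap.finrank_le_finrank_of_injective hinj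
  unfold dimCoc at *
  omega

end Pool.MP_f18604_gt.BO
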