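import Pool.Agent.Helper23.BO.Basic

/-!
# BO-14: the dimension of the space of coboundaries

The map `δ` from the functions `A → ZMod 2` (or from the functions `α → ZMod 2` vanishing outside `A`, dimension `|A|`) to `Coc E X`,
`(δ ψ) ε = ∑_{v ∈ ε} ψ v` for `ε ∈ E` and `0` otherwise: it is a cocycle since the three edges of a triangle contain each vertex twice; `E` consists of
subsets of `A` of cardinality 2 and the edges of the members of `X` are in `E`.

`dim_of_acyc`: if all cocycles are coboundaries `δ` is surjective, and its kernel contains the constant function `1` on `A`, not zero as `A` is nonempty. So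
`dimCoc E X + 1 ≤ |A|`.

`acyc_of_dim`: the graph on `A` with edge set `E` is connected, so the kernel of `δ` consists of the constants: dimension `1` (`≤ 1` is what is needed). So the range of `δ` has
dimension at least `|A| - 1 ≥ dimCoc E X`, and `δ` is surjective (`Submodule.eq_of_le_of_finrank_le`). For `φ` with sum zero on all `t ∈ X` (not
necessarily zero outside `E`) apply this to the cocycle `ε ↦ if ε ∈ E then φ ε else 0`.
-/

set_option autoImplicit false

namespace Pool.MP_f18604_gt.BO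

open Finset Module Pool.MP_f18604_gt.Gem Pool.MP_f18604_gt.KF

variable {α : Type} [Fintype α] [DecidableEq α]

omit [Fintype α] in
theorem powersetCard_two {t : Finset α} (ht : t.card = 3) :
    t.powersetCard 2 = t.image (fun v => t.erase v) := by
  ext ε
  rw [mem_powersetCard, mem_image]
  constructor
  · rintro ⟨h1, h2⟩
    have h3 : (t \ ε).card = 1 := by
      rw [card_sdiff_of_subset h1, ht, h2]
    obtain ⟨v, hv⟩ := card_eq_one.1 h3
    have hv' : v ∈ t \ ε := by rw [hv]; exact mem_singleton_self v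
    refine ⟨v, (mem_sdiff.1 hv').1, ?_⟩
    have h4 : ε ⊆ t.erase v := fun u hu => mem_erase.2
      ⟨fun h => (mem_sdiff.1 hv').2 (h ▸ hu), h1 hu⟩
    refine (eq_of_subset_of_card_le h4 ?_).symm
    rw [card_erase_of_mem (mem_sdiff.1 hv').1, ht, h2]
  · rintro ⟨v, hv, rfl⟩
    exact ⟨erase_subset v t, by rw [card_erase_of_mem hv, ht]⟩

omit [Fintype α] in
theorem sum_sum_two {t : Finset α} (ht : t.card = 3) (x : α → ZMod 2) :
    ∑ ε ∈ t.powersetCard 2, ∑ v ∈ ε, x v = 0 := by
  rw [powersetCard_two ht, sum_image]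
  · have h1 : ∀ v ∈ t, ∑ u ∈ t.erase v, x u = ∑ u ∈ t, x u - x v := fun v hv =>
      eq_sub_of_add_eq (sum_erase_add t x hv)
    rw [sum_congr rfl h1, sum_sub_distrib, sum_const, ht]
    have h2 : (3 : ℕ) • ∑ u ∈ t, x u - ∑ u ∈ t, x u = 2 * ∑ u ∈ t, x u := by
      rw [nsmul_eq_mul]
      push_cast
      ring
    rw [h2]
    have h3 : (2 : ZMod 2) = 0 := rfl
    rw [h3, zero_mul]
  · intro v hv w hw h
    by_contra hne
    have h1 : v ∈ t.erase w := mem_erase.2 ⟨hne, hv⟩
    have h2 : t.erase v = t.erase w := h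
    rw [← h2] at h1
    exact (mem_erase.1 h1).1 rfl

/-- extension by zero -/
def ex (A : Finset α) (ψ : A → ZMod 2) (v : α) : ZMod 2 := if h : v ∈ A then ψ ⟨v, h⟩ else 0

omit [Fintype α] in
theorem ex_of_mem {A : Finset α} (ψ : A → ZMod 2) {v : α} (h : v ∈ A) :
    ex A ψ v = ψ ⟨v, h⟩ := dif_pos h

/-- the coboundary map -/
def cob {E X : Finset (Finset α)} (A : Finset α) (hX : Tri X) (hXE : edges X ⊆ E) :
    (A → ZMod 2) →ₗ[ZMod 2] Coc E X where
  toFun ψ := ⟨fun ε => if ε ∈ E then ∑ v ∈ ε, ex A ψ v else 0, by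
    refine ⟨fun ε h => if_neg h, fun t ht => ?_⟩
    refine Eq.trans (sum_congr rfl fun ε hε => ?_) (sum_sum_two (hX t ht) (ex A ψ))
    exact if_pos (hXE (mem_edges.2 ⟨t, ht, mem_powersetCard.1 hε⟩))⟩
  map_add' := by
    intro ψ ψ'
    apply Subtype.ext
    funext ε
    change (if ε ∈ E then ∑ v ∈ ε, ex A (ψ + ψ') v else 0) =
      (if ε ∈ E then ∑ v ∈ ε, ex A ψ v else 0) + (if ε ∈ E then ∑ v ∈ ε, ex A ψ' v else 0)
    by_cases h : ε ∈ E
    · rw [if_pos h, if_pos h, if_pos h, ← sum_add_distrib]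
      refine sum_congr rfl fun v _ => ?_
      by_cases hv : v ∈ A
      · rw [ex_of_mem _ hv, ex_of_mem _ hv, ex_of_mem _ hv, Pi.add_apply]
      · rw [ex, ex, ex, dif_neg hv, dif_neg hv, dif_neg hv, add_zero]
    · rw [if_neg h, if_neg h, if_neg h, add_zero]
  map_smul' := by
    intro c ψ
    apply Subtype.ext
    funext ε
    change (if ε ∈ E then ∑ v ∈ ε, ex A (c • ψ) v else 0) =
      c • (if ε ∈ E then ∑ v ∈ ε, ex A ψ v else 0)
    by_cases h : ε ∈ E
    · rw [if_pos h, if_pos h, smul_sum]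
      refine sum_congr rfl fun v _ => ?_
      by_cases hv : v ∈ A
      · rw [ex_of_mem _ hv, ex_of_mem _ hv, Pi.smul_apply]
      · rw [ex, ex, dif_neg hv, dif_neg hv, smul_zero]
    · rw [if_neg h, if_neg h, smul_zero]

omit [Fintype α] in
theorem cob_apply {E X : Finset (Finset α)} {A : Finset α} (hX : Tri X) (hXE : edges X ⊆ E)
    (ψ : A → ZMod 2) (ε : Finset α) :
    (cob A hX hXE ψ : Finset α → ZMod 2) ε = if ε ∈ E then ∑ v ∈ ε, ex A ψ v else 0 := rfl

theorem dim_of_acyc {E X : Finset (Finset α)} {A : Finset α} (hne : A.Nonempty)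
    (hE : ∀ ε ∈ E, ε.card = 2 ∧ ε ⊆ A) (hX : Tri X) (hXE : edges X ⊆ E)
    (h : ∀ φ : Finset α → ZMod 2, (∀ t ∈ X, ∑ ε ∈ t.powersetCard 2, φ ε = 0) →
      ∃ ψ : α → ZMod 2, ∀ ε ∈ E, φ ε = ∑ v ∈ ε, ψ v) : dimCoc E X + 1 ≤ A.card := by
  have hsurj : Function.Surjective (cob A hX hXE) := by
    intro φ
    obtain ⟨ψ, hψ⟩ := h φ.1 φ.2.2
    refine ⟨fun a => ψ a, ?_⟩
    apply Subtype.ext
    funext ε
    rw [cob_apply]
    by_cases hε : ε ∈ E
    · rw [if_pos hε, hψ ε hε]
      refine sum_congr rfl fun v hv => ?_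
      rw [ex_of_mem _ ((hE ε hε).2 hv)]
    · rw [if_neg hε]
      exact (φ.2.1 ε hε).symm
  have h1 := LinearMap.finrank_range_add_finrank_ker (cob A hX hXE)
  rw [LinearMap.range_eq_top.2 hsurj, finrank_top, Module.finrank_fintype_fun_eq_card,
    Fintype.card_coe] at h1
  have h2 : 0 < finrank (ZMod 2) (LinearMap.ker (cob A hX hXE)) := by
    have hmem : (fun _ => 1 : A → ZMod 2) ∈ LinearMap.ker (cob A hX hXE) := by
      rw [LinearMap.mem_ker]
      apply Subtype.ext
      funext ε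
      rw [cob_apply]
      by_cases hε : ε ∈ E
      · rw [if_pos hε]
        have h3 : ∀ v ∈ ε, ex A (fun _ => 1) v = 1 := fun v hv => ex_of_mem _ ((hE ε hε).2 hv)
        rw [sum_congr rfl h3, sum_const, (hE ε hε).1]
        rfl
      · rw [if_neg hε]
        rfl
    obtain ⟨a, ha⟩ := hne
    have : Nontrivial (LinearMap.ker (cob A hX hXE)) := by
      refine ⟨⟨⟨_, hmem⟩, 0, fun h0 => ?_⟩⟩
      have h4 := congrFun (congrArg Subtype.val h0) ⟨a, ha⟩
      exact one_ne_zero h4
    exact Module.finrank_pos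
  unfold dimCoc
  omega

theorem acyc_of_dim {E X : Finset (Finset α)} {A : Finset α}
    (hE : ∀ ε ∈ E, ε.card = 2 ∧ ε ⊆ A) (hX : Tri X) (hXE : edges X ⊆ E)
    (hconn : ∀ u ∈ A, ∀ v ∈ A, Relation.ReflTransGen (fun a b => ({a, b} : Finset α) ∈ E) u v)
    (hd : dimCoc E X + 1 ≤ A.card) (φ : Finset α → ZMod 2)
    (hφ : ∀ t ∈ X, ∑ ε ∈ t.powersetCard 2, φ ε = 0) :
    ∃ ψ : α → ZMod 2, ∀ ε ∈ E, φ ε = ∑ v ∈ ε, ψ v := by
  have hA : A.Nonempty := by
    rw [← card_pos]
    omega
  obtain ⟨a₀, ha₀⟩ := hA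
  have hker : finrank (ZMod 2) (LinearMap.ker (cob A hX hXE)) ≤ 1 := by
    have hle : LinearMap.ker (cob A hX hXE) ≤
        Submodule.span (ZMod 2) {(fun _ => 1 : A → ZMod 2)} := by
      intro ψ hψ
      rw [LinearMap.mem_ker] at hψ
      have h1 : ∀ ε ∈ E, ∑ v ∈ ε, ex A ψ v = 0 := by
        intro ε hε
        have h2 := congrFun (congrArg Subtype.val hψ) ε
        rw [cob_apply, if_pos hε] at h2
        exact h2
      have h3 : ∀ u v : α, ({u, v} : Finset α) ∈ E → ex A ψ u = ex A ψ v := by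
        intro u v huv
        have hne : u ≠ v := by
          intro h
          have h4 := (hE _ huv).1
          rw [h, pair_eq_singleton, card_singleton] at h4
          omega
        have h4 := h1 _ huv
        rw [sum_pair hne] at h4
        have h5 : ex A ψ u = - ex A ψ v := eq_neg_of_add_eq_zero_left h4
        rw [h5, ZMod.neg_eq_self_mod_two]
      have h4 : ∀ v ∈ A, ex A ψ v = ex A ψ a₀ := by
        intro v hv
        have h5 := hconn a₀ ha₀ v hv
        induction h5 with
        | refl => rfl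
        | tail _ hst ih =>
          rename_i b c _
          have hb : b ∈ A := (hE _ hst).2 (mem_insert_self _ _)
          rw [← ih hb, h3 b c hst]
      rw [Submodule.mem_span_singleton]
      refine ⟨ex A ψ a₀, ?_⟩
      funext v
      have h5 := h4 v.1 v.2
      rw [ex_of_mem ψ v.2] at h5
      rw [Pi.smul_apply, smul_eq_mul, mul_one, ← h5]
    refine (Submodule.finrank_mono hle).trans ?_
    exact (finrank_span_le_card _).trans (by simp)
  have h1 := LinearMap.finrank_range_add_finrank_ker (cob A hX hXE)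
  rw [Module.finrank_fintype_fun_eq_card, Fintype.card_coe] at h1
  have h2 : finrank (ZMod 2) (LinearMap.range (cob A hX hXE)) = finrank (ZMod 2) (Coc E X) := by
    refine le_antisymm (Submodule.finrank_le _) ?_
    unfold dimCoc at hd
    omega
  have h3 : LinearMap.range (cob A hX hXE) = ⊤ := Submodule.eq_top_of_finrank_eq h2
  have hφ' : (fun ε => if ε ∈ E then φ ε else 0) ∈ Coc E X := by
    refine ⟨fun ε h => if_neg h, fun t ht => ?_⟩
    refine Eq.trans (sum_congr rfl fun ε hε => ?_) (hφ t ht)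
    exact if_pos (hXE (mem_edges.2 ⟨t, ht, mem_powersetCard.1 hε⟩))
  obtain ⟨ψ, hψ⟩ := LinearMap.range_eq_top.1 h3 ⟨_, hφ'⟩
  refine ⟨ex A ψ, fun ε hε => ?_⟩
  have h4 := congrFun (congrArg Subtype.val hψ) ε
  rw [cob_apply, if_pos hε] at h4
  simp only [if_pos hε] at h4
  exact h4.symm

end Pool.MP_f18604_gt.BO
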