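import Pool.Agent.Helper23.BO.Core
import Pool.Agent.Helper23.BO.ColKnown
import Pool.Agent.Helper23.BO.Dim3
import Pool.Agent.Helper23.BO.Dim4

/-!
# BO-15: the first cohomology of a 2-sphere vanishes

`Y` is a closed connected surface with Euler characteristic 2: every edge lies in exactly two triangles, the triangles are connected through
common edges.
Take `t₀ ∈ Y` and `Y' = Y.erase t₀`.
(1) A nonempty subset `C ⊆ Y` which is a cycle is all of `Y`: if `s ∈ C` and `(s ∩ s').card = 2`, `s' ∈ Y`, then `ε = s ∩ s'` lies in `s` and `s'` only (if `s ≠ s'`), and `deg C ε` is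
even and positive, so `s' ∈ C`; use `hconn`. So `Y'` has no cycles (`NoCyc Y'`).
(2) `dimCoc (edges Y) Y ≤ dimCoc (edges Y) Y' = |edges Y| - (|Y| - 1) = |verts Y| - 1` (`Coc` is antitone in `T`, `Submodule.finrank_mono`; `dimCoc_noCyc` with `edges Y' ⊆ edges Y`; `hχ`).
(3) The graph on `verts Y` with edges `edges Y` is connected: two vertices of a triangle are joined by an edge (or equal); consecutive triangles
have a common vertex; use `hconn`.
(4) `acyc_of_dim` with `E = edges Y`, `A = verts Y`.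
-/

set_option autoImplicit false

namespace Pool.MP_f18604_gt.BO

open Finset Module Pool.MP_f18604_gt.Gem Pool.MP_f18604_gt.KF

variable {α : Type} [Fintype α] [DecidableEq α]

omit [Fintype α] in
private theorem cycle_all {Y : Finset (Finset α)} (h2 : ∀ ε ∈ edges Y, deg Y ε = 2)
    {s t : Finset α} (hst : Relation.ReflTransGen (fun a b => a ∈ Y ∧ b ∈ Y ∧
      (a ∩ b).card = 2) s t) {C : Finset (Finset α)} (hCY : C ⊆ Y) (hC : Cyc C) (hs : s ∈ C) :
    t ∈ C := by
  induction hst with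
  | refl => exact hs
  | @tail b c _ hbc ih =>
    obtain ⟨hb, hc, hcard⟩ := hbc
    have h3 : b ∩ c ∈ edges Y := mem_edges.2 ⟨b, hb, inter_subset_left, hcard⟩
    have h4 : 0 < deg C (b ∩ c) := by
      unfold deg
      exact card_pos.2 ⟨b, mem_filter.2 ⟨ih, inter_subset_left⟩⟩
    have h5 : 2 ≤ deg C (b ∩ c) := by
      obtain ⟨k, hk⟩ := hC (b ∩ c) hcard
      omega
    have h6 : C.filter (fun t => b ∩ c ⊆ t) = Y.filter (fun t => b ∩ c ⊆ t) := by
      apply eq_of_subset_of_card_le (filter_subset_filter _ hCY)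
      have := h2 _ h3
      unfold deg at this h5
      omega
    have h7 : c ∈ Y.filter (fun t => b ∩ c ⊆ t) := mem_filter.2 ⟨hc, inter_subset_right⟩
    rw [← h6] at h7
    exact (mem_filter.1 h7).1

omit [Fintype α] in
private theorem in_tri {Y : Finset (Finset α)} {t : Finset α} (ht : t ∈ Y) {u v : α}
    (hu : u ∈ t) (hv : v ∈ t) :
    Relation.ReflTransGen (fun a b => ({a, b} : Finset α) ∈ edges Y) u v := by
  by_cases h : u = v
  · rw [h]
  · refine Relation.ReflTransGen.single (mem_edges.2 ⟨t, ht, ?_, card_pair h⟩)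
    intro x hx
    rw [mem_insert, mem_singleton] at hx
    rcases hx with rfl | rfl
    · exact hu
    · exact hv

omit [Fintype α] in
private theorem graph_conn {Y : Finset (Finset α)} {s t : Finset α}
    (hst : Relation.ReflTransGen (fun a b => a ∈ Y ∧ b ∈ Y ∧ (a ∩ b).card = 2) s t) (hs : s ∈ Y)
    {u : α} (hu : u ∈ s) :
    ∀ v ∈ t, Relation.ReflTransGen (fun a b => ({a, b} : Finset α) ∈ edges Y) u v := by
  induction hst with
  | refl => exact fun v hv => in_tri hs hu hv
  | @tail b c _ hbc ih =>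
    intro v hv
    obtain ⟨hb, hc, hcard⟩ := hbc
    have h1 : (b ∩ c).Nonempty := by
      rw [← card_pos]
      omega
    obtain ⟨w, hw⟩ := h1
    rw [mem_inter] at hw
    exact (ih w hw.1).trans (in_tri hc hw.2 hv)

theorem sphere_acyc {Y : Finset (Finset α)} (hY : Tri Y) (hne : Y.Nonempty)
    (h2 : ∀ ε ∈ edges Y, deg Y ε = 2)
    (hconn : ∀ s ∈ Y, ∀ t ∈ Y, Relation.ReflTransGen (fun a b => a ∈ Y ∧ b ∈ Y ∧
      (a ∩ b).card = 2) s t)
    (hχ : (verts Y).card + Y.card = (edges Y).card + 2) (φ : Finset α → ZMod 2)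
    (hφ : ∀ t ∈ Y, ∑ ε ∈ t.powersetCard 2, φ ε = 0) :
    ∃ ψ : α → ZMod 2, ∀ ε ∈ edges Y, φ ε = ∑ v ∈ ε, ψ v := by
  obtain ⟨t₀, ht₀⟩ := hne
  have hsub : Y.erase t₀ ⊆ Y := erase_subset _ _
  have hnc : NoCyc (Y.erase t₀) := by
    intro C hC hcyc
    by_contra hne
    obtain ⟨s, hs⟩ := nonempty_iff_ne_empty.2 hne
    have h3 : t₀ ∈ C := cycle_all h2 (hconn s (hsub (hC hs)) t₀ ht₀) (hC.trans hsub) hcyc hs
    exact (notMem_erase t₀ Y) (hC h3)
  have h3 : dimCoc (edges Y) (Y.erase t₀) + (Y.erase t₀).card = (edges Y).card :=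
    dimCoc_noCyc (hY.mono hsub) (edges_mono hsub) hnc
  have h4 : dimCoc (edges Y) Y ≤ dimCoc (edges Y) (Y.erase t₀) := by
    unfold dimCoc
    apply Submodule.finrank_mono
    intro x hx
    exact ⟨hx.1, fun t ht => hx.2 t (hsub ht)⟩
  rw [card_erase_of_mem ht₀] at h3
  have h5 : 0 < Y.card := card_pos.2 ⟨t₀, ht₀⟩
  have hd : dimCoc (edges Y) Y + 1 ≤ (verts Y).card := by omega
  refine acyc_of_dim (A := verts Y) ?_ hY (subset_refl _) ?_ hd φ hφ
  · intro ε hε
    obtain ⟨t, ht, h6, h7⟩ := mem_edges.1 hε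
    refine ⟨h7, fun x hx => ?_⟩
    unfold verts
    exact mem_biUnion.2 ⟨t, ht, h6 hx⟩
  · intro u hu v hv
    unfold verts at hu hv
    obtain ⟨s, hs, hus⟩ := mem_biUnion.1 hu
    obtain ⟨t, ht, hvt⟩ := mem_biUnion.1 hv
    exact graph_conn (hconn s hs t ht) hs hus v hvt

end Pool.MP_f18604_gt.BO
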