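import Pool.Agent.Helper23.BO.Link
import Pool.Agent.Helper23.BO.Sphere

/-!
# BO-17: the first cohomology of `K[A]` vanishes

Let `φ` have sum zero on all triangles of `K[A]`. Write `Y_e = surf K A e` for the edges `e ∈ K` disjoint from `A`.
(1) For each such `e`, `Y_e ⊆ part K A 3`, so by `sphere_acyc` (with the lemmas of `Link`) there is `ψ_e` with `φ ε = ∑_{x ∈ ε} ψ_e x` for all `ε ∈ edges Y_e`.
(2) Let `v ∉ A`. Define `φ_v` on sets of cardinality 2: `φ_v ε = φ ε` if `ε ⊆ A`, and `φ_v ε = ψ_{v,w} x` if `ε = {w, x}`, `w ∉ A`, `x ∈ A` (e.g. `φ_v ε = ∑_{w ∈ ε \ A} ∑_{x ∈ ε ∩ A} ψ_{v,w} x` for `ε` not contained in `A`).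
For a triangle `t` of `link K v` (`v ∉ t`, `insert v t ∈ K`; it lies in a 4-simplex `F` with `|F \ A| = 2`, so `t` has at most one element outside `A`): if
`t ⊆ A` then `t ∈ part K A 3` and the sum is zero; if `t = {w, x, y}`, `w ∉ A`, `x, y ∈ A`, the sum is `φ {x, y} + ψ_{v,w} x + ψ_{v,w} y = 0` since `{x, y} ∈ edges Y_{v,w}` (`F ∩ A ∈ Y_{v,w}` for a 4-simplex
`F ⊇ {v, w, x, y}`) and `2 = 0`. So by `SphereLinks.vertex` there is `ψ_v` with `φ_v ε = ∑_{x ∈ ε} ψ_v x` for all `ε ∈ link K v` of cardinality 2; in particular
`φ ε = ∑_{x ∈ ε} ψ_v x` for all `ε ⊆ A` of cardinality 2 with `insert v ε ∈ K`.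
(3) For an edge `{v, w} ∈ K` outside `A` the sum `ψ_v x + ψ_w x` is the same for all `x ∈ verts Y_{v,w}`: for an edge `{x, y}` of `Y_{v,w}` both `ψ_v x + ψ_v y` and `ψ_w x + ψ_w y` equal `φ {x, y}`, and the
graph of `Y_{v,w}` is connected (`surf_conn`: vertices of a triangle are joined, consecutive triangles have common vertices).
(4) Define `Φ` on sets of cardinality 2: `Φ ε = φ ε` for `ε ⊆ A`; `Φ {v, x} = ψ_v x` for `v ∉ A`, `x ∈ A`; `Φ {v, w} = ψ_v x + ψ_w x` for `v, w ∉ A`, with a chosen `x ∈ verts Y_{v,w}`
(if `{v, w} ∈ K`, and `0` otherwise). It has sum zero on all triangles of `K`: on those in `A` by hypothesis, on `{v, x, y}` by (2), on `{v, w, x}` by (3) (`x ∈ verts Y_{v,w}`); there are no triangles with three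
vertices outside `A`. So `Acyc K` gives `ψ` with `Φ ε = ∑_{x ∈ ε} ψ x` for all edges of `K`, in particular `φ ε = ∑_{x ∈ ε} ψ x` for `ε ∈ part K A 2`.
-/

set_option autoImplicit false

namespace Pool.MP_f18604_gt.BO

open Finset Module Pool.MP_f18604_gt.Gem Pool.MP_f18604_gt.KF

variable {α : Type} [Fintype α] [DecidableEq α]

omit [Fintype α] in
theorem ap_tri_sum {f : Finset α → ZMod 2} {a b c : α} (hab : a ≠ b) (hac : a ≠ c) (hbc : b ≠ c) :
    ∑ ε ∈ ({a, b, c} : Finset α).powersetCard 2, f ε = f {a, b} + f {a, c} + f {b, c} := by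
  have h1 : ({a, b, c} : Finset α).powersetCard 2 = {{a, b}, {a, c}, {b, c}} := by
    symm
    refine eq_of_subset_of_card_le ?_ ?_
    · intro x hx
      simp only [mem_insert, mem_singleton] at hx
      rw [mem_powersetCard]
      rcases hx with rfl | rfl | rfl
      · refine ⟨?_, card_pair hab⟩
        intro y hy
        simp only [mem_insert, mem_singleton] at hy ⊢
        tauto
      · refine ⟨?_, card_pair hac⟩
        intro y hy
        simp only [mem_insert, mem_singleton] at hy ⊢
        tauto
      · refine ⟨?_, card_pair hbc⟩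
        intro y hy
        simp only [mem_insert, mem_singleton] at hy ⊢
        tauto
    · rw [card_powersetCard, card_eq_three.2 ⟨a, b, c, hab, hac, hbc, rfl⟩]
      have h2 : ({a, b} : Finset α) ≠ {a, c} := by
        intro h
        have : b ∈ ({a, c} : Finset α) := by
          rw [← h]
          simp
        simp only [mem_insert, mem_singleton] at this
        rcases this with h | h
        · exact hab h.symm
        · exact hbc h
      have h3 : ({a, b} : Finset α) ≠ {b, c} := by
        intro h
        have : a ∈ ({b, c} : Finset α) := by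
          rw [← h]
          simp
        simp only [mem_insert, mem_singleton] at this
        rcases this with h | h
        · exact hab h
        · exact hac h
      have h4 : ({a, c} : Finset α) ≠ {b, c} := by
        intro h
        have : a ∈ ({b, c} : Finset α) := by
          rw [← h]
          simp
        simp only [mem_insert, mem_singleton] at this
        rcases this with h | h
        · exact hab h
        · exact hac h
      rw [card_eq_three.2 ⟨_, _, _, h2, h3, h4, rfl⟩]
      decide
  have h2 : ({a, b} : Finset α) ≠ {a, c} := by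
    intro h
    have : b ∈ ({a, c} : Finset α) := by
      rw [← h]
      simp
    simp only [mem_insert, mem_singleton] at this
    rcases this with h | h
    · exact hab h.symm
    · exact hbc h
  have h3 : ({a, b} : Finset α) ≠ {b, c} := by
    intro h
    have : a ∈ ({b, c} : Finset α) := by
      rw [← h]
      simp
    simp only [mem_insert, mem_singleton] at this
    rcases this with h | h
    · exact hab h
    · exact hac h
  have h4 : ({a, c} : Finset α) ≠ {b, c} := by
    intro h
    have : a ∈ ({b, c} : Finset α) := by
      rw [← h]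
      simp
    simp only [mem_insert, mem_singleton] at this
    rcases this with h | h
    · exact hab h
    · exact hac h
  rw [h1, sum_insert (by simp [h2, h3]), sum_insert (by simp [h4]), sum_singleton]
  ring

theorem ap_two (a : ZMod 2) : a + a = 0 := CharTwo.add_self_eq_zero a

/-- A simplex containing `e` and contained in `e ∪ A` lies in a member of the link. -/
theorem ap_exists {K : Finset (Finset α)} (hK : NormalPseudomanifold K) {A : Finset α}
    (hA : Meets K A) {e σ : Finset α} (hc : e.card = 2) (hd : Disjoint e A) (hσ : σ ⊆ A)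
    (h : e ∪ σ ∈ K) : ∃ t ∈ surf K A e, σ ⊆ t := by
  obtain ⟨F, hF, hsub, hF5⟩ := hK.pure _ h
  have h3 := hA F hF hF5
  have h4 : (F \ A).card = 2 := by
    have := card_sdiff_add_card_inter F A
    omega
  have h5 : e = F \ A := by
    refine eq_of_subset_of_card_le ?_ (by omega)
    intro x hx
    exact mem_sdiff.2 ⟨hsub (mem_union_left _ hx), fun hxA => (disjoint_left.1 hd) hx hxA⟩
  refine ⟨F ∩ A, ?_, ?_⟩
  · unfold surf
    rw [mem_filter, mem_part]
    refine ⟨⟨hK.down F hF _ inter_subset_left ?_, h3, inter_subset_right⟩, ?_⟩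
    · rw [← card_pos]
      omega
    · rw [h5, union_comm, sdiff_union_inter]
      exact hF
  · exact fun x hx => mem_inter.2 ⟨hsub (mem_union_right _ hx), hσ hx⟩

theorem ap_out {K : Finset (Finset α)} (hK : NormalPseudomanifold K) {A : Finset α}
    (hA : Meets K A) {σ : Finset α} (hσ : σ ∈ K) : (σ \ A).card ≤ 2 := by
  obtain ⟨F, hF, hsub, hF5⟩ := hK.pure _ hσ
  have h3 := hA F hF hF5
  have h4 := card_sdiff_add_card_inter F A
  have h5 : (σ \ A).card ≤ (F \ A).card := card_le_card (sdiff_subset_sdiff hsub subset_rfl)
  omega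

/-- Step (2): a potential on the link of a vertex outside `A`. -/
theorem ap_vertex {K : Finset (Finset α)} (hK : NormalPseudomanifold K) (hS : SphereLinks K)
    {A : Finset α} (hA : Meets K A) (φ : Finset α → ZMod 2)
    (hφ : ∀ t ∈ part K A 3, ∑ ε ∈ t.powersetCard 2, φ ε = 0) {v : α} (hv : v ∉ A) :
    ∃ P : α → ZMod 2, ∀ ε, ε ⊆ A → ε.card = 2 → insert v ε ∈ K → φ ε = ∑ x ∈ ε, P x := by
  have h1 : ∀ w : α, ∃ ψ : α → ZMod 2, w ∉ A → w ≠ v → ({v, w} : Finset α) ∈ K →
      ∀ ε ∈ edges (surf K A {v, w}), φ ε = ∑ x ∈ ε, ψ x := by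
    intro w
    by_cases hw : w ∉ A ∧ w ≠ v ∧ ({v, w} : Finset α) ∈ K
    · obtain ⟨hwA, hwv, hwK⟩ := hw
      have hc : ({v, w} : Finset α).card = 2 := card_pair hwv.symm
      have hd : Disjoint ({v, w} : Finset α) A := by
        rw [disjoint_left]
        intro x hx
        simp only [mem_insert, mem_singleton] at hx
        rcases hx with rfl | rfl
        · exact hv
        · exact hwA
      have hsub : surf K A {v, w} ⊆ part K A 3 := filter_subset _ _
      obtain ⟨ψ, hψ⟩ := sphere_acyc ((tri_part K A).mono hsub) (surf_nonempty hK hA hwK hc hd)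
        (surf_deg hK hA hwK hc hd) (surf_conn hK hS hA hwK hc hd) (surf_euler hK hS hA hwK hc hd)
        φ (fun t ht => hφ t (hsub ht))
      exact ⟨ψ, fun _ _ _ => hψ⟩
    · exact ⟨0, fun ha hb hc => absurd ⟨ha, hb, hc⟩ hw⟩
  choose Ψ hΨ using h1
  set θ : Finset α → ZMod 2 := fun ε => if ε ⊆ A then φ ε else
    ∑ w ∈ ε \ A, ∑ x ∈ ε ∩ A, Ψ w x with hθ
  obtain ⟨P, hP⟩ := hS.vertex v θ (by
    intro t ht hc
    obtain ⟨hne, hvt, hK1⟩ := mem_link.1 ht
    have htK : t ∈ K := hK.down _ hK1 t (subset_insert _ _) hne
    have h2 := ap_out hK hA hK1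
    rw [insert_sdiff_of_notMem _ hv, card_insert_of_notMem (fun h => hvt (mem_sdiff.1 h).1)] at h2
    rcases (t \ A).eq_empty_or_nonempty with h3 | ⟨w, hw⟩
    · have h4 : t ⊆ A := sdiff_eq_empty_iff_subset.1 h3
      rw [← hφ t (mem_part.2 ⟨htK, hc, h4⟩)]
      refine sum_congr rfl fun ε hε => ?_
      rw [hθ]
      simp only
      rw [if_pos ((mem_powersetCard.1 hε).1.trans h4)]
    · obtain ⟨hwt, hwA⟩ := mem_sdiff.1 hw
      have h5 : t \ A = {w} := by
        symm
        refine eq_of_subset_of_card_le (singleton_subset_iff.2 hw) ?_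
        rw [card_singleton]
        omega
      have h6 : (t.erase w).card = 2 := by
        rw [card_erase_of_mem hwt]
        omega
      obtain ⟨x, y, hxy, hxy'⟩ := card_eq_two.1 h6
      have hxm : x ∈ t.erase w := by
        rw [hxy']
        simp
      have hym : y ∈ t.erase w := by
        rw [hxy']
        simp
      obtain ⟨hxw, hxt⟩ := mem_erase.1 hxm
      obtain ⟨hyw, hyt⟩ := mem_erase.1 hym
      have hxA : x ∈ A := by
        by_contra h
        have : x ∈ t \ A := mem_sdiff.2 ⟨hxt, h⟩
        rw [h5, mem_singleton] at this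
        exact hxw this
      have hyA : y ∈ A := by
        by_contra h
        have : y ∈ t \ A := mem_sdiff.2 ⟨hyt, h⟩
        rw [h5, mem_singleton] at this
        exact hyw this
      have ht' : t = {w, x, y} := by
        rw [← insert_erase hwt, hxy']
      have hwv : w ≠ v := by
        rintro rfl
        exact hvt hwt
      have hvwK : ({v, w} : Finset α) ∈ K := by
        refine hK.down _ hK1 _ ?_ ⟨v, by simp⟩
        intro z hz
        simp only [mem_insert, mem_singleton] at hz
        rcases hz with rfl | rfl
        · exact mem_insert_self _ _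
        · exact mem_insert_of_mem hwt
      have hmem : ({x, y} : Finset α) ∈ edges (surf K A {v, w}) := by
        obtain ⟨s, hs, hs'⟩ := ap_exists (σ := {x, y}) (e := {v, w}) hK hA (card_pair hwv.symm)
          (by
            rw [disjoint_left]
            intro z hz
            simp only [mem_insert, mem_singleton] at hz
            rcases hz with rfl | rfl
            · exact hv
            · exact hwA)
          (by
            intro z hz
            simp only [mem_insert, mem_singleton] at hz
            rcases hz with rfl | rfl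
            · exact hxA
            · exact hyA)
          (by
            have h7 : ({v, w} : Finset α) ∪ {x, y} = insert v t := by
              rw [ht']
              ext z
              simp only [mem_union, mem_insert, mem_singleton]
              tauto
            rw [h7]
            exact hK1)
        exact mem_edges.2 ⟨s, hs, hs', card_pair hxy⟩
      have h8 := hΨ w hwA hwv hvwK _ hmem
      rw [sum_pair hxy] at h8
      rw [ht', ap_tri_sum hxw.symm hyw.symm hxy]
      have e1 : θ {x, y} = φ {x, y} := by
        rw [hθ]
        simp only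
        rw [if_pos]
        intro z hz
        simp only [mem_insert, mem_singleton] at hz
        rcases hz with rfl | rfl
        · exact hxA
        · exact hyA
      have e2 : ∀ z ∈ A, θ {w, z} = Ψ w z := by
        intro z hz
        rw [hθ]
        simp only
        rw [if_neg (fun h => hwA (h (mem_insert_self _ _)))]
        have a1 : ({w, z} : Finset α) \ A = {w} := by
          ext u
          simp only [mem_sdiff, mem_insert, mem_singleton]
          constructor
          · rintro ⟨rfl | rfl, h⟩
            · rfl
            · exact absurd hz h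
          · rintro rfl
            exact ⟨Or.inl rfl, hwA⟩
        have a2 : ({w, z} : Finset α) ∩ A = {z} := by
          ext u
          simp only [mem_inter, mem_insert, mem_singleton]
          constructor
          · rintro ⟨rfl | rfl, h⟩
            · exact absurd h hwA
            · rfl
          · rintro rfl
            exact ⟨Or.inr rfl, hz⟩
        rw [a1, a2, sum_singleton, sum_singleton]
      rw [e1, e2 x hxA, e2 y hyA, h8]
      exact ap_two _)
  refine ⟨P, fun ε hε hc hm => ?_⟩
  have h2 := hP ε (mem_link.2 ⟨by rw [← card_pos]; omega, fun h => hv (hε h), hm⟩) hc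
  rw [hθ] at h2
  simp only at h2
  rw [if_pos hε] at h2
  exact h2

theorem acyc_part {K : Finset (Finset α)} (hK : NormalPseudomanifold K) (hS : SphereLinks K)
    (hac : Acyc K) {A : Finset α} (hA : Meets K A) (φ : Finset α → ZMod 2)
    (hφ : ∀ t ∈ part K A 3, ∑ ε ∈ t.powersetCard 2, φ ε = 0) :
    ∃ ψ : α → ZMod 2, ∀ ε ∈ part K A 2, φ ε = ∑ v ∈ ε, ψ v := by
  have h1 : ∀ v : α, ∃ P : α → ZMod 2, v ∉ A → ∀ ε, ε ⊆ A → ε.card = 2 → insert v ε ∈ K →
      φ ε = ∑ x ∈ ε, P x := by
    intro v
    by_cases hv : v ∈ A
    · exact ⟨0, fun h => absurd hv h⟩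
    · obtain ⟨P, hP⟩ := ap_vertex hK hS hA φ hφ hv
      exact ⟨P, fun _ => hP⟩
  choose P hP using h1
  -- step (3)
  have key : ∀ v w : α, v ∉ A → w ∉ A → v ≠ w → ({v, w} : Finset α) ∈ K →
      ∀ x ∈ verts (surf K A {v, w}), ∀ y ∈ verts (surf K A {v, w}),
        P v x + P w x = P v y + P w y := by
    intro v w hv hw hvw hK2 x hx y hy
    have hd : Disjoint ({v, w} : Finset α) A := by
      rw [disjoint_left]
      intro x hx
      simp only [mem_insert, mem_singleton] at hx
      rcases hx with rfl | rfl
      · exact hv
      · exact hw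
    have h2 : ∀ t ∈ surf K A {v, w}, ∀ x ∈ t, ∀ y ∈ t, P v x + P w x = P v y + P w y := by
      intro t ht x hx y hy
      by_cases hxy : x = y
      · rw [hxy]
      · unfold surf at ht
        obtain ⟨ht1, ht2⟩ := mem_filter.1 ht
        obtain ⟨ht3, ht4, ht5⟩ := mem_part.1 ht1
        have hsub : ({x, y} : Finset α) ⊆ A := by
          intro z hz
          simp only [mem_insert, mem_singleton] at hz
          rcases hz with rfl | rfl
          · exact ht5 hx
          · exact ht5 hy
        have hin : ∀ u ∈ ({v, w} : Finset α), insert u ({x, y} : Finset α) ∈ K := by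
          intro u hu
          refine hK.down _ ht2 _ ?_ ⟨u, mem_insert_self _ _⟩
          intro z hz
          simp only [mem_insert, mem_singleton] at hz
          rcases hz with rfl | rfl | rfl
          · exact mem_union_right _ hu
          · exact mem_union_left _ hx
          · exact mem_union_left _ hy
        have e1 := hP v hv {x, y} hsub (card_pair hxy) (hin v (by simp))
        have e2 := hP w hw {x, y} hsub (card_pair hxy) (hin w (by simp))
        rw [sum_pair hxy] at e1 e2
        have e3 : P v x + P v y = P w x + P w y := by rw [← e1, ← e2]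
        have e4 : P v x = P w x + P w y - P v y := by rw [← e3]; ring
        rw [e4, CharTwo.sub_eq_add]
        have e5 : P w x + P w y + P v y + P w x = (P w x + P w x) + (P w y + P v y) := by ring
        rw [e5, ap_two, zero_add, add_comm]
    unfold verts at hx hy
    obtain ⟨s, hs, hxs⟩ := mem_biUnion.1 hx
    obtain ⟨t, ht, hyt⟩ := mem_biUnion.1 hy
    have h3 := surf_conn hK hS hA hK2 (card_pair hvw) hd s hs t ht
    have h4 : ∀ b, Relation.ReflTransGen (fun a b => a ∈ surf K A {v, w} ∧
        b ∈ surf K A {v, w} ∧ (a ∩ b).card = 2) s b → b ∈ surf K A {v, w} →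
        ∀ y ∈ b, P v x + P w x = P v y + P w y := by
      intro b hb
      induction hb with
      | refl => exact fun _ y hy => h2 s hs x hxs y hy
      | @tail b c hb' hbc ih =>
        intro hcm y hy
        have hne : (b ∩ c).Nonempty := by
          rw [← card_pos, hbc.2.2]
          norm_num
        obtain ⟨z, hz⟩ := hne
        obtain ⟨hz1, hz2⟩ := mem_inter.1 hz
        rw [ih hbc.1 z hz1]
        exact h2 c hbc.2.1 z hz2 y hy
    exact h4 t h3 ht y hyt
  -- step (4)
  have hX : ∀ e : Finset α, ∃ x : Option α, ∀ y ∈ verts (surf K A e), ∃ z, x = some z ∧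
      z ∈ verts (surf K A e) := by
    intro e
    rcases (verts (surf K A e)).eq_empty_or_nonempty with h | ⟨z, hz⟩
    · refine ⟨none, fun y hy => ?_⟩
      rw [h] at hy
      exact absurd hy (notMem_empty y)
    · exact ⟨some z, fun y _ => ⟨z, rfl, hz⟩⟩
  choose X hX using hX
  set Φ : Finset α → ZMod 2 := fun ε => if ε ⊆ A then φ ε else
    if (ε ∩ A).Nonempty then ∑ v ∈ ε \ A, ∑ x ∈ ε ∩ A, P v x else
      ∑ v ∈ ε, (match X ε with | none => 0 | some x => P v x) with hΦ
  have e0 : ∀ ε, ε ⊆ A → Φ ε = φ ε := by
    intro ε hε
    rw [hΦ]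
    simp only
    rw [if_pos hε]
  have e2 : ∀ v ∉ A, ∀ z ∈ A, Φ {v, z} = P v z := by
    intro w hwA z hz
    have a1 : ({w, z} : Finset α) \ A = {w} := by
      ext u
      simp only [mem_sdiff, mem_insert, mem_singleton]
      constructor
      · rintro ⟨rfl | rfl, h⟩
        · rfl
        · exact absurd hz h
      · rintro rfl
        exact ⟨Or.inl rfl, hwA⟩
    have a2 : ({w, z} : Finset α) ∩ A = {z} := by
      ext u
      simp only [mem_inter, mem_insert, mem_singleton]
      constructor
      · rintro ⟨rfl | rfl, h⟩
        · exact absurd h hwA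
        · rfl
      · rintro rfl
        exact ⟨Or.inr rfl, hz⟩
    rw [hΦ]
    simp only
    rw [if_neg (fun h => hwA (h (mem_insert_self _ _))), a2, if_pos (singleton_nonempty z), a1,
      sum_singleton, sum_singleton]
  have e3 : ∀ v w : α, v ∉ A → w ∉ A → v ≠ w → ({v, w} : Finset α) ∈ K →
      ∀ x ∈ verts (surf K A {v, w}), Φ {v, w} = P v x + P w x := by
    intro v w hv hw hvw hK2 x hx
    obtain ⟨z, hz1, hz2⟩ := hX {v, w} x hx
    rw [hΦ]
    simp only
    rw [if_neg (fun h => hv (h (mem_insert_self _ _))), if_neg, sum_pair hvw, hz1]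
    · exact key v w hv hw hvw hK2 z hz2 x hx
    · rintro ⟨u, hu⟩
      obtain ⟨hu1, hu2⟩ := mem_inter.1 hu
      simp only [mem_insert, mem_singleton] at hu1
      rcases hu1 with rfl | rfl
      · exact hv hu2
      · exact hw hu2
  obtain ⟨ψ, hψ⟩ := hac Φ (by
    intro t ht hc
    have h2 := ap_out hK hA ht
    rcases (t \ A).eq_empty_or_nonempty with h3 | ⟨w, hw⟩
    · have h4 : t ⊆ A := sdiff_eq_empty_iff_subset.1 h3
      rw [← hφ t (mem_part.2 ⟨ht, hc, h4⟩)]
      refine sum_congr rfl fun ε hε => ?_
      exact e0 _ ((mem_powersetCard.1 hε).1.trans h4)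
    · obtain ⟨hwt, hwA⟩ := mem_sdiff.1 hw
      have h6 : (t.erase w).card = 2 := by
        rw [card_erase_of_mem hwt]
        omega
      obtain ⟨x, y, hxy, hxy'⟩ := card_eq_two.1 h6
      have hxm : x ∈ t.erase w := by
        rw [hxy']
        simp
      have hym : y ∈ t.erase w := by
        rw [hxy']
        simp
      obtain ⟨hxw, hxt⟩ := mem_erase.1 hxm
      obtain ⟨hyw, hyt⟩ := mem_erase.1 hym
      have ht' : t = {w, x, y} := by
        rw [← insert_erase hwt, hxy']
      -- the case of two outer vertices
      have two : ∀ x y : α, x ≠ w → y ≠ w → x ≠ y → t = {w, x, y} → x ∉ A → y ∈ A →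
          ∑ ε ∈ t.powersetCard 2, Φ ε = 0 := by
        intro x y hxw hyw hxy ht' hxA hyA
        have hK2 : ({w, x} : Finset α) ∈ K := by
          refine hK.down _ ht _ ?_ ⟨w, by simp⟩
          rw [ht']
          intro z hz
          simp only [mem_insert, mem_singleton] at hz ⊢
          tauto
        have hyv : y ∈ verts (surf K A {w, x}) := by
          obtain ⟨s, hs, hs'⟩ := ap_exists (σ := {y}) (e := {w, x}) hK hA (card_pair hxw.symm)
            (by
              rw [disjoint_left]
              intro z hz
              simp only [mem_insert, mem_singleton] at hz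
              rcases hz with rfl | rfl
              · exact hwA
              · exact hxA)
            (singleton_subset_iff.2 hyA)
            (by
              have h7 : ({w, x} : Finset α) ∪ {y} = t := by
                rw [ht']
                ext z
                simp only [mem_union, mem_insert, mem_singleton]
                tauto
              rw [h7]
              exact ht)
          unfold verts
          exact mem_biUnion.2 ⟨s, hs, hs' (mem_singleton_self y)⟩
        rw [ht', ap_tri_sum hxw.symm hyw.symm hxy, e3 w x hwA hxA hxw.symm hK2 y hyv,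
          e2 w hwA y hyA, e2 x hxA y hyA]
        have e5 : P w y + P x y + P w y + P x y = (P w y + P w y) + (P x y + P x y) := by ring
        rw [e5, ap_two, ap_two, add_zero]
      by_cases hxA : x ∈ A
      · by_cases hyA : y ∈ A
        · rw [ht', ap_tri_sum hxw.symm hyw.symm hxy, e2 w hwA x hxA, e2 w hwA y hyA]
          have hsub : ({x, y} : Finset α) ⊆ A := by
            intro z hz
            simp only [mem_insert, mem_singleton] at hz
            rcases hz with rfl | rfl
            · exact hxA
            · exact hyA
          rw [e0 _ hsub, hP w hwA {x, y} hsub (card_pair hxy) (by rw [← ht']; exact ht),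
            sum_pair hxy]
          exact ap_two _
        · refine two y x hyw hxw hxy.symm ?_ hyA hxA
          rw [ht']
          ext z
          simp only [mem_insert, mem_singleton]
          tauto
      · by_cases hyA : y ∈ A
        · exact two x y hxw hyw hxy ht' hxA hyA
        · exfalso
          have h7 : t ⊆ t \ A := by
            rw [ht']
            intro z hz
            refine mem_sdiff.2 ⟨hz, ?_⟩
            simp only [mem_insert, mem_singleton] at hz
            rcases hz with rfl | rfl | rfl
            · exact hwA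
            · exact hxA
            · exact hyA
          have h8 := card_le_card h7
          omega)
  refine ⟨ψ, fun ε hε => ?_⟩
  obtain ⟨a1, a2, a3⟩ := mem_part.1 hε
  rw [← e0 ε a3]
  exact hψ ε a1 a2

end Pool.MP_f18604_gt.BO
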