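import Pool.Agent.Helper23.BO.Basic

/-!
# BO-18: averaging over the sets of three colours

For a set `s` of three colours let `A_s` be the set of the vertices with colours in `s`. Every 4-simplex has exactly one vertex of each colour (`κ` is injective on it, five colours), so `Meets K (A_s)`.
`∑_s |part K A_s 2| = 3 f_1`: an edge (contained in a 4-simplex) has two vertices with different colours, and two colours are contained in exactly three of the ten sets `s`.
`∑_s |A_s| = 6 f_0`: a colour lies in exactly six of them; `f_0 = |α|`, as all `{v} ∈ K`. So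
`∑_s (|part K A_s 2| - 3 |A_s| + 6) = 3 f_1 - 18 f_0 + 60`, and some term is at most the average.
(`univ.powersetCard 3 : Finset (Finset (Fin 5))` has ten elements; the counts over `s` by `decide` on `Fin 5`.)
-/

set_option autoImplicit false

namespace Pool.MP_f18604_gt.BO

open Finset Module Pool.MP_f18604_gt.Gem Pool.MP_f18604_gt.KF

variable {α : Type} [Fintype α] [DecidableEq α]

/-- the vertices with colours in `s` -/
def colored (κ : α → Fin 5) (s : Finset (Fin 5)) : Finset α := univ.filter (fun v => κ v ∈ s)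

theorem mem_colored {κ : α → Fin 5} {s : Finset (Fin 5)} {v : α} :
    v ∈ colored κ s ↔ κ v ∈ s := by
  unfold colored
  rw [mem_filter]
  exact ⟨fun h => h.2, fun h => ⟨mem_univ _, h⟩⟩

theorem colored_meets {K : Finset (Finset α)} {κ : α → Fin 5} (hκ : Rainbow K κ)
    {s : Finset (Fin 5)} (hs : s.card = 3) : Meets K (colored κ s) := by
  intro F hF h5
  have hinj : Set.InjOn κ (F : Set α) := fun a ha b hb h =>
    hκ F hF h5 a (mem_coe.1 ha) b (mem_coe.1 hb) h
  have himg : F.image κ = univ := by
    apply eq_univ_of_card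
    rw [card_image_of_injOn hinj, h5]
    rfl
  have h1 : (F ∩ colored κ s).image κ = s := by
    ext c
    rw [mem_image]
    constructor
    · rintro ⟨v, hv, rfl⟩
      exact mem_colored.1 (mem_inter.1 hv).2
    · intro hc
      have h2 : c ∈ F.image κ := by rw [himg]; exact mem_univ _
      obtain ⟨v, hv, rfl⟩ := mem_image.1 h2
      exact ⟨v, mem_inter.2 ⟨hv, mem_colored.2 hc⟩, rfl⟩
  have h3 : ((F ∩ colored κ s).image κ).card = (F ∩ colored κ s).card :=
    card_image_of_injOn (fun a ha b hb h => hinj (mem_coe.2 (mem_inter.1 (mem_coe.1 ha)).1)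
      (mem_coe.2 (mem_inter.1 (mem_coe.1 hb)).1) h)
  rw [← h3, h1, hs]

theorem count_two : ∀ x y : Fin 5, x ≠ y →
    (((univ : Finset (Fin 5)).powersetCard 3).filter (fun s => x ∈ s ∧ y ∈ s)).card = 3 := by
  decide

theorem count_one : ∀ x : Fin 5,
    (((univ : Finset (Fin 5)).powersetCard 3).filter (fun s => x ∈ s)).card = 6 := by
  decide

theorem sum_part {K : Finset (Finset α)} (hK : NormalPseudomanifold K) {κ : α → Fin 5}
    (hκ : Rainbow K κ) :
    ∑ s ∈ (univ : Finset (Fin 5)).powersetCard 3, (part K (colored κ s) 2).card =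
      3 * fnum K 1 := by
  have h1 : ∀ s : Finset (Fin 5), (part K (colored κ s) 2).card =
      ∑ ε ∈ K.filter (fun σ => σ.card = 1 + 1), if ε ⊆ colored κ s then 1 else 0 := by
    intro s
    rw [← card_filter]
    congr 1
    ext ε
    rw [mem_part, mem_filter, mem_filter]
    tauto
  simp only [h1]
  rw [sum_comm]
  unfold fnum
  rw [mul_comm, ← smul_eq_mul, ← sum_const]
  refine sum_congr rfl fun ε hε => ?_
  obtain ⟨hεK, hε2⟩ := mem_filter.1 hε
  obtain ⟨a, b, hab, rfl⟩ := card_eq_two.1 hε2
  obtain ⟨F, hF, hFs, h5⟩ := hK.pure _ hεK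
  have hne : κ a ≠ κ b := fun h => hab (hκ F hF h5 a (hFs (by simp)) b (hFs (by simp)) h)
  rw [← card_filter]
  refine Eq.trans ?_ (count_two _ _ hne)
  congr 1
  ext s
  rw [mem_filter, mem_filter]
  constructor
  · rintro ⟨h2, h3⟩
    exact ⟨h2, mem_colored.1 (h3 (by simp)), mem_colored.1 (h3 (by simp))⟩
  · rintro ⟨h2, h3, h4⟩
    refine ⟨h2, fun x hx => ?_⟩
    rcases mem_insert.1 hx with rfl | hx
    · exact mem_colored.2 h3
    · rw [mem_singleton.1 hx]; exact mem_colored.2 h4

theorem sum_colored (κ : α → Fin 5) :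
    ∑ s ∈ (univ : Finset (Fin 5)).powersetCard 3, (colored κ s).card = 6 * Fintype.card α := by
  have h1 : ∀ s : Finset (Fin 5), (colored κ s).card = ∑ v : α, if κ v ∈ s then 1 else 0 := by
    intro s
    rw [← card_filter]
    rfl
  simp only [h1]
  rw [sum_comm, mul_comm, ← smul_eq_mul, ← card_univ, ← sum_const]
  refine sum_congr rfl fun v _ => ?_
  rw [← card_filter]
  exact count_one (κ v)

theorem fnum_zero {K : Finset (Finset α)} (hK : NormalPseudomanifold K) :
    fnum K 0 = Fintype.card α := by
  unfold fnum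
  have h1 : K.filter (fun σ => σ.card = 0 + 1) = (univ : Finset α).image (fun v => {v}) := by
    ext σ
    rw [mem_filter, mem_image]
    constructor
    · rintro ⟨_, h2⟩
      obtain ⟨v, rfl⟩ := card_eq_one.1 h2
      exact ⟨v, mem_univ _, rfl⟩
    · rintro ⟨v, _, rfl⟩
      exact ⟨hK.vertex v, card_singleton v⟩
  rw [h1, card_image_of_injective _ (fun a b h => singleton_injective h), card_univ]

theorem exists_colors {K : Finset (Finset α)} (hK : NormalPseudomanifold K) {κ : α → Fin 5}
    (hκ : Rainbow K κ) : ∃ A : Finset α, Meets K A ∧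
      10 * ((part K A 2).card - 3 * A.card + 6 : ℤ) ≤ 3 * (fnum K 1 - 6 * fnum K 0 + 20) := by
  have hne : ((univ : Finset (Fin 5)).powersetCard 3).Nonempty := ⟨{0, 1, 2}, by decide⟩
  have hc : ((univ : Finset (Fin 5)).powersetCard 3).card = 10 := by decide
  have h1 := sum_part hK hκ
  have h2 := sum_colored κ
  have h3 := fnum_zero hK
  have hsum : ∑ s ∈ (univ : Finset (Fin 5)).powersetCard 3,
      (10 * ((part K (colored κ s) 2).card - 3 * (colored κ s).card + 6) : ℤ) ≤
      ∑ _s ∈ (univ : Finset (Fin 5)).powersetCard 3,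
        (3 * (fnum K 1 - 6 * fnum K 0 + 20) : ℤ) := by
    rw [← mul_sum, sum_add_distrib, sum_sub_distrib, ← mul_sum, sum_const, sum_const, hc,
      ← Nat.cast_sum, ← Nat.cast_sum, h1, h2, h3]
    apply le_of_eq
    push_cast
    ring
  obtain ⟨s, hs, hs'⟩ := exists_le_of_sum_le hne hsum
  exact ⟨colored κ s, colored_meets hκ (mem_powersetCard.1 hs).2, hs'⟩

end Pool.MP_f18604_gt.BO
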