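import Pool.Agent.Helper23.BO.Defs

/-!
# BO: basic facts about sets of triangles
-/

set_option autoImplicit false

namespace Pool.MP_f18604_gt.BO

open Finset Module Pool.MP_f18604_gt.Gem Pool.MP_f18604_gt.KF

variable {α : Type} [Fintype α] [DecidableEq α]

omit [Fintype α] in
theorem mem_edges {Y : Finset (Finset α)} {ε : Finset α} :
    ε ∈ edges Y ↔ ∃ t ∈ Y, ε ⊆ t ∧ ε.card = 2 := by
  unfold edges
  rw [mem_biUnion]
  constructor
  · rintro ⟨t, ht, h⟩
    exact ⟨t, ht, mem_powersetCard.1 h⟩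
  · rintro ⟨t, ht, h⟩
    exact ⟨t, ht, mem_powersetCard.2 h⟩

omit [Fintype α] in
theorem edges_mono {Y Y' : Finset (Finset α)} (h : Y ⊆ Y') : edges Y ⊆ edges Y' := by
  intro ε hε
  obtain ⟨t, ht, h1⟩ := mem_edges.1 hε
  exact mem_edges.2 ⟨t, h ht, h1⟩

omit [Fintype α] in
theorem card_of_mem_edges {Y : Finset (Finset α)} {ε : Finset α} (h : ε ∈ edges Y) :
    ε.card = 2 := by
  obtain ⟨_, _, _, h1⟩ := mem_edges.1 h
  exact h1

omit [Fintype α] in
theorem deg_pos_iff {Y : Finset (Finset α)} {ε : Finset α} (hc : ε.card = 2) :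
    0 < deg Y ε ↔ ε ∈ edges Y := by
  unfold deg
  rw [card_pos, mem_edges]
  constructor
  · rintro ⟨t, ht⟩
    exact ⟨t, (mem_filter.1 ht).1, (mem_filter.1 ht).2, hc⟩
  · rintro ⟨t, ht, h1, _⟩
    exact ⟨t, mem_filter.2 ⟨ht, h1⟩⟩

omit [Fintype α] in
theorem deg_eq_zero_iff {Y : Finset (Finset α)} {ε : Finset α} (hc : ε.card = 2) :
    deg Y ε = 0 ↔ ε ∉ edges Y := by
  rw [← deg_pos_iff hc]
  omega

omit [Fintype α] in
theorem deg_mono {Y Y' : Finset (Finset α)} (h : Y ⊆ Y') (ε : Finset α) : deg Y ε ≤ deg Y' ε :=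
  card_le_card (filter_subset_filter _ h)

omit [Fintype α] in
theorem deg_add {Y Y' : Finset (Finset α)} (h : Y' ⊆ Y) (ε : Finset α) :
    deg Y ε = deg Y' ε + deg (Y \ Y') ε := by
  unfold deg
  rw [← card_union_of_disjoint]
  · congr 1
    ext t
    simp only [mem_filter, mem_union, mem_sdiff]
    constructor
    · rintro ⟨h1, h2⟩
      by_cases h3 : t ∈ Y'
      · exact Or.inl ⟨h3, h2⟩
      · exact Or.inr ⟨⟨h1, h3⟩, h2⟩
    · rintro (⟨h1, h2⟩ | ⟨⟨h1, _⟩, h2⟩)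
      · exact ⟨h h1, h2⟩
      · exact ⟨h1, h2⟩
  · rw [disjoint_left]
    intro t h1 h2
    exact (mem_sdiff.1 (mem_filter.1 h2).1).2 (mem_filter.1 h1).1

omit [Fintype α] in
/-- Double counting with a set of edges. -/
theorem sum_deg_eq (Y E : Finset (Finset α)) :
    ∑ ε ∈ E, deg Y ε = ∑ t ∈ Y, (E.filter (fun ε => ε ⊆ t)).card := by
  unfold deg
  simp only [card_eq_sum_ones, sum_filter]
  exact sum_comm

omit [Fintype α] in
theorem sum_deg {Y : Finset (Finset α)} (hY : Tri Y) : ∑ ε ∈ edges Y, deg Y ε = 3 * Y.card := by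
  rw [sum_deg_eq, mul_comm, ← smul_eq_mul, ← sum_const]
  refine sum_congr rfl fun t ht => ?_
  have h1 : (edges Y).filter (fun ε => ε ⊆ t) = t.powersetCard 2 := by
    ext ε
    rw [mem_filter, mem_powersetCard, mem_edges]
    constructor
    · rintro ⟨⟨_, _, _, h2⟩, h1⟩
      exact ⟨h1, h2⟩
    · rintro ⟨h1, h2⟩
      exact ⟨⟨t, ht, h1, h2⟩, h1⟩
  rw [h1, card_powersetCard, hY t ht]
  rfl

omit [Fintype α] in
theorem Tri.mono {Y Y' : Finset (Finset α)} (h : Y ⊆ Y') (hY : Tri Y') : Tri Y :=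
  fun t ht => hY t (h ht)

omit [Fintype α] in
theorem NoCyc.mono {Y Y' : Finset (Finset α)} (h : Y ⊆ Y') (hY : NoCyc Y') : NoCyc Y :=
  fun C hC hc => hY C (hC.trans h) hc

omit [Fintype α] in
theorem mem_part {K : Finset (Finset α)} {A σ : Finset α} {i : ℕ} :
    σ ∈ part K A i ↔ σ ∈ K ∧ σ.card = i ∧ σ ⊆ A := by
  unfold part
  rw [mem_filter]

omit [Fintype α] in
theorem tri_part (K : Finset (Finset α)) (A : Finset α) : Tri (part K A 3) :=
  fun _ ht => (mem_part.1 ht).2.1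

/-- The edges of the triangles of `K[A]` are edges of `K[A]`. -/
theorem edges_part_subset {K : Finset (Finset α)} (hK : NormalPseudomanifold K) (A : Finset α) :
    edges (part K A 3) ⊆ part K A 2 := by
  intro ε hε
  obtain ⟨t, ht, h1, h2⟩ := mem_edges.1 hε
  obtain ⟨h3, _, h5⟩ := mem_part.1 ht
  refine mem_part.2 ⟨hK.down t h3 ε h1 ?_, h2, h1.trans h5⟩
  rw [← card_pos]
  omega

theorem mem_link {K : Finset (Finset α)} {v : α} {σ : Finset α} :
    σ ∈ link K v ↔ σ.Nonempty ∧ v ∉ σ ∧ insert v σ ∈ K := by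
  unfold link
  rw [mem_filter]
  exact ⟨fun h => h.2, fun h => ⟨mem_univ _, h⟩⟩

end Pool.MP_f18604_gt.BO
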