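import Pool.Agent.Helper23.BO.Basic

/-!
# BO-10: from `K[A]` to `K`

For `v ∉ A` take a 4-simplex `F_v ∋ v` and `x_v ∈ F_v ∩ A`, and let `S` be the union of `S₀` and of the sets `{v, x_v}`, `v ∉ A` (distinct, not contained in `A`, so
`|S| = |S₀| + (n - |A|)`). All edges of `K` are known from `S` with the triangles of `K`:
(1) edges contained in `A`: `hS₀` and `Known.mono`;
(2) edges `{v, x}` with `v ∉ A`, `x ∈ A`: let `F ∋ v, x` be a 4-simplex (`hK.pure`). There is a chain of 4-simplices containing `v` from `F_v` to `F` (`hK.normal`), consecutive ones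
having four common vertices. Claim: for every `G` in the chain all `{v, y}`, `y ∈ G ∩ A`, are known. For `G = F_v`: from `{v, x_v}` and
`{x_v, y}` with the triangle `{v, x_v, y}`. If it holds for `G` and `|G ∩ G'| = 4` then `G ∩ G' ∩ A` is nonempty (it has at least two elements); take `z` in it; `{v, z}` is known, and for `y ∈ G' ∩ A`,
`y ≠ z`, `{z, y} ⊆ A` is known and `{v, z, y} ∈ K`.
(3) edges `{v, w}` with `v, w ∉ A`: a 4-simplex containing `v, w` contains an `x ∈ A`; `{v, x}`, `{w, x}` are known by (2) and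
`{v, w, x} ∈ K`.
-/

set_option autoImplicit false

namespace Pool.MP_f18604_gt.BO

open Finset Module Pool.MP_f18604_gt.Gem Pool.MP_f18604_gt.KF

variable {α : Type} [Fintype α] [DecidableEq α]

omit [Fintype α] in
private theorem Bverts_tri {K S : Finset (Finset α)} {a b c : α} (hab : a ≠ b) (hbc : b ≠ c)
    (hac : a ≠ c) (ht : ({a, b, c} : Finset α) ∈ K) (h1 : Known K S {a, b})
    (h2 : Known K S {b, c}) : Known K S {a, c} := by
  refine Known.step ht (card_eq_three.2 ⟨a, b, c, hab, hac, hbc, rfl⟩)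
    (mem_powersetCard.2 ⟨?_, card_pair hac⟩) ?_
  · intro x hx
    simp only [mem_insert, mem_singleton] at hx ⊢
    tauto
  · intro ε' hε' hne
    obtain ⟨h3, h4⟩ := mem_powersetCard.1 hε'
    obtain ⟨x, y, hxy, rfl⟩ := card_eq_two.1 h4
    have hx : x ∈ ({a, b, c} : Finset α) := h3 (mem_insert_self x {y})
    have hy : y ∈ ({a, b, c} : Finset α) := h3 (mem_insert_of_mem (mem_singleton_self y))
    simp only [mem_insert, mem_singleton] at hx hy
    rcases hx with rfl | rfl | rfl <;> rcases hy with rfl | rfl | rfl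
    · exact absurd rfl hxy
    · exact h1
    · exact absurd rfl hne
    · rw [pair_comm]; exact h1
    · exact absurd rfl hxy
    · exact h2
    · exact absurd (pair_comm _ _) hne
    · rw [pair_comm]; exact h2
    · exact absurd rfl hxy

theorem exists_perc {K : Finset (Finset α)} (hK : NormalPseudomanifold K) {A : Finset α}
    (hA : Meets K A) {S₀ : Finset (Finset α)} (hS₀ : S₀ ⊆ part K A 2)
    (hkn : ∀ ε ∈ part K A 2, Known (part K A 3) S₀ ε) :
    ∃ S : Finset (Finset α), (∀ ε ∈ S, ε ∈ K ∧ ε.card = 2) ∧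
      (∀ ε ∈ K, ε.card = 2 → Known K S ε) ∧ S.card + A.card = S₀.card + Fintype.card α := by
  have hx : ∀ v : α, ∃ (F : Finset α) (x : α), F ∈ K ∧ F.card = 5 ∧ v ∈ F ∧ x ∈ F ∧ x ∈ A := by
    intro v
    obtain ⟨F, hF, h1, h2⟩ := hK.pure _ (hK.vertex v)
    have h3 := hA F hF h2
    obtain ⟨x, hx⟩ : (F ∩ A).Nonempty := by
      rw [← card_pos]
      omega
    exact ⟨F, x, hF, h2, h1 (mem_singleton_self v), (mem_inter.1 hx).1, (mem_inter.1 hx).2⟩
  choose FF x hFK hF5 hvF hxF hxA using hx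
  set S₁ : Finset (Finset α) := (Aᶜ).image fun v => ({v, x v} : Finset α) with hS₁
  have hvx : ∀ v, v ∉ A → v ≠ x v := fun v hv h => hv (h ▸ hxA v)
  have hdisj : Disjoint S₀ S₁ := by
    rw [disjoint_left]
    intro ε h1 h2
    obtain ⟨v, hv, rfl⟩ := mem_image.1 h2
    exact (mem_compl.1 hv) ((mem_part.1 (hS₀ h1)).2.2 (mem_insert_self _ _))
  have hinj : Set.InjOn (fun v => ({v, x v} : Finset α)) (Aᶜ : Finset α) := by
    intro v hv w hw h
    have hv' : v ∉ A := by simpa using hv
    have h1 : v ∈ ({w, x w} : Finset α) := by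
      have h2 : ({v, x v} : Finset α) = {w, x w} := h
      rw [← h2]
      exact mem_insert_self _ _
    rcases mem_insert.1 h1 with h2 | h2
    · exact h2
    · exact absurd (mem_singleton.1 h2 ▸ hxA w) hv'
  have hcard : (S₀ ∪ S₁).card + A.card = S₀.card + Fintype.card α := by
    rw [card_union_of_disjoint hdisj, hS₁, card_image_of_injOn hinj, card_compl]
    have := card_le_univ A
    omega
  have hbase : ∀ v, v ∉ A → Known K (S₀ ∪ S₁) {v, x v} := fun v hv =>
    Known.base (mem_union_right _ (mem_image.2 ⟨v, mem_compl.2 hv, rfl⟩))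
  have k1 : ∀ ε ∈ part K A 2, Known K (S₀ ∪ S₁) ε := fun ε hε =>
    (hkn ε hε).mono (filter_subset _ _) subset_union_left
  have hsub3 : ∀ (F : Finset α), F ∈ K → ∀ a ∈ F, ∀ b ∈ F, ∀ c ∈ F,
      ({a, b, c} : Finset α) ∈ K := by
    intro F hF a ha b hb c hc
    refine hK.down F hF _ ?_ (insert_nonempty _ _)
    intro y hy
    simp only [mem_insert, mem_singleton] at hy
    rcases hy with rfl | rfl | rfl <;> assumption
  have hsub2 : ∀ (F : Finset α), F ∈ K → ∀ a ∈ F, ∀ b ∈ F, ({a, b} : Finset α) ∈ K := by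
    intro F hF a ha b hb
    refine hK.down F hF _ ?_ (insert_nonempty _ _)
    intro y hy
    simp only [mem_insert, mem_singleton] at hy
    rcases hy with rfl | rfl <;> assumption
  have k2 : ∀ v, v ∉ A → ∀ G : Finset α, Relation.ReflTransGen (fun A B => A ∈ K ∧ B ∈ K ∧
      A.card = 5 ∧ B.card = 5 ∧ v ∈ A ∧ v ∈ B ∧ (A ∩ B).card = 4) (FF v) G →
      ∀ y ∈ G, y ∈ A → Known K (S₀ ∪ S₁) {v, y} := by
    intro v hv G hG
    induction hG with
    | refl =>
      intro y hy hyA
      by_cases hyx : y = x v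
      · rw [hyx]
        exact hbase v hv
      · refine Bverts_tri (hvx v hv) (Ne.symm hyx) (fun h => hv (h ▸ hyA))
          (hsub3 _ (hFK v) _ (hvF v) _ (hxF v) _ hy) (hbase v hv) (k1 _ ?_)
        refine mem_part.2 ⟨hsub2 _ (hFK v) _ (hxF v) _ hy, card_pair (Ne.symm hyx), ?_⟩
        intro z hz
        simp only [mem_insert, mem_singleton] at hz
        rcases hz with rfl | rfl
        · exact hxA v
        · exact hyA
    | tail _ hst ih =>
      rename_i G₁ G₂ _
      obtain ⟨h1, h2, h3, h4, h5, h6, h7⟩ := hst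
      intro y hy hyA
      obtain ⟨z, hz⟩ : ((G₁ ∩ G₂) ∩ A).Nonempty := by
        rw [← card_pos]
        have h8 := hA G₂ h2 h4
        have h9 : (G₂ \ (G₁ ∩ G₂)).card = 1 := by
          rw [card_sdiff_of_subset inter_subset_right]
          omega
        have h10 : G₂ ∩ A ⊆ ((G₁ ∩ G₂) ∩ A) ∪ (G₂ \ (G₁ ∩ G₂)) := by
          intro w hw
          obtain ⟨h11, h12⟩ := mem_inter.1 hw
          by_cases h13 : w ∈ G₁ ∩ G₂
          · exact mem_union_left _ (mem_inter.2 ⟨h13, h12⟩)
          · exact mem_union_right _ (mem_sdiff.2 ⟨h11, h13⟩)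
        have h11 := (card_le_card h10).trans (card_union_le _ _)
        omega
      obtain ⟨hz1, hzA⟩ := mem_inter.1 hz
      obtain ⟨hz1, hz2⟩ := mem_inter.1 hz1
      have h8 := ih z hz1 hzA
      by_cases hyz : y = z
      · rw [hyz]
        exact h8
      · refine Bverts_tri (fun h => hv (h ▸ hzA)) (Ne.symm hyz) (fun h => hv (h ▸ hyA))
          (hsub3 _ h2 _ h6 _ hz2 _ hy) h8 (k1 _ ?_)
        refine mem_part.2 ⟨hsub2 _ h2 _ hz2 _ hy, card_pair (Ne.symm hyz), ?_⟩
        intro w hw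
        simp only [mem_insert, mem_singleton] at hw
        rcases hw with rfl | rfl
        · exact hzA
        · exact hyA
  have k3 : ∀ v, v ∉ A → ∀ G ∈ K, G.card = 5 → v ∈ G → ∀ y ∈ G, y ∈ A →
      Known K (S₀ ∪ S₁) {v, y} := fun v hv G hG hG5 hvG =>
    k2 v hv G (hK.normal v _ (hFK v) _ hG (hF5 v) hG5 (hvF v) hvG)
  refine ⟨S₀ ∪ S₁, ?_, ?_, hcard⟩
  · intro ε hε
    rcases mem_union.1 hε with h1 | h1
    · exact ⟨(mem_part.1 (hS₀ h1)).1, (mem_part.1 (hS₀ h1)).2.1⟩
    · obtain ⟨v, hv, rfl⟩ := mem_image.1 h1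
      exact ⟨hsub2 _ (hFK v) _ (hvF v) _ (hxF v), card_pair (hvx v (mem_compl.1 hv))⟩
  · intro ε hε hc
    obtain ⟨a, b, hab, rfl⟩ := card_eq_two.1 hc
    obtain ⟨F, hF, hsub, hF5'⟩ := hK.pure _ hε
    have haF : a ∈ F := hsub (mem_insert_self a {b})
    have hbF : b ∈ F := hsub (mem_insert_of_mem (mem_singleton_self b))
    by_cases haA : a ∈ A
    · by_cases hbA : b ∈ A
      · refine k1 _ (mem_part.2 ⟨hε, hc, ?_⟩)
        intro w hw
        simp only [mem_insert, mem_singleton] at hw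
        rcases hw with rfl | rfl <;> assumption
      · rw [pair_comm]
        exact k3 b hbA F hF hF5' hbF a haF haA
    · by_cases hbA : b ∈ A
      · exact k3 a haA F hF hF5' haF b hbF hbA
      · have h3 := hA F hF hF5'
        obtain ⟨z, hz⟩ : (F ∩ A).Nonempty := by
          rw [← card_pos]
          omega
        obtain ⟨hz1, hz2⟩ := mem_inter.1 hz
        refine Bverts_tri (fun h => haA (h ▸ hz2)) (fun h => hbA (h ▸ hz2)) hab
          (hsub3 _ hF _ haF _ hz1 _ hbF) (k3 a haA F hF hF5' haF z hz1 hz2) ?_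
        rw [pair_comm]
        exact k3 b hbA F hF hF5' hbF z hz1 hz2

end Pool.MP_f18604_gt.BO
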