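import Pool.Agent.Helper23.BO.Basic

/-!
# BO-06: chains of 4-simplices, and the surfaces `{t : t ∪ e ∈ K}`

`facet_chain`: any two 4-dimensional simplices of `K` are joined by a chain of 4-dimensional simplices, consecutive ones having
four common vertices. Take vertices `u ∈ F`, `v ∈ G` and the path from `u` to `v` in the 1-skeleton (`hK.conn`); induct along the
path: for an edge `{a, b} ∈ K` (`a ≠ b`; if `a = b` there is nothing to do) there is a 4-simplex `H ∋ a, b` (`hK.pure`), and 4-simplices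
containing `a` are joined by `hK.normal a`, those containing `b` by `hK.normal b`. So the claim to prove by induction is: for all
4-simplices `F ∋ u`, `G ∋ v` there is a chain.

`surf_two`: let `F` be a 4-simplex and `e = F \ A` (two elements, by `hA`), `Σ = {t ∈ K : |t| = 3, t ⊆ A, t ∪ e ∈ K}`. Every edge `ε` of a member of `Σ` lies in
exactly two members of `Σ`: `R = ε ∪ e` has four elements and is in `K` (`hK.down`), and `t ↦ t ∪ e` is a bijection from
the members of `Σ` containing `ε` to the 4-simplices containing `R` (for `G ⊇ R`, `|G| = 5`: `|G ∩ A| = 3` and `G \ A` has two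
elements and contains `e`, so `G = (G ∩ A) ∪ e`); there are two of them by `hK.ridge`.
-/

set_option autoImplicit false

namespace Pool.MP_f18604_gt.BO

open Finset Module Pool.MP_f18604_gt.Gem Pool.MP_f18604_gt.KF

variable {α : Type} [Fintype α] [DecidableEq α]

omit [Fintype α] in
private theorem Chain_aux {K : Finset (Finset α)} (hn : ∀ v : α, ∀ F ∈ K, ∀ G ∈ K, F.card = 5 →
    G.card = 5 → v ∈ F → v ∈ G → Relation.ReflTransGen (fun A B => A ∈ K ∧ B ∈ K ∧ A.card = 5 ∧
      B.card = 5 ∧ v ∈ A ∧ v ∈ B ∧ (A ∩ B).card = 4) F G) (v : α) {F G : Finset α} (hF : F ∈ K)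
    (hG : G ∈ K) (hF5 : F.card = 5) (hG5 : G.card = 5) (h1 : v ∈ F) (h2 : v ∈ G) :
    Relation.ReflTransGen (fun A B => A ∈ K ∧ B ∈ K ∧ A.card = 5 ∧ B.card = 5 ∧
      (A ∩ B).card = 4) F G := by
  refine Relation.ReflTransGen.mono ?_ _ _ (hn v F hF G hG hF5 hG5 h1 h2)
  rintro a b ⟨h3, h4, h5, h6, -, -, h7⟩
  exact ⟨h3, h4, h5, h6, h7⟩

theorem facet_chain {K : Finset (Finset α)} (hK : NormalPseudomanifold K) {F G : Finset α}
    (hF : F ∈ K) (hG : G ∈ K) (hF5 : F.card = 5) (hG5 : G.card = 5) :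
    Relation.ReflTransGen (fun A B => A ∈ K ∧ B ∈ K ∧ A.card = 5 ∧ B.card = 5 ∧
      (A ∩ B).card = 4) F G := by
  obtain ⟨u, hu⟩ : F.Nonempty := by
    rw [← card_pos]
    omega
  obtain ⟨v, hv⟩ : G.Nonempty := by
    rw [← card_pos]
    omega
  have key : ∀ w, Relation.ReflTransGen (fun a b => ({a, b} : Finset α) ∈ K) u w →
      ∀ G ∈ K, G.card = 5 → w ∈ G → Relation.ReflTransGen (fun A B => A ∈ K ∧ B ∈ K ∧
        A.card = 5 ∧ B.card = 5 ∧ (A ∩ B).card = 4) F G := by
    intro w hw
    induction hw with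
    | refl =>
      intro G hG hG5 hGu
      exact Chain_aux hK.normal u hF hG hF5 hG5 hu hGu
    | tail _ hbc ih =>
      rename_i b c _
      intro G hG hG5 hGc
      obtain ⟨H, hH, hsub, hH5⟩ := hK.pure _ hbc
      have h1 := ih H hH hH5 (hsub (mem_insert_self b {c}))
      have h2 := Chain_aux hK.normal c hH hG hH5 hG5
        (hsub (mem_insert_of_mem (mem_singleton_self c))) hGc
      exact h1.trans h2
  exact key v (hK.conn u v) G hG hG5 hv

theorem surf_two {K : Finset (Finset α)} (hK : NormalPseudomanifold K) {A : Finset α}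
    (hA : Meets K A) {F : Finset α} (hF : F ∈ K) (hF5 : F.card = 5) {ε : Finset α}
    (hε : ε ∈ edges ((part K A 3).filter (fun t => t ∪ (F \ A) ∈ K))) :
    deg ((part K A 3).filter (fun t => t ∪ (F \ A) ∈ K)) ε = 2 := by
  have hc : (F \ A).card = 2 := by
    have := card_sdiff_add_card_inter F A
    have := hA F hF hF5
    omega
  have hd : Disjoint (F \ A) A := sdiff_disjoint
  generalize F \ A = e at hε hc hd ⊢
  obtain ⟨t₀, ht₀, h1, h2⟩ := mem_edges.1 hε
  rw [mem_filter, mem_part] at ht₀
  obtain ⟨⟨h3, h4, h5⟩, h6⟩ := ht₀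
  have hεe : Disjoint ε e := (hd.mono_right (h1.trans h5)).symm
  have hR : ε ∪ e ∈ K := by
    refine hK.down _ h6 _ (union_subset_union_left h1) ?_
    rw [← card_pos, card_union_of_disjoint hεe]
    omega
  have hR4 : (ε ∪ e).card = 4 := by
    rw [card_union_of_disjoint hεe]
    omega
  rw [← hK.ridge _ hR hR4]
  unfold deg
  refine card_bij (fun t _ => t ∪ e) ?_ ?_ ?_
  · intro t ht
    rw [mem_filter, mem_filter, mem_part] at ht
    obtain ⟨⟨⟨h7, h8, h9⟩, h10⟩, h11⟩ := ht
    refine mem_filter.2 ⟨h10, ?_, union_subset_union_left h11⟩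
    rw [card_union_of_disjoint (hd.mono_right h9).symm]
    omega
  · intro t ht t' ht' h
    rw [mem_filter, mem_filter, mem_part] at ht ht'
    have h7 : ∀ s ⊆ A, (s ∪ e) ∩ A = s := by
      intro s hs
      rw [union_inter_distrib_right, inter_eq_left.2 hs, disjoint_iff_inter_eq_empty.1 hd,
        union_empty]
    rw [← h7 t ht.1.1.2.2, ← h7 t' ht'.1.1.2.2]
    exact congrArg (fun G => G ∩ A) h
  · intro G hG
    obtain ⟨h7, h8, h9⟩ := mem_filter.1 hG
    have h10 := hA G h7 h8
    have h11 : G \ A = e := by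
      have h12 := card_sdiff_add_card_inter G A
      refine (eq_of_subset_of_card_le (fun x hx => ?_) (by omega)).symm
      exact mem_sdiff.2 ⟨h9 (mem_union_right _ hx), fun h => (disjoint_left.1 hd) hx h⟩
    have h12 : G ∩ A ∪ e = G := by
      rw [← h11]
      ext x
      simp only [mem_union, mem_inter, mem_sdiff]
      tauto
    refine ⟨G ∩ A, ?_, h12⟩
    rw [mem_filter, mem_filter, mem_part, h12]
    refine ⟨⟨⟨hK.down G h7 _ inter_subset_left ?_, h10, inter_subset_right⟩, h7⟩, ?_⟩
    · rw [← card_pos]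
      omega
    · exact subset_inter (subset_union_left.trans h9) (h1.trans h5)

end Pool.MP_f18604_gt.BO
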