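import Pool.Agent.Helper23.BO.PsiStep

/-!
# BO-05: the number of removals

`exists_core`: strong induction on `Y.card`. If `Y` is stuck, `R = Y`. Otherwise there is `ε` of cardinality 2 with
`deg Y ε = 1`; let `t` be the member of `Y` containing it (`card_eq_one`); use the induction hypothesis for `Y.erase t` and `Col.coll`.

`col_stuck`: strong induction on `R.card`. If `R = ∅`, `x = 0` (`Psi ∅ = 0`). Otherwise take `t ∈ R` and the core `R'` of
`R.erase t`; `R' ⊆ R`, `R' ≠ R`, `R'` is stuck without cycles; by induction `Col R' x'` with `3 x' ≤ Psi R'`, so `Col (R.erase t) x'`,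
`Col R (x' + 1)` (`Col.rem`), and `psi_step`.

`col_noCyc`: the core `R` of `Y` and `col_stuck`.

`col_extend`: induction on the cardinality of `X \ Y`: `Col.rem` for `t ∈ X \ Y`.
-/

set_option autoImplicit false

namespace Pool.MP_f18604_gt.BO

open Finset Module Pool.MP_f18604_gt.Gem Pool.MP_f18604_gt.KF

variable {α : Type} [Fintype α] [DecidableEq α]

theorem exists_core (Y : Finset (Finset α)) : ∃ R ⊆ Y, Stuck R ∧ ∀ k, Col R k → Col Y k := by
  induction hn : Y.card using Nat.strong_induction_on generalizing Y with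
  | _ n ih =>
    by_cases hs : Stuck Y
    · exact ⟨Y, Finset.Subset.refl _, hs, fun k hk => hk⟩
    · unfold Stuck at hs
      push Not at hs
      obtain ⟨ε, hε, hd⟩ := hs
      obtain ⟨t, ht⟩ := Finset.card_eq_one.1 (show (Y.filter (fun t => ε ⊆ t)).card = 1 from hd)
      have htm : t ∈ Y.filter (fun t => ε ⊆ t) := by rw [ht]; exact mem_singleton_self t
      obtain ⟨htY, hεt⟩ := mem_filter.1 htm
      have hlt : (Y.erase t).card < n := by
        rw [← hn]
        exact Finset.card_erase_lt_of_mem htY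
      obtain ⟨R, hR1, hR2, hR3⟩ := ih _ hlt (Y.erase t) rfl
      exact ⟨R, hR1.trans (Finset.erase_subset _ _), hR2, fun k hk =>
        Col.coll htY (mem_powersetCard.2 ⟨hεt, hε⟩) hd (hR3 k hk)⟩

theorem col_stuck {R : Finset (Finset α)} (hR : Tri R) (hs : Stuck R) (hc : NoCyc R) :
    ∃ x : ℕ, Col R x ∧ 3 * (x : ℤ) ≤ Psi R := by
  induction hn : R.card using Nat.strong_induction_on generalizing R with
  | _ n ih =>
    rcases Finset.eq_empty_or_nonempty R with h0 | ⟨t, ht⟩
    · subst h0
      exact ⟨0, Col.nil, by simp [Psi, edges]⟩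
    · obtain ⟨R', hR1, hR2, hR3⟩ := exists_core (R.erase t)
      have hsub : R' ⊆ R := hR1.trans (Finset.erase_subset _ _)
      have hlt : R'.card < n := by
        rw [← hn]
        exact lt_of_le_of_lt (card_le_card hR1) (Finset.card_erase_lt_of_mem ht)
      have hne : R' ≠ R := by
        intro h
        rw [h, hn] at hlt
        exact lt_irrefl _ hlt
      obtain ⟨x', hx1, hx2⟩ := ih _ hlt (hR.mono hsub) hR2 (hc.mono hsub) rfl
      refine ⟨x' + 1, Col.rem ht (hR3 x' hx1), ?_⟩
      have h3 := psi_step hR hs hsub hne hc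
      push_cast
      linarith

theorem col_noCyc {Y : Finset (Finset α)} (hY : Tri Y) (hc : NoCyc Y) :
    ∃ x : ℕ, Col Y x ∧ ∃ R ⊆ Y, 3 * (x : ℤ) ≤ Psi R := by
  obtain ⟨R, hR1, hR2, hR3⟩ := exists_core Y
  obtain ⟨x, hx1, hx2⟩ := col_stuck (hY.mono hR1) hR2 (hc.mono hR1)
  exact ⟨x, hR3 x hx1, R, hR1, hx2⟩

theorem col_extend {X Y : Finset (Finset α)} (h : Y ⊆ X) {x : ℕ} (hx : Col Y x) :
    Col X (X.card - Y.card + x) := by
  induction hn : X.card - Y.card generalizing X with
  | zero =>
    have h1 : Y = X := Finset.eq_of_subset_of_card_le h (by omega)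
    rw [← h1, zero_add]
    exact hx
  | succ n ih =>
    have h1 : Y.card < X.card := by omega
    obtain ⟨t, ht, htY⟩ := Finset.exists_mem_notMem_of_card_lt_card h1
    have h2 : Y ⊆ X.erase t := Finset.subset_erase.2 ⟨h, htY⟩
    have h3 : (X.erase t).card - Y.card = n := by
      rw [Finset.card_erase_of_mem ht]
      omega
    have h4 := ih h2 h3
    have h5 : n + 1 + x = n + x + 1 := by omega
    rw [h5]
    exact Col.rem ht h4

end Pool.MP_f18604_gt.BO
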