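import Mathlib
import Pool.Agent.Helper47.KF.Defs

/-!
# Project BO: definitions

One-handles of balanced triangulations of 4-manifolds (MP_f18604_gt).

Let `K` be a closed normal pseudomanifold of dimension 4 and `A` a set of vertices which contains
exactly three vertices of every 4-dimensional simplex. Let `K[A]` be the subcomplex of the
simplices with all their vertices in `A` (it has dimension 2), `E` its set of edges.

* `S` percolates (`Known`) if all edges of `K[A]` are obtained from those in `S` by adding the
  third edge of a triangle as soon as the two others are there.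
* There is a percolating `S` with `3 |S| ≤ |E| + 3`, and one with `|S|` equal to the dimension of
  the space of cocycles modulo 2 of `K[A]` or `3 |S| ≤ |E|`.
* A percolating set yields a discrete gradient on `K` with one critical vertex and
  `|S| - |A| + 1` critical edges.
-/

set_option autoImplicit false

namespace Pool.MP_f18604_gt.BO

open Finset Module Pool.MP_f18604_gt.Gem Pool.MP_f18604_gt.KF

variable {α : Type} [Fintype α] [DecidableEq α]

/-! ### Complexes -/

/-- The simplices of `K` with `i` vertices, all of them in `A`. -/
def part (K : Finset (Finset α)) (A : Finset α) (i : ℕ) : Finset (Finset α) :=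
  K.filter (fun σ => σ.card = i ∧ σ ⊆ A)

/-- `A` contains exactly three vertices of every 4-dimensional simplex of `K`. -/
def Meets (K : Finset (Finset α)) (A : Finset α) : Prop :=
  ∀ F ∈ K, F.card = 5 → (F ∩ A).card = 3

/-- `κ` is a colouring of the vertices with five colours in which the vertices of every
4-dimensional simplex have different colours. -/
def Rainbow (K : Finset (Finset α)) (κ : α → Fin 5) : Prop :=
  ∀ F ∈ K, F.card = 5 → ∀ a ∈ F, ∀ b ∈ F, κ a = κ b → a = b

/-- The first cohomology of `K` with coefficients in `Z/2` vanishes: every function on the edges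
with sum zero on every triangle is the coboundary of a function on the vertices. -/
def Acyc (K : Finset (Finset α)) : Prop :=
  ∀ φ : Finset α → ZMod 2, (∀ t ∈ K, t.card = 3 → ∑ ε ∈ t.powersetCard 2, φ ε = 0) →
    ∃ ψ : α → ZMod 2, ∀ ε ∈ K, ε.card = 2 → φ ε = ∑ v ∈ ε, ψ v

/-- The link of `v`. -/
def link (K : Finset (Finset α)) (v : α) : Finset (Finset α) :=
  univ.filter (fun σ => σ.Nonempty ∧ v ∉ σ ∧ insert v σ ∈ K)

/-- The links of the edges of `K` are 2-spheres (connected closed surfaces with Euler
characteristic 2) and the links of the vertices have vanishing first cohomology with coefficients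
in `Z/2`. Every triangulation of a closed 4-manifold has these properties. -/
structure SphereLinks (K : Finset (Finset α)) : Prop where
  conn : ∀ e ∈ K, e.card = 2 → ∀ F ∈ K, ∀ G ∈ K, F.card = 5 → G.card = 5 → e ⊆ F → e ⊆ G →
    Relation.ReflTransGen (fun A B => A ∈ K ∧ B ∈ K ∧ A.card = 5 ∧ B.card = 5 ∧
      e ⊆ A ∧ e ⊆ B ∧ (A ∩ B).card = 4) F G
  euler : EdgeLinksSpherical K
  vertex : ∀ v, Acyc (link K v)

/-! ### Percolation -/

/-- The edges (sets of cardinality two) which become known, starting with those in `S`, if an edge
of a triangle in `T` becomes known as soon as the two other edges are known. -/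
inductive Known (T S : Finset (Finset α)) : Finset α → Prop
  | base {ε : Finset α} (h : ε ∈ S) : Known T S ε
  | step {t ε : Finset α} (ht : t ∈ T) (hc : t.card = 3) (hε : ε ∈ t.powersetCard 2)
      (h : ∀ ε' ∈ t.powersetCard 2, ε' ≠ ε → Known T S ε') : Known T S ε

theorem Known.mono {T T' S S' : Finset (Finset α)} (hT : T ⊆ T') (hS : S ⊆ S') {ε : Finset α}
    (h : Known T S ε) : Known T' S' ε := by
  induction h with
  | base h => exact Known.base (hS h)
  | step ht hc hε _ ih => exact Known.step (hT ht) hc hε ih

theorem Known.trans {T S S' : Finset (Finset α)} (hS : ∀ ε ∈ S, Known T S' ε) {ε : Finset α}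
    (h : Known T S ε) : Known T S' ε := by
  induction h with
  | base h => exact hS _ h
  | step ht hc hε _ ih => exact Known.step ht hc hε ih

/-! ### Sets of triangles -/

/-- A set of triangles. -/
def Tri (Y : Finset (Finset α)) : Prop := ∀ t ∈ Y, t.card = 3

/-- The number of members of `Y` which contain `ε`. -/
def deg (Y : Finset (Finset α)) (ε : Finset α) : ℕ := (Y.filter (fun t => ε ⊆ t)).card

/-- The edges of the members of `Y`. -/
def edges (Y : Finset (Finset α)) : Finset (Finset α) := Y.biUnion (fun t => t.powersetCard 2)

/-- The vertices of the members of `Y`. -/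
def verts (Y : Finset (Finset α)) : Finset α := Y.biUnion id

/-- A cycle modulo 2. -/
def Cyc (C : Finset (Finset α)) : Prop := ∀ ε : Finset α, ε.card = 2 → Even (deg C ε)

/-- No nonempty subset is a cycle modulo 2. -/
def NoCyc (Y : Finset (Finset α)) : Prop := ∀ C ⊆ Y, Cyc C → C = ∅

/-- No collapse is possible: no edge lies in exactly one triangle. -/
def Stuck (Y : Finset (Finset α)) : Prop := ∀ ε : Finset α, ε.card = 2 → deg Y ε ≠ 1

/-- The excess: the sum of `deg Y ε - 2` over the edges `ε` of `Y`. -/
def Psi (Y : Finset (Finset α)) : ℤ := 3 * Y.card - 2 * (edges Y).card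

/-- `Y` can be reduced to the empty set by collapses (a triangle `t` with an edge `ε` which lies in
no other triangle is removed) and `k` other removals of triangles. -/
inductive Col : Finset (Finset α) → ℕ → Prop
  | nil : Col ∅ 0
  | coll {Y : Finset (Finset α)} {t ε : Finset α} {k : ℕ} (ht : t ∈ Y)
      (hε : ε ∈ t.powersetCard 2) (h1 : deg Y ε = 1) (h : Col (Y.erase t) k) : Col Y k
  | rem {Y : Finset (Finset α)} {t : Finset α} {k : ℕ} (ht : t ∈ Y) (h : Col (Y.erase t) k) :
      Col Y (k + 1)

/-! ### Cocycles -/

/-- The cocycles modulo 2: functions on the edges in `E` (extended by zero) with sum zero on the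
edges of every member of `T`. -/
def Coc (E T : Finset (Finset α)) : Submodule (ZMod 2) (Finset α → ZMod 2) where
  carrier := {φ | (∀ ε, ε ∉ E → φ ε = 0) ∧ ∀ t ∈ T, ∑ ε ∈ t.powersetCard 2, φ ε = 0}
  add_mem' := by
    intro x y hx hy
    refine ⟨fun ε h => by simp [hx.1 ε h, hy.1 ε h], fun t ht => ?_⟩
    have h1 := hx.2 t ht
    have h2 := hy.2 t ht
    simp only [Pi.add_apply, sum_add_distrib, h1, h2, add_zero]
  zero_mem' := ⟨fun _ _ => rfl, fun t _ => by simp⟩
  smul_mem' := by
    intro c x hx
    refine ⟨fun ε h => by simp [hx.1 ε h], fun t ht => ?_⟩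
    have h1 := hx.2 t ht
    simp only [Pi.smul_apply, smul_eq_mul, ← mul_sum, h1, mul_zero]

/-- The dimension of the space of cocycles. -/
noncomputable def dimCoc (E T : Finset (Finset α)) : ℕ := finrank (ZMod 2) (Coc E T)

end Pool.MP_f18604_gt.BO
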