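import Pool.Agent.Helper23.BO.Basic

/-!
# BO-11: the dimension of the space of cocycles of a set of triangles without cycles

The space `Coc E Y` is the kernel of the linear map `φ ↦ ((∑ ε ∈ t.powersetCard 2, φ ε)_{t ∈ Y}, (φ ε)_{ε ∉ E})`. It is surjective: a
linear form vanishing on the range is given by coefficients `c t` (`t ∈ Y`), `d ε` (`ε ∉ E`); the set `C` of the `t` with `c t ≠ 0` is a
cycle, so it is empty, and then also the `d ε` vanish.
-/

set_option autoImplicit false

namespace Pool.MP_f18604_gt.BO

open Finset Module Pool.MP_f18604_gt.Gem Pool.MP_f18604_gt.KF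

variable {α : Type} [Fintype α] [DecidableEq α]

omit [Fintype α] in
/-- The number of the nonzero terms of a sum in `ZMod 2`. -/
theorem even_card_of_sum_zero {ι : Type} [DecidableEq ι] (s : Finset ι) (c : ι → ZMod 2)
    (h : ∑ i ∈ s, c i = 0) : Even (s.filter (fun i => c i ≠ 0)).card := by
  have h1 : ∑ i ∈ s, c i = ∑ i ∈ s.filter (fun i => c i ≠ 0), c i := by
    rw [sum_filter]
    refine sum_congr rfl fun i _ => ?_
    by_cases h2 : c i = 0
    · simp [h2]
    · simp [h2]
  have h2 : ∑ i ∈ s.filter (fun i => c i ≠ 0), c i = ((s.filter (fun i => c i ≠ 0)).card : ZMod 2) := by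
    rw [card_eq_sum_ones, Nat.cast_sum]
    refine sum_congr rfl fun i hi => ?_
    have h3 := (mem_filter.1 hi).2
    have h4 : ∀ x : ZMod 2, x ≠ 0 → x = 1 := by decide
    rw [h4 _ h3]
    simp
  rw [h1, h2] at h
  have h5 := (ZMod.natCast_eq_zero_iff _ 2).1 h
  exact even_iff_two_dvd.2 h5

theorem dimCoc_noCyc {E Y : Finset (Finset α)} (hY : Tri Y) (hE : edges Y ⊆ E) (hc : NoCyc Y) :
    dimCoc E Y + Y.card = E.card := by
  classical
  let T : (Finset α → ZMod 2) →ₗ[ZMod 2] (Y → ZMod 2) :=
    { toFun := fun φ t => ∑ ε ∈ (t : Finset α).powersetCard 2, φ ε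
      map_add' := by
        intro x y
        funext t
        simp only [Pi.add_apply, sum_add_distrib]
      map_smul' := by
        intro c x
        funext t
        simp only [Pi.smul_apply, smul_eq_mul, mul_sum, RingHom.id_apply] }
  let R : (Finset α → ZMod 2) →ₗ[ZMod 2] ((Eᶜ : Finset (Finset α)) → ZMod 2) :=
    { toFun := fun φ ε => φ ε
      map_add' := by
        intro x y
        funext t
        rfl
      map_smul' := by
        intro c x
        funext t
        rfl }
  let L := T.prod R
  have hTa : ∀ φ t, T φ t = ∑ ε ∈ (t : Finset α).powersetCard 2, φ ε := fun _ _ => rfl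
  have hRa : ∀ φ ε, R φ ε = φ ε := fun _ _ => rfl
  have hker : Coc E Y = LinearMap.ker L := by
    ext φ
    rw [LinearMap.mem_ker]
    change ((∀ ε, ε ∉ E → φ ε = 0) ∧ ∀ t ∈ Y, ∑ ε ∈ t.powersetCard 2, φ ε = 0) ↔ (T φ, R φ) = 0
    rw [Prod.mk_eq_zero, funext_iff, funext_iff]
    constructor
    · rintro ⟨h1, h2⟩
      exact ⟨fun t => h2 t t.2, fun ε => h1 ε (mem_compl.1 ε.2)⟩
    · rintro ⟨h1, h2⟩
      exact ⟨fun ε h => h2 ⟨ε, mem_compl.2 h⟩, fun t ht => h1 ⟨t, ht⟩⟩
  have hsurj : LinearMap.range L = ⊤ := by
    by_contra hne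
    obtain ⟨g, hg0, hg⟩ := Submodule.exists_le_ker_of_lt_top _ (lt_top_iff_ne_top.2 hne)
    have hgL : ∀ φ, g (T φ, R φ) = 0 := fun φ => LinearMap.mem_ker.1 (hg ⟨φ, rfl⟩)
    -- the coefficients
    let c : Y → ZMod 2 := fun t => g (Pi.single t 1, 0)
    have hgc : ∀ a : Y → ZMod 2, g (a, 0) = ∑ t, a t * c t := by
      intro a
      have h1 : ((a, 0) : (Y → ZMod 2) × ((Eᶜ : Finset (Finset α)) → ZMod 2)) =
          ∑ t, a t • ((Pi.single t 1, 0) : (Y → ZMod 2) × ((Eᶜ : Finset (Finset α)) → ZMod 2)) := by
        ext i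
        · rw [Prod.fst_sum, Finset.sum_apply]
          simp [Pi.single_apply]
        · rw [Prod.snd_sum, Finset.sum_apply]
          simp
      rw [h1, map_sum]
      refine sum_congr rfl fun t _ => ?_
      rw [map_smul, smul_eq_mul]
    have hTs : ∀ ε : Finset α, ∀ t : Y, T (Pi.single ε 1) t = if ε ⊆ t ∧ ε.card = 2 then 1 else 0 := by
      intro ε t
      rw [hTa]
      simp only [Pi.single_apply, sum_ite_eq', mem_powersetCard]
    have hcyc : Cyc ((univ.filter (fun t : Y => c t ≠ 0)).map (Function.Embedding.subtype _)) := by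
      intro ε hε
      have hdeg : deg ((univ.filter (fun t : Y => c t ≠ 0)).map (Function.Embedding.subtype _)) ε =
          ((univ : Finset Y).filter (fun t : Y => (if ε ⊆ (t : Finset α) then c t else 0) ≠ 0)).card := by
        unfold deg
        rw [filter_map, card_map, filter_filter]
        congr 1
        ext t
        rw [mem_filter, mem_filter]
        constructor
        · rintro ⟨_, h1, h2⟩
          have h2' : ε ⊆ (t : Finset α) := h2
          refine ⟨mem_univ _, ?_⟩
          rw [if_pos h2']
          exact h1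
        · rintro ⟨_, h⟩
          by_cases h2 : ε ⊆ (t : Finset α)
          · rw [if_pos h2] at h
            exact ⟨mem_univ _, h, h2⟩
          · rw [if_neg h2] at h
            exact absurd rfl h
      by_cases hεE : ε ∈ E
      · rw [hdeg]
        apply even_card_of_sum_zero
        have h1 := hgL (Pi.single ε 1)
        have h2 : R (Pi.single ε 1) = 0 := by
          funext ε'
          rw [hRa]
          have h3 : (ε' : Finset α) ≠ ε := by
            intro h
            exact (mem_compl.1 ε'.2) (h ▸ hεE)
          simp [h3]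
        rw [h2, hgc] at h1
        refine Eq.trans ?_ h1
        refine sum_congr rfl fun t _ => ?_
        rw [hTs]
        by_cases h4 : ε ⊆ (t : Finset α)
        · simp [h4, hε]
        · simp [h4]
      · have h1 : deg ((univ.filter (fun t : Y => c t ≠ 0)).map
            (Function.Embedding.subtype _)) ε = 0 := by
          refine (deg_eq_zero_iff hε).2 fun h => hεE (hE ?_)
          refine edges_mono ?_ h
          intro t ht
          rw [mem_map] at ht
          obtain ⟨t', _, rfl⟩ := ht
          exact t'.2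
        rw [h1]
        exact Even.zero
    have hempty := hc _ (by
      intro t ht
      rw [mem_map] at ht
      obtain ⟨t', _, rfl⟩ := ht
      exact t'.2) hcyc
    have hc0 : ∀ t : Y, c t = 0 := by
      intro t
      by_contra h
      have h1 : (t : Finset α) ∈ (univ.filter (fun t : Y => c t ≠ 0)).map
          (Function.Embedding.subtype _) :=
        mem_map.2 ⟨t, mem_filter.2 ⟨mem_univ _, h⟩, rfl⟩
      rw [hempty] at h1
      exact absurd h1 (notMem_empty _)
    have hg1 : ∀ a : Y → ZMod 2, g (a, 0) = 0 := by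
      intro a
      rw [hgc]
      exact sum_eq_zero fun t _ => by rw [hc0, mul_zero]
    have hg2 : ∀ b : (Eᶜ : Finset (Finset α)) → ZMod 2, g (0, b) = 0 := by
      intro b
      let φ : Finset α → ZMod 2 := fun ε => if h : ε ∈ (Eᶜ : Finset (Finset α)) then b ⟨ε, h⟩ else 0
      have h1 := hgL φ
      have h2 : R φ = b := by
        funext ε
        rw [hRa]
        change (if h : (ε : Finset α) ∈ (Eᶜ : Finset (Finset α)) then b ⟨ε, h⟩ else 0) = b ε
        rw [dif_pos ε.2]
      rw [h2] at h1
      have h3 : ((T φ, b) : (Y → ZMod 2) × ((Eᶜ : Finset (Finset α)) → ZMod 2)) =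
          (T φ, 0) + (0, b) := by simp
      rw [h3, map_add, hg1, zero_add] at h1
      exact h1
    apply hg0
    refine LinearMap.ext fun x => ?_
    obtain ⟨a, b⟩ := x
    have h3 : ((a, b) : (Y → ZMod 2) × ((Eᶜ : Finset (Finset α)) → ZMod 2)) =
        (a, 0) + (0, b) := by simp
    rw [h3, map_add, hg1, hg2]
    simp
  have hrk := LinearMap.finrank_range_add_finrank_ker L
  rw [hsurj, finrank_top, ← hker, Module.finrank_prod, Module.finrank_fintype_fun_eq_card,
    Module.finrank_fintype_fun_eq_card, Module.finrank_fintype_fun_eq_card, Fintype.card_coe,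
    Fintype.card_coe] at hrk
  have h1 : E.card + (Eᶜ : Finset (Finset α)).card = Fintype.card (Finset α) :=
    card_add_card_compl E
  unfold dimCoc
  omega

end Pool.MP_f18604_gt.BO
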