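import Pool.Agent.Helper23.BO.Basic

/-!
# BO-12: a maximal set of triangles without cycles

Let `Y ⊆ X` be without cycles, of maximal cardinality (`∅` has no cycles; `Finset.exists_max_image` on the filtered powerset, or
`Finset.exists_maximal`). `Coc E X ≤ Coc E Y` is clear. Conversely let `φ ∈ Coc E Y` and `t ∈ X`, `t ∉ Y`. By
maximality `insert t Y` contains a nonempty cycle `C`, and `t ∈ C` since `Y` has none. Then
`∑_{s ∈ C} ∑_{ε ∈ s.powersetCard 2} φ ε = ∑_{ε, |ε| = 2} (deg C ε) φ ε = 0` (`sum_comm`; even degrees, characteristic 2), and the terms with `s ∈ C`,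
`s ≠ t` vanish (`s ∈ Y`), so the sum for `t` is zero.
-/

set_option autoImplicit false

namespace Pool.MP_f18604_gt.BO

open Finset Module Pool.MP_f18604_gt.Gem Pool.MP_f18604_gt.KF

variable {α : Type} [Fintype α] [DecidableEq α]

private theorem sum_cyc {C : Finset (Finset α)} (hC : Cyc C) (φ : Finset α → ZMod 2) :
    ∑ s ∈ C, ∑ ε ∈ s.powersetCard 2, φ ε = 0 := by
  have h1 : ∀ s ∈ C, ∑ ε ∈ s.powersetCard 2, φ ε
      = ∑ ε ∈ (univ : Finset (Finset α)).filter (fun ε => ε.card = 2),
          if ε ⊆ s then φ ε else 0 := by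
    intro s _
    rw [← sum_filter]
    refine sum_congr ?_ fun _ _ => rfl
    ext ε
    simp only [mem_powersetCard, mem_filter, mem_univ, true_and]
    exact ⟨fun h => ⟨h.2, h.1⟩, fun h => ⟨h.2, h.1⟩⟩
  rw [sum_congr rfl h1, sum_comm]
  refine sum_eq_zero fun ε hε => ?_
  have h2 : ε.card = 2 := (mem_filter.1 hε).2
  rw [← sum_filter, sum_const]
  have h3 := hC ε h2
  unfold deg at h3
  obtain ⟨k, hk⟩ := h3
  rw [hk, ← two_mul, nsmul_eq_mul]
  push_cast
  have h4 : (2 : ZMod 2) = 0 := by decide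
  rw [h4, zero_mul, zero_mul]

theorem exists_basis {X : Finset (Finset α)} (hX : Tri X) (E : Finset (Finset α)) :
    ∃ Y ⊆ X, NoCyc Y ∧ Coc E Y = Coc E X := by
  classical
  obtain ⟨Y, hY, hmax⟩ := exists_max_image (X.powerset.filter (fun Y => NoCyc Y)) card
    ⟨∅, by
      rw [mem_filter, mem_powerset]
      exact ⟨empty_subset _, fun C hC _ => subset_empty.1 hC⟩⟩
  rw [mem_filter, mem_powerset] at hY
  refine ⟨Y, hY.1, hY.2, le_antisymm ?_ ?_⟩
  · intro φ hφ
    refine ⟨hφ.1, fun t ht => ?_⟩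
    by_cases hty : t ∈ Y
    · exact hφ.2 t hty
    have h1 : ¬ NoCyc (insert t Y) := by
      intro h
      have h2 := hmax (insert t Y) (by
        rw [mem_filter, mem_powerset]
        exact ⟨insert_subset ht hY.1, h⟩)
      rw [card_insert_of_notMem hty] at h2
      omega
    unfold NoCyc at h1
    push Not at h1
    obtain ⟨C, hC, hcyc, hne⟩ := h1
    have htC : t ∈ C := by
      by_contra h
      refine hne.ne_empty (hY.2 C ?_ hcyc)
      intro s hs
      rcases mem_insert.1 (hC hs) with h3 | h3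
      · exact absurd (h3 ▸ hs) h
      · exact h3
    have h4 := sum_cyc hcyc φ
    rw [← sum_erase_add _ _ htC] at h4
    rw [sum_eq_zero, zero_add] at h4
    · exact h4
    · intro s hs
      obtain ⟨h5, h6⟩ := mem_erase.1 hs
      rcases mem_insert.1 (hC h6) with h7 | h7
      · exact absurd h7 h5
      · exact hφ.2 s h7
  · intro φ hφ
    exact ⟨hφ.1, fun t ht => hφ.2 t (hY.1 ht)⟩

end Pool.MP_f18604_gt.BO
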