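import Pool.Agent.Helper23.BO.Basic

/-!
# BO-03: graphs with even degrees

`three_le_of_even`: take `{a, b} ∈ O`. The number of members containing `a` is even and positive, so there is
another `{a, c} ∈ O`, `c ≠ b`; in the same way another `{b, d} ∈ O`, `d ≠ a`. They are three different sets:
`{a, c} ≠ {b, d}` since `b ∉ {a, c}`.

`odd_edges_even`: let `v` be a vertex. `∑ deg Q ε` over the edges `ε ∋ v` of `Q` is, by double counting (`sum_deg_eq` with
`E = (edges Q).filter (v ∈ ·)`), the sum over `t ∈ Q` of the number of edges `ε ⊆ t` with `v ∈ ε`, which is `2` if `v ∈ t` and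
`0` otherwise; so it is even, and the number of odd terms of an even sum is even (`Finset.even_sum_iff_even_card_odd`
or `Finset.odd_sum_iff_odd_card_odd`).
-/

set_option autoImplicit false

namespace Pool.MP_f18604_gt.BO

open Finset Module Pool.MP_f18604_gt.Gem Pool.MP_f18604_gt.KF

variable {α : Type} [Fintype α] [DecidableEq α]

theorem three_le_of_even {O : Finset (Finset α)} (hO : ∀ ε ∈ O, ε.card = 2)
    (hev : ∀ v, Even (O.filter (fun ε => v ∈ ε)).card) (hne : O.Nonempty) : 3 ≤ O.card := by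
  obtain ⟨ε, hε⟩ := hne
  obtain ⟨a, b, hab, rfl⟩ := Finset.card_eq_two.1 (hO ε hε)
  -- another member containing a given vertex of a member
  have key : ∀ (v : α) (η : Finset α), η ∈ O → v ∈ η → ∃ η' ∈ O, v ∈ η' ∧ η' ≠ η := by
    intro v η hη hv
    have h1 : η ∈ O.filter (fun ε => v ∈ ε) := mem_filter.2 ⟨hη, hv⟩
    have h2 : 1 < (O.filter (fun ε => v ∈ ε)).card := by
      have h3 : 0 < (O.filter (fun ε => v ∈ ε)).card := card_pos.2 ⟨η, h1⟩
      obtain ⟨k, hk⟩ := hev v
      omega
    obtain ⟨η', h4, h5⟩ := Finset.exists_mem_ne h2 η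
    exact ⟨η', (mem_filter.1 h4).1, (mem_filter.1 h4).2, h5⟩
  obtain ⟨ε₁, h1, ha1, hne1⟩ := key a {a, b} hε (by simp)
  obtain ⟨ε₂, h2, hb2, hne2⟩ := key b {a, b} hε (by simp)
  have h12 : ε₁ ≠ ε₂ := by
    intro h
    subst h
    apply hne1
    have h3 : ({a, b} : Finset α) ⊆ ε₁ := by
      intro x hx
      rw [mem_insert, mem_singleton] at hx
      rcases hx with rfl | rfl
      · exact ha1
      · exact hb2
    refine (Finset.eq_of_subset_of_card_le h3 ?_).symm
    rw [hO _ h1, Finset.card_pair hab]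
  have h4 : ({{a, b}, ε₁, ε₂} : Finset (Finset α)) ⊆ O := by
    intro x hx
    simp only [mem_insert, mem_singleton] at hx
    rcases hx with rfl | rfl | rfl
    · exact hε
    · exact h1
    · exact h2
  have h5 : ({{a, b}, ε₁, ε₂} : Finset (Finset α)).card = 3 := by
    rw [Finset.card_eq_three]
    exact ⟨_, _, _, hne1.symm, hne2.symm, h12, rfl⟩
  rw [← h5]
  exact card_le_card h4

theorem odd_edges_even {Q : Finset (Finset α)} (hQ : Tri Q) (v : α) :
    Even (((edges Q).filter (fun ε => Odd (deg Q ε))).filter (fun ε => v ∈ ε)).card := by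
  classical
  have h1 : ((edges Q).filter (fun ε => Odd (deg Q ε))).filter (fun ε => v ∈ ε)
      = ((edges Q).filter (fun ε => v ∈ ε)).filter (fun ε => Odd (deg Q ε)) := by
    rw [Finset.filter_comm]
  rw [h1, ← Finset.even_sum_iff_even_card_odd]
  rw [sum_deg_eq]
  apply Finset.even_sum
  intro t ht
  have htc := hQ t ht
  have h2 : ((edges Q).filter (fun ε => v ∈ ε)).filter (fun ε => ε ⊆ t)
      = (t.powersetCard 2).filter (fun ε => v ∈ ε) := by
    ext ε
    simp only [mem_filter, mem_powersetCard, mem_edges]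
    constructor
    · rintro ⟨⟨⟨_, _, _, h4⟩, h5⟩, h6⟩
      exact ⟨⟨h6, h4⟩, h5⟩
    · rintro ⟨⟨h6, h4⟩, h5⟩
      exact ⟨⟨⟨t, ht, h6, h4⟩, h5⟩, h6⟩
  rw [h2]
  by_cases hv : v ∈ t
  · have h3 : (t.powersetCard 2).filter (fun ε => v ∈ ε)
        = ((t.erase v).powersetCard 1).image (insert v) := by
      ext ε
      simp only [mem_filter, mem_powersetCard, mem_image]
      constructor
      · rintro ⟨⟨h4, h5⟩, h6⟩
        refine ⟨ε.erase v, ⟨Finset.erase_subset_erase v h4, ?_⟩, Finset.insert_erase h6⟩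
        rw [Finset.card_erase_of_mem h6, h5]
      · rintro ⟨η, ⟨h4, h5⟩, rfl⟩
        have h6 : v ∉ η := fun h => Finset.notMem_erase v t (h4 h)
        refine ⟨⟨?_, ?_⟩, mem_insert_self _ _⟩
        · exact Finset.insert_subset hv (h4.trans (Finset.erase_subset _ _))
        · rw [Finset.card_insert_of_notMem h6, h5]
    rw [h3, Finset.card_image_of_injOn, Finset.card_powersetCard, Finset.card_erase_of_mem hv, htc]
    · exact ⟨1, rfl⟩
    · intro η hη η' hη' heq
      have hη1 : v ∉ η := fun h => Finset.notMem_erase v t ((mem_powersetCard.1 hη).1 h)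
      have hη2 : v ∉ η' := fun h => Finset.notMem_erase v t ((mem_powersetCard.1 hη').1 h)
      have h7 := congrArg (fun x => Finset.erase x v) heq
      simpa [Finset.erase_insert hη1, Finset.erase_insert hη2] using h7
  · have h3 : (t.powersetCard 2).filter (fun ε => v ∈ ε) = ∅ := by
      rw [Finset.filter_eq_empty_iff]
      intro ε hε hvε
      exact hv ((mem_powersetCard.1 hε).1 hvε)
    rw [h3, Finset.card_empty]
    exact ⟨0, rfl⟩

/-- If some edge lies in an odd number of triangles then at least three do. -/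
theorem three_le_odd {Q : Finset (Finset α)} (hQ : Tri Q) {ε₀ : Finset α} (hc : ε₀.card = 2)
    (h0 : Odd (deg Q ε₀)) : 3 ≤ ((edges Q).filter (fun ε => Odd (deg Q ε))).card := by
  refine three_le_of_even (fun ε hε => card_of_mem_edges (mem_filter.1 hε).1)
    (fun v => odd_edges_even hQ v) ⟨ε₀, mem_filter.2 ⟨(deg_pos_iff hc).1 h0.pos, h0⟩⟩

end Pool.MP_f18604_gt.BO
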