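import Pool.Agent.Helper23.BO.Defs

/-!
# BO-07: a rooted tree in the component of a vertex

Let `r` be a relation on `β` and `ρ ∈ Σ`. There are a set `Q ⊆ Σ` containing `ρ` and closed under
`r` inside `Σ`, a parent function `p` and a distance function `d`. Proof: let `Q` be the set of the
`s ∈ Σ` which are reached from `ρ` by a chain inside `Σ` of steps `r`; for `s ∈ Q` let `d s` be the smallest number of steps
(define `Reach n s` recursively: `Reach 0 s` iff `s = ρ`; `Reach (n + 1) s` iff there is `s' ∈ Σ` with `Reach n s'` and `r s' s`, `s ∈ Σ`;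
`Nat.find`); for `s ≠ ρ` the last step of a shortest chain gives `p s ∈ Q` with `r (p s) s` and `d (p s) < d s`.
-/

set_option autoImplicit false

namespace Pool.MP_f18604_gt.BO

open Finset

private def Reach {β : Type} (X : Finset β) (r : β → β → Prop) (ρ : β) : ℕ → β → Prop
  | 0, s => s = ρ
  | n + 1, s => s ∈ X ∧ ∃ s' ∈ X, Reach X r ρ n s' ∧ r s' s

theorem exists_tree {β : Type} [DecidableEq β] (X : Finset β) (r : β → β → Prop) {ρ : β}
    (hρ : ρ ∈ X) : ∃ (Q : Finset β) (p : β → β) (d : β → ℕ), ρ ∈ Q ∧ Q ⊆ X ∧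
      (∀ s ∈ Q, ∀ s' ∈ X, r s s' → s' ∈ Q) ∧
      (∀ s ∈ Q, s ≠ ρ → p s ∈ Q ∧ r (p s) s ∧ d (p s) < d s) := by
  classical
  set d : β → ℕ := fun s => if h : ∃ n, Reach X r ρ n s then Nat.find h else 0 with hd
  have hd1 : ∀ s, (∃ n, Reach X r ρ n s) → Reach X r ρ (d s) s := by
    intro s h
    simp only [hd]
    rw [dif_pos h]
    exact Nat.find_spec h
  have hd2 : ∀ s n, Reach X r ρ n s → d s ≤ n := by
    intro s n h
    simp only [hd]
    rw [dif_pos ⟨n, h⟩]
    exact Nat.find_min' _ h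
  have hp : ∀ s, ∃ s', s ∈ X.filter (fun s => ∃ n, Reach X r ρ n s) → s ≠ ρ →
      s' ∈ X.filter (fun s => ∃ n, Reach X r ρ n s) ∧ r s' s ∧ d s' < d s := by
    intro s
    by_cases hs : s ∈ X.filter (fun s => ∃ n, Reach X r ρ n s) ∧ s ≠ ρ
    · obtain ⟨h1, h2⟩ := hs
      rw [mem_filter] at h1
      have h3 := hd1 s h1.2
      rcases h4 : d s with _ | n
      · rw [h4] at h3
        exact absurd h3 h2
      · rw [h4] at h3
        obtain ⟨_, s', h5, h6, h7⟩ := h3
        refine ⟨s', fun _ _ => ⟨mem_filter.2 ⟨h5, n, h6⟩, h7, ?_⟩⟩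
        have := hd2 s' n h6
        omega
    · exact ⟨s, fun h1 h2 => absurd ⟨h1, h2⟩ hs⟩
  choose p hp using hp
  refine ⟨X.filter (fun s => ∃ n, Reach X r ρ n s), p, d, mem_filter.2 ⟨hρ, 0, rfl⟩,
    filter_subset _ _, ?_, fun s hs hne => hp s hs hne⟩
  intro s hs s' hs' hr
  rw [mem_filter] at hs ⊢
  obtain ⟨h1, n, h2⟩ := hs
  exact ⟨hs', n + 1, hs', s, h1, h2, hr⟩

end Pool.MP_f18604_gt.BO
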