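import Pool.Agent.Helper23.BO.Even
import Pool.Agent.Helper23.BO.Tree

/-!
# BO-08: percolation in a piece of a surface

`Y` is a set of triangles in which every edge lies in exactly two members, `G` a set of edges such that no member of `Y` has exactly
two edges in `G`, and `t₀ ∈ Y` has an edge not in `G`.

Let `r s s'` mean `s ≠ s'`, `(s ∩ s').card = 2` and `s ∩ s' ∉ G`; take `Q, p, d` from `exists_tree Y r` with root `t₀`. Let
`U = (edges Q) \ G`.
(1) Every `ε ∈ U` lies in exactly two members of `Q`: it lies in `s ∈ Q` and in another `s' ∈ Y` (`h2`), `s ∩ s' = ε`, so `r s s'` and `s' ∈ Q`.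
So `deg Q ε = deg Y ε = 2`.
(2) For `s ∈ Q`, `s ≠ t₀`, let `f s = s ∩ p s ∈ U`. `f` is injective on `Q.erase t₀`: if `f s = f s' = ε` then `s, p s` and `s', p s'` are both the two
members of `Y` containing `ε`; if `s ≠ s'` then `s = p s'`, `s' = p s`, contradicting `d`. Let `T = (Q.erase t₀).image f`, `|T| = |Q| - 1`, `T ⊆ U`, and
`S = U \ T`, so `|S| + |Q| = |U| + 1`.
(3) All `ε ∈ U` are known from `G ∪ S`: clear for `ε ∈ S`; for `ε = f s` by strong induction on `M - d s` (`M` a bound for `d` on `Q`), i.e. on decreasing `d s`: `ε` is an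
edge of the triangle `s`, whose other edges `ε'` are in `G`, or in `S`, or `ε' = f s'` for some `s' ∈ Q.erase t₀`; in the last case `s` is one of the
two triangles `s'`, `p s'` containing `ε'`, not `s'` (`f s' = ε' ≠ ε = f s`), so `s = p s'` and `d s' > d s`.
(4) `3 |Q| = ∑_{ε ∈ edges Q} deg Q ε = 2 |U| + b`, `b` the sum over `edges Q ∩ G` (`sum_deg`). So
`3 |S| = 3 |U| + 3 - 3 |Q| = |U| + 3 - b ≤ |U| + 3`.
(5) If `t ∈ Y` has all its edges in `G` and `(t ∩ t₀).card = 2` then `t ∉ Q` (`t ≠ t₀`, and `r (p t) t` is impossible: `p t ∩ t` is an edge of `t`). Let `ε₀ = t ∩ t₀ ∈ G`; its two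
triangles in `Y` are `t` and `t₀`, so `deg Q ε₀ = 1` is odd. By `three_le_odd` at least three edges `ε` of `Q` have `deg Q ε` odd; they are not in `U` by (1), so
they are in `G`, and `b ≥ 3`.
-/

set_option autoImplicit false

namespace Pool.MP_f18604_gt.BO

open Finset Module Pool.MP_f18604_gt.Gem Pool.MP_f18604_gt.KF

variable {α : Type} [Fintype α] [DecidableEq α]

omit [Fintype α] in
theorem ss_inter_eq {s s' ε : Finset α} (hs : s.card = 3) (hs' : s'.card = 3) (hne : s ≠ s')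
    (h1 : ε ⊆ s) (h2 : ε ⊆ s') (hc : ε.card = 2) : s ∩ s' = ε := by
  symm
  refine eq_of_subset_of_card_le (subset_inter h1 h2) ?_
  by_contra hlt
  have h3 : s.card ≤ (s ∩ s').card := by omega
  have h4 : s ∩ s' = s := eq_of_subset_of_card_le inter_subset_left h3
  have h5 : s ⊆ s' := by
    rw [← h4]
    exact inter_subset_right
  exact hne (eq_of_subset_of_card_le h5 (by omega))

omit [Fintype α] in
theorem ss_three {Y : Finset (Finset α)} {ε a b c : Finset α} (h : deg Y ε = 2) (ha : a ∈ Y)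
    (hb : b ∈ Y) (hc : c ∈ Y) (ha' : ε ⊆ a) (hb' : ε ⊆ b) (hc' : ε ⊆ c) (hab : a ≠ b)
    (hac : a ≠ c) : b = c := by
  by_contra hbc
  have h1 : ({a, b, c} : Finset (Finset α)) ⊆ Y.filter (fun t => ε ⊆ t) := by
    intro x hx
    simp only [mem_insert, mem_singleton] at hx
    rcases hx with rfl | rfl | rfl
    · exact mem_filter.2 ⟨ha, ha'⟩
    · exact mem_filter.2 ⟨hb, hb'⟩
    · exact mem_filter.2 ⟨hc, hc'⟩
  have h2 := card_le_card h1
  rw [card_eq_three.2 ⟨a, b, c, hab, hac, hbc, rfl⟩] at h2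
  unfold deg at h
  omega

theorem surf_step {Y G : Finset (Finset α)} (hY : Tri Y) (h2 : ∀ ε ∈ edges Y, deg Y ε = 2)
    (hcl : ∀ t ∈ Y, ∀ ε ∈ t.powersetCard 2, (∀ ε' ∈ t.powersetCard 2, ε' ≠ ε → ε' ∈ G) → ε ∈ G)
    {t₀ : Finset α} (ht₀ : t₀ ∈ Y) (hn : ¬ t₀.powersetCard 2 ⊆ G) :
    ∃ U S : Finset (Finset α), U ⊆ edges Y ∧ Disjoint U G ∧ t₀.powersetCard 2 ⊆ U ∪ G ∧ S ⊆ U ∧
      (∀ ε ∈ U, Known Y (G ∪ S) ε) ∧ 3 * S.card ≤ U.card + 3 ∧
      ((∃ t ∈ Y, t.powersetCard 2 ⊆ G ∧ (t ∩ t₀).card = 2) → 3 * S.card ≤ U.card) := by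
  obtain ⟨Q, p, d, hQ0, hQY, hQc, hQp⟩ := exists_tree Y
    (fun s s' : Finset α => s ≠ s' ∧ (s ∩ s').card = 2 ∧ s ∩ s' ∉ G) ht₀
  have hQT : Tri Q := hY.mono hQY
  set U : Finset (Finset α) := (edges Q) \ G with hU
  set f : Finset α → Finset α := fun s => s ∩ p s with hf
  have hUe : ∀ ε ∈ U, ε ∈ edges Y := fun ε hε => edges_mono hQY (mem_sdiff.1 hε).1
  have hUc : ∀ ε ∈ U, ε.card = 2 := fun ε hε => card_of_mem_edges (hUe ε hε)
  have hU2 : ∀ ε ∈ U, deg Q ε = 2 := by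
    intro ε hε
    rw [← h2 ε (hUe ε hε)]
    unfold deg
    congr 1
    ext t
    rw [mem_filter, mem_filter]
    refine ⟨fun h => ⟨hQY h.1, h.2⟩, fun h => ⟨?_, h.2⟩⟩
    obtain ⟨s, hs, h3, h4⟩ := mem_edges.1 (mem_sdiff.1 hε).1
    by_cases hst : s = t
    · rw [← hst]
      exact hs
    · have h5 := ss_inter_eq (hQT s hs) (hY t h.1) hst h3 h.2 h4
      exact hQc s hs t h.1 ⟨hst, by rw [h5]; exact h4, by rw [h5]; exact (mem_sdiff.1 hε).2⟩
  have hp1 : ∀ s ∈ Q.erase t₀, s ∈ Q ∧ p s ∈ Q ∧ p s ≠ s ∧ (f s).card = 2 ∧ f s ∉ G ∧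
      d (p s) < d s := by
    intro s hs
    obtain ⟨h3, h4⟩ := mem_erase.1 hs
    obtain ⟨h5, ⟨h6, h7, h8⟩, h9⟩ := hQp s h4 h3
    refine ⟨h4, h5, h6, ?_, ?_, h9⟩
    · rw [hf]
      simp only
      rw [inter_comm]
      exact h7
    · rw [hf]
      simp only
      rw [inter_comm]
      exact h8
  have hfs : ∀ s, f s ⊆ s := fun s => inter_subset_left
  have hfp : ∀ s, f s ⊆ p s := fun s => inter_subset_right
  have hfU : ∀ s ∈ Q.erase t₀, f s ∈ U := by
    intro s hs
    obtain ⟨h3, h4, h5, h6, h7, h8⟩ := hp1 s hs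
    exact mem_sdiff.2 ⟨mem_edges.2 ⟨s, h3, hfs s, h6⟩, h7⟩
  have hinj : Set.InjOn f (Q.erase t₀ : Finset (Finset α)) := by
    intro s hs s' hs' he
    rw [mem_coe] at hs hs'
    obtain ⟨h3, h4, h5, h6, h7, h8⟩ := hp1 s hs
    obtain ⟨k3, k4, k5, k6, k7, k8⟩ := hp1 s' hs'
    by_contra hne
    have hdg := h2 _ (hUe _ (hfU s hs))
    have e1 : p s = s' := ss_three hdg (hQY h3) (hQY h4) (hQY k3) (hfs s) (hfp s)
      (by rw [he]; exact hfs s') h5.symm hne
    have e2 : p s' = s := by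
      rw [he] at hdg
      exact ss_three hdg (hQY k3) (hQY k4) (hQY h3) (hfs s') (hfp s')
        (by rw [← he]; exact hfs s) k5.symm (Ne.symm hne)
    rw [e1] at h8
    rw [e2] at k8
    omega
  set T : Finset (Finset α) := (Q.erase t₀).image f with hT
  have hTc : T.card + 1 = Q.card := by
    rw [hT, card_image_of_injOn hinj, card_erase_of_mem hQ0]
    have := card_pos.2 ⟨t₀, hQ0⟩
    omega
  have hTU : T ⊆ U := by
    intro ε hε
    obtain ⟨s, hs, rfl⟩ := mem_image.1 hε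
    exact hfU s hs
  have hSc : (U \ T).card + T.card = U.card := by
    rw [card_sdiff_of_subset hTU]
    have := card_le_card hTU
    omega
  have hsum := sum_deg hQT
  have hsplit : ∑ ε ∈ edges Q, deg Q ε = 2 * U.card + ∑ ε ∈ edges Q ∩ G, deg Q ε := by
    have h3 : edges Q = U ∪ (edges Q ∩ G) := by
      rw [hU, sdiff_union_inter]
    have h4 : Disjoint U (edges Q ∩ G) := disjoint_sdiff_inter _ _
    have h5 : ∑ ε ∈ edges Q, deg Q ε = ∑ ε ∈ U ∪ (edges Q ∩ G), deg Q ε := by rw [← h3]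
    rw [h5, sum_union h4, sum_congr rfl hU2, sum_const, smul_eq_mul, mul_comm]
  refine ⟨U, U \ T, fun ε hε => hUe ε hε, ?_, ?_, sdiff_subset, ?_, by omega, ?_⟩
  · rw [hU]
    exact sdiff_disjoint
  · intro ε hε
    obtain ⟨h3, h4⟩ := mem_powersetCard.1 hε
    by_cases hG : ε ∈ G
    · exact mem_union_right _ hG
    · exact mem_union_left _ (mem_sdiff.2 ⟨mem_edges.2 ⟨t₀, hQ0, h3, h4⟩, hG⟩)
  · have key : ∀ n, ∀ s ∈ Q.erase t₀, Q.sup d - d s = n →
        Known Y (G ∪ (U \ T)) (f s) := by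
      intro n
      induction n using Nat.strong_induction_on with
      | _ n ih =>
        intro s hs hn'
        obtain ⟨h3, h4, h5, h6, h7, h8⟩ := hp1 s hs
        refine Known.step (hQY h3) (hQT s h3) (mem_powersetCard.2 ⟨hfs s, h6⟩) ?_
        intro ε' hε' hne
        obtain ⟨k1, k2⟩ := mem_powersetCard.1 hε'
        by_cases hG : ε' ∈ G
        · exact Known.base (mem_union_left _ hG)
        · have hU' : ε' ∈ U := mem_sdiff.2 ⟨mem_edges.2 ⟨s, h3, k1, k2⟩, hG⟩
          by_cases hTm : ε' ∈ T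
          · obtain ⟨s', hs', rfl⟩ := mem_image.1 hTm
            obtain ⟨m3, m4, m5, m6, m7, m8⟩ := hp1 s' hs'
            have hss : s' ≠ s := by
              rintro rfl
              exact hne rfl
            have e1 : p s' = s := ss_three (h2 _ (hUe _ hU')) (hQY m3) (hQY m4) (hQY h3)
              (hfs s') (hfp s') k1 m5.symm hss
            rw [e1] at m8
            have m9 : d s' ≤ Q.sup d := le_sup m3
            exact ih (Q.sup d - d s') (by omega) s' hs' rfl
          · exact Known.base (mem_union_right _ (mem_sdiff.2 ⟨hU', hTm⟩))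
    intro ε hε
    by_cases hTm : ε ∈ T
    · obtain ⟨s', hs', rfl⟩ := mem_image.1 hTm
      exact key _ s' hs' rfl
    · exact Known.base (mem_union_right _ (mem_sdiff.2 ⟨hε, hTm⟩))
  · rintro ⟨t, ht, htG, htc⟩
    have hne : t ≠ t₀ := by
      rintro rfl
      exact hn htG
    have htQ : t ∉ Q := by
      intro htQ
      obtain ⟨h3, h4, h5, h6, h7, h8⟩ := hp1 t (mem_erase.2 ⟨hne, htQ⟩)
      exact h7 (htG (mem_powersetCard.2 ⟨hfs t, h6⟩))
    have hε0 : t ∩ t₀ ∈ edges Y := mem_edges.2 ⟨t, ht, inter_subset_left, htc⟩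
    have hd1 : deg Q (t ∩ t₀) = 1 := by
      unfold deg
      rw [card_eq_one]
      refine ⟨t₀, ?_⟩
      ext x
      rw [mem_filter, mem_singleton]
      constructor
      · rintro ⟨h3, h4⟩
        refine (ss_three (h2 _ hε0) ht ht₀ (hQY h3) inter_subset_left inter_subset_right h4 hne
          ?_).symm
        rintro rfl
        exact htQ h3
      · rintro rfl
        exact ⟨hQ0, inter_subset_right⟩
    have h3 := three_le_odd hQT htc (by rw [hd1]; exact odd_one)
    have h4 : ((edges Q).filter (fun ε => Odd (deg Q ε))) ⊆ edges Q ∩ G := by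
      intro ε hε
      obtain ⟨h5, h6⟩ := mem_filter.1 hε
      refine mem_inter.2 ⟨h5, ?_⟩
      by_contra hG
      rw [hU2 ε (mem_sdiff.2 ⟨h5, hG⟩)] at h6
      exact absurd h6 (by decide)
    have h5 : 3 ≤ ∑ ε ∈ edges Q ∩ G, deg Q ε := by
      calc 3 ≤ ((edges Q).filter (fun ε => Odd (deg Q ε))).card := h3
        _ = ∑ ε ∈ (edges Q).filter (fun ε => Odd (deg Q ε)), 1 := by rw [card_eq_sum_ones]
        _ ≤ ∑ ε ∈ (edges Q).filter (fun ε => Odd (deg Q ε)), deg Q ε :=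
            sum_le_sum fun ε hε => (mem_filter.1 hε).2.pos
        _ ≤ ∑ ε ∈ edges Q ∩ G, deg Q ε :=
            sum_le_sum_of_subset_of_nonneg h4 fun _ _ _ => Nat.zero_le _
    omega

end Pool.MP_f18604_gt.BO
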