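import Pool.Agent.Helper23.BO.Chain
import Pool.Agent.Helper23.BO.SurfStep

/-!
# BO-09: percolation in `K[A]`

`ext_perc`: strong induction on the cardinality of `part K A 2 \ G`. If `G = part K A 2` take `S = ∅` (`Known.base`).
If some triangle `t ∈ part K A 3` has exactly two edges in `G` (there is an edge `ε ∉ G` of `t` with all other edges of `t` in `G`), apply the
induction hypothesis to `insert ε G`: the result `S` works, since `ε` is known from `G` (`Known.step`, `Known.base`, `Known.trans`), and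
`3 |S| + |G| + 1 ≤ |part K A 2|`.
Otherwise `G` is closed. Take `ε₁ ∈ part K A 2 \ G` and a 4-simplex `F₁ ⊇ ε₁`; `t ∈ part K A 3` with all edges in `G` lies in a
4-simplex `F₀`, `F₀ ∩ A = t`. In the chain (`facet_chain`) from `F₀` to `F₁` there are consecutive `F`, `F'` with all edges of `F ∩ A` in `G` and
not all edges of `F' ∩ A` in `G`. Then `F ∩ A ≠ F' ∩ A`; as `|F ∩ F'| = 4` and both meet `A` in three elements, `|F ∩ F' ∩ A| = 2` and `F \ A = F' \ A`. Apply `surf_step` to
`Y = {t ∈ part K A 3 : t ∪ (F' \ A) ∈ K}` (`surf_two`; `Y ⊆ part K A 3`), `t₀ = F' ∩ A`, `t = F ∩ A`: it gives `U`, `S₁` with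
`3 |S₁| ≤ |U|`, `U ≠ ∅` disjoint from `G`. The induction hypothesis for `G ∪ U` gives `S₂` with `3 |S₂| + |G| + |U| ≤ |part K A 2|`; take `S = S₁ ∪ S₂`
(`Known.mono`, `Known.trans`).

`ext_perc₀`: there is a 4-simplex `F'` (`hK.pure`, `hK.vertex`). Apply `surf_step` with `G = ∅` (closed, since every triangle has three edges) to the same `Y`, `t₀ = F' ∩ A`; `U` contains the three
edges of `t₀`. Then `ext_perc` with `G = U`; `S = S₁ ∪ S₂`, `3 |S| ≤ |U| + 3 + |part K A 2| - |U|`.
-/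

set_option autoImplicit false

namespace Pool.MP_f18604_gt.BO

open Finset Module Pool.MP_f18604_gt.Gem Pool.MP_f18604_gt.KF

variable {α : Type} [Fintype α] [DecidableEq α]

/-- Somewhere along a chain a property is lost. -/
theorem chain_switch {β : Type} {r : β → β → Prop} {P : β → Prop} {x y : β}
    (h : Relation.ReflTransGen r x y) (hx : P x) (hy : ¬ P y) : ∃ a b, r a b ∧ P a ∧ ¬ P b := by
  induction h with
  | refl => exact absurd hx hy
  | @tail b c _ hbc ih =>
    by_cases hb : P b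
    · exact ⟨b, c, hbc, hb, hy⟩
    · exact ih hb

theorem inter_mem_part {K : Finset (Finset α)} (hK : NormalPseudomanifold K) {A : Finset α}
    (hA : Meets K A) {F : Finset α} (hF : F ∈ K) (h5 : F.card = 5) : F ∩ A ∈ part K A 3 := by
  have h3 := hA F hF h5
  refine mem_part.2 ⟨hK.down F hF _ inter_subset_left ?_, h3, inter_subset_right⟩
  rw [← card_pos]; omega

theorem card_sdiff_A {K : Finset (Finset α)} {A : Finset α}
    (hA : Meets K A) {F : Finset α} (hF : F ∈ K) (h5 : F.card = 5) : (F \ A).card = 2 := by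
  have h3 := hA F hF h5
  have := card_sdiff_add_card_inter F A
  omega

theorem ext_step {K : Finset (Finset α)} (hK : NormalPseudomanifold K) {A : Finset α}
    (hA : Meets K A) {G : Finset (Finset α)}
    (hcl : ∀ t ∈ part K A 3, ∀ ε ∈ t.powersetCard 2,
      (∀ ε' ∈ t.powersetCard 2, ε' ≠ ε → ε' ∈ G) → ε ∈ G)
    {F' : Finset α} (hF' : F' ∈ K) (h5 : F'.card = 5) (hn : ¬ (F' ∩ A).powersetCard 2 ⊆ G) :
    ∃ U S : Finset (Finset α), U ⊆ part K A 2 ∧ Disjoint U G ∧
      (F' ∩ A).powersetCard 2 ⊆ U ∪ G ∧ S ⊆ U ∧ (∀ ε ∈ U, Known (part K A 3) (G ∪ S) ε) ∧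
      3 * S.card ≤ U.card + 3 ∧
      ((∃ F ∈ K, F.card = 5 ∧ (F ∩ A).powersetCard 2 ⊆ G ∧ (F ∩ F').card = 4) →
        3 * S.card ≤ U.card) := by
  set Y := (part K A 3).filter (fun t => t ∪ (F' \ A) ∈ K) with hYdef
  have hYp : Y ⊆ part K A 3 := filter_subset _ _
  have ht₀ : F' ∩ A ∈ Y := by
    rw [hYdef, mem_filter]
    refine ⟨inter_mem_part hK hA hF' h5, ?_⟩
    have : F' ∩ A ∪ F' \ A = F' := by
      ext x; simp only [mem_union, mem_inter, mem_sdiff]; tauto
    rw [this]; exact hF'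
  obtain ⟨U, S, h1, h2, h3, h4, h6, h7, h8⟩ := surf_step ((tri_part K A).mono hYp)
    (fun ε hε => surf_two hK hA hF' h5 hε) (fun t ht => hcl t (hYp ht)) ht₀ hn
  refine ⟨U, S, h1.trans ((edges_mono hYp).trans (edges_part_subset hK A)), h2, h3, h4,
    fun ε hε => (h6 ε hε).mono hYp (Subset.refl _), h7, ?_⟩
  rintro ⟨F, hF, hF5, hFG, hFF⟩
  apply h8
  have hne : F ∩ A ≠ F' ∩ A := by
    intro h
    rw [h] at hFG
    exact hn hFG
  have hFA := hA F hF hF5
  have hFA' := hA F' hF' h5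
  have hs := card_sdiff_A hA hF hF5
  have hs' := card_sdiff_A hA hF' h5
  have e1 : (F ∩ A) ∩ (F' ∩ A) = (F ∩ F') ∩ A := by
    ext x; simp only [mem_inter]; tauto
  have hle : ((F ∩ F') ∩ A).card ≤ 2 := by
    by_contra hcon
    push Not at hcon
    have e2 : (F ∩ F') ∩ A = F ∩ A :=
      eq_of_subset_of_card_le (inter_subset_inter_right inter_subset_left) (by omega)
    have e3 : (F ∩ F') ∩ A = F' ∩ A :=
      eq_of_subset_of_card_le (inter_subset_inter_right inter_subset_right) (by omega)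
    exact hne (e2.symm.trans e3)
  have hsum := card_sdiff_add_card_inter (F ∩ F') A
  have hsub : (F ∩ F') \ A ⊆ F \ A := sdiff_subset_sdiff inter_subset_left (Subset.refl _)
  have hsub' : (F ∩ F') \ A ⊆ F' \ A := sdiff_subset_sdiff inter_subset_right (Subset.refl _)
  have hcle := card_le_card hsub
  have e4 : (F ∩ F') \ A = F \ A := eq_of_subset_of_card_le hsub (by omega)
  have e5 : (F ∩ F') \ A = F' \ A := eq_of_subset_of_card_le hsub' (by omega)
  refine ⟨F ∩ A, ?_, hFG, ?_⟩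
  · rw [hYdef, mem_filter]
    refine ⟨inter_mem_part hK hA hF hF5, ?_⟩
    have : F ∩ A ∪ F' \ A = F := by
      rw [← e5, e4]
      ext x; simp only [mem_union, mem_inter, mem_sdiff]; tauto
    rw [this]; exact hF
  · rw [e1]; omega

theorem ext_perc {K : Finset (Finset α)} (hK : NormalPseudomanifold K) {A : Finset α}
    (hA : Meets K A) {G : Finset (Finset α)} (hG : G ⊆ part K A 2)
    (h0 : ∃ t ∈ part K A 3, t.powersetCard 2 ⊆ G) :
    ∃ S ⊆ part K A 2, (∀ ε ∈ part K A 2, Known (part K A 3) (G ∪ S) ε) ∧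
      3 * S.card + G.card ≤ (part K A 2).card := by
  induction hm : (part K A 2 \ G).card using Nat.strong_induction_on generalizing G with
  | _ m ih =>
  subst hm
  by_cases hE : part K A 2 ⊆ G
  · refine ⟨∅, empty_subset _, fun ε hε => Known.base (mem_union_left _ (hE hε)), ?_⟩
    have := card_le_card hG
    simpa using this
  obtain ⟨ε₁, hε₁, hε₁G⟩ := not_subset.1 hE
  by_cases hcl : ∀ t ∈ part K A 3, ∀ ε ∈ t.powersetCard 2,
      (∀ ε' ∈ t.powersetCard 2, ε' ≠ ε → ε' ∈ G) → ε ∈ G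
  · obtain ⟨t, ht, htG⟩ := h0
    obtain ⟨htK, ht3, htA⟩ := mem_part.1 ht
    obtain ⟨F₀, hF₀, htF₀, hF₀5⟩ := hK.pure t htK
    have e0 : F₀ ∩ A = t := by
      symm
      apply eq_of_subset_of_card_le (subset_inter htF₀ htA)
      rw [hA F₀ hF₀ hF₀5, ht3]
    obtain ⟨hε₁K, hε₁2, hε₁A⟩ := mem_part.1 hε₁
    obtain ⟨F₁, hF₁, hεF₁, hF₁5⟩ := hK.pure ε₁ hε₁K
    obtain ⟨F, F', hFF, hP, hP'⟩ := chain_switch
      (P := fun F => (F ∩ A).powersetCard 2 ⊆ G) (facet_chain hK hF₀ hF₁ hF₀5 hF₁5)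
      (by rw [e0]; exact htG)
      (fun h => hε₁G (h (mem_powersetCard.2 ⟨subset_inter hεF₁ hε₁A, hε₁2⟩)))
    obtain ⟨hFK, hF'K, hF5, hF'5, hFF4⟩ := hFF
    obtain ⟨U, S₁, hU, hUG, hUF, hSU, hkn, _, h3⟩ := ext_step hK hA hcl hF'K hF'5 hP'
    have h3' := h3 ⟨F, hFK, hF5, hP, hFF4⟩
    have hUne : U.Nonempty := by
      rw [nonempty_iff_ne_empty]
      rintro rfl
      apply hP'
      rwa [empty_union] at hUF
    have hlt : (part K A 2 \ (G ∪ U)).card < (part K A 2 \ G).card := by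
      apply card_lt_card
      refine ⟨sdiff_subset_sdiff (Subset.refl _) subset_union_left, fun h => ?_⟩
      obtain ⟨u, hu⟩ := hUne
      have h1 : u ∈ part K A 2 \ G :=
        mem_sdiff.2 ⟨hU hu, fun h2 => disjoint_left.1 hUG hu h2⟩
      exact (mem_sdiff.1 (h h1)).2 (mem_union_right _ hu)
    obtain ⟨S₂, hS₂, hkn₂, hc₂⟩ := ih _ hlt (G := G ∪ U) (union_subset hG hU)
      ⟨t, ht, htG.trans subset_union_left⟩ rfl
    refine ⟨S₁ ∪ S₂, union_subset (hSU.trans hU) hS₂, fun ε hε => ?_, ?_⟩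
    · refine Known.trans (fun δ hδ => ?_) (hkn₂ ε hε)
      rcases mem_union.1 hδ with h | h
      · rcases mem_union.1 h with h | h
        · exact Known.base (mem_union_left _ h)
        · refine (hkn δ h).mono (Subset.refl _) ?_
          exact union_subset_union (Subset.refl _) subset_union_left
      · exact Known.base (mem_union_right _ (mem_union_right _ h))
    · have h4 : (G ∪ U).card = G.card + U.card := card_union_of_disjoint hUG.symm
      have h5 := card_union_le S₁ S₂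
      omega
  · push Not at hcl
    obtain ⟨t, ht, ε, hεt, hε', hεG⟩ := hcl
    obtain ⟨htK, ht3, htA⟩ := mem_part.1 ht
    have hεE : ε ∈ part K A 2 := edges_part_subset hK A
      (mem_edges.2 ⟨t, ht, mem_powersetCard.1 hεt⟩)
    have hlt : (part K A 2 \ insert ε G).card < (part K A 2 \ G).card := by
      apply card_lt_card
      refine ⟨sdiff_subset_sdiff (Subset.refl _) (subset_insert _ _), fun h => ?_⟩
      exact (mem_sdiff.1 (h (mem_sdiff.2 ⟨hεE, hεG⟩))).2 (mem_insert_self _ _)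
    obtain ⟨t₁, ht₁, ht₁G⟩ := h0
    obtain ⟨S, hS, hkn, hc⟩ := ih _ hlt (G := insert ε G) (insert_subset hεE hG)
      ⟨t₁, ht₁, ht₁G.trans (subset_insert _ _)⟩ rfl
    refine ⟨S, hS, fun δ hδ => ?_, ?_⟩
    · refine Known.trans (fun η hη => ?_) (hkn δ hδ)
      rcases mem_union.1 hη with h | h
      · rcases mem_insert.1 h with h | h
        · rw [h]
          exact Known.step ht ht3 hεt fun ε' h1 h2 => Known.base (mem_union_left _ (hε' ε' h1 h2))
        · exact Known.base (mem_union_left _ h)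
      · exact Known.base (mem_union_right _ h)
    · rw [card_insert_of_notMem hεG] at hc
      omega

theorem ext_perc₀ [Nonempty α] {K : Finset (Finset α)} (hK : NormalPseudomanifold K)
    {A : Finset α} (hA : Meets K A) :
    ∃ S ⊆ part K A 2, (∀ ε ∈ part K A 2, Known (part K A 3) S ε) ∧
      3 * S.card ≤ (part K A 2).card + 3 := by
  obtain ⟨v⟩ := ‹Nonempty α›
  obtain ⟨F, hF, _, hF5⟩ := hK.pure _ (hK.vertex v)
  have hFA := inter_mem_part hK hA hF hF5
  have ht3 : (F ∩ A).card = 3 := hA F hF hF5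
  have hcl : ∀ t ∈ part K A 3, ∀ ε ∈ t.powersetCard 2,
      (∀ ε' ∈ t.powersetCard 2, ε' ≠ ε → ε' ∈ (∅ : Finset (Finset α))) →
        ε ∈ (∅ : Finset (Finset α)) := by
    intro t ht ε hε h
    exfalso
    have h3 : (t.powersetCard 2).card = 3 := by
      rw [card_powersetCard, (mem_part.1 ht).2.1]; rfl
    have h1 : ∃ ε' ∈ t.powersetCard 2, ε' ≠ ε := by
      apply exists_mem_ne
      omega
    obtain ⟨ε', h4, h5⟩ := h1
    exact notMem_empty _ (h ε' h4 h5)
  have hne : ¬ (F ∩ A).powersetCard 2 ⊆ (∅ : Finset (Finset α)) := by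
    intro h
    have h3 : ((F ∩ A).powersetCard 2).card = 3 := by
      rw [card_powersetCard, ht3]; rfl
    rw [subset_empty.1 h, card_empty] at h3
    omega
  obtain ⟨U, S₁, hU, _, hUF, hSU, hkn, h3, _⟩ := ext_step hK hA hcl hF hF5 hne
  rw [union_empty] at hUF
  obtain ⟨S₂, hS₂, hkn₂, hc₂⟩ := ext_perc hK hA hU ⟨F ∩ A, hFA, hUF⟩
  refine ⟨S₁ ∪ S₂, union_subset (hSU.trans hU) hS₂, fun ε hε => ?_, ?_⟩
  · refine Known.trans (fun δ hδ => ?_) (hkn₂ ε hε)
    rcases mem_union.1 hδ with h | h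
    · refine (hkn δ h).mono (Subset.refl _) ?_
      rw [empty_union]
      exact subset_union_left
    · exact Known.base (mem_union_right _ h)
  · have h5 := card_union_le S₁ S₂
    omega

end Pool.MP_f18604_gt.BO
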