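import Pool.Agent.Helper23.BO.Core
import Pool.Agent.Helper23.BO.ColKnown
import Pool.Agent.Helper23.BO.Dim2
import Pool.Agent.Helper23.BO.Dim3
import Pool.Agent.Helper23.BO.Ext

/-!
# BO: a small percolating set of edges of `K[A]`
-/

set_option autoImplicit false

namespace Pool.MP_f18604_gt.BO

open Finset Module Pool.MP_f18604_gt.Gem Pool.MP_f18604_gt.KF

variable {α : Type} [Fintype α] [DecidableEq α]

theorem main_A [Nonempty α] {K : Finset (Finset α)} (hK : NormalPseudomanifold K) {A : Finset α}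
    (hA : Meets K A) : ∃ S ⊆ part K A 2, (∀ ε ∈ part K A 2, Known (part K A 3) S ε) ∧
      3 * S.card ≤ (part K A 2).card + 3 ∧
      (S.card = dimCoc (part K A 2) (part K A 3) ∨ 3 * S.card ≤ (part K A 2).card) := by
  classical
  have hX := tri_part K A
  have hXE := edges_part_subset hK A
  obtain ⟨Y, hYX, hYc, hYe⟩ := exists_basis hX (part K A 2)
  obtain ⟨x, hx, R, hRY, hRx⟩ := col_noCyc (hX.mono hYX) hYc
  obtain ⟨S, hSE, hScard, hSk⟩ := col_known (col_extend hYX hx) hX (part K A 2) hXE
  have hd : dimCoc (part K A 2) (part K A 3) + Y.card = (part K A 2).card := by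
    have h1 := dimCoc_noCyc (E := part K A 2) (hX.mono hYX) ((edges_mono hYX).trans hXE) hYc
    unfold dimCoc at h1 ⊢
    rw [hYe] at h1
    exact h1
  have hYle : Y.card ≤ (part K A 3).card := card_le_card hYX
  have hS' : S.card = dimCoc (part K A 2) (part K A 3) + x := by omega
  by_cases hx0 : x = 0
  · obtain ⟨S₀, _, hS0k, hS0c⟩ := ext_perc₀ hK hA
    have h1 := dimCoc_le (E := part K A 2) (R := ∅) (S := S₀) hX (empty_subset _)
      (fun C hC _ => subset_empty.1 hC) (fun ε hε => (hS0k ε hε).mono (Subset.refl _)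
        subset_union_right)
    have h2 : (edges (∅ : Finset (Finset α))).card = 0 := by simp [edges]
    rw [h2, card_empty] at h1
    exact ⟨S, hSE, hSk, by omega, Or.inl (by omega)⟩
  · have hRX : R ⊆ part K A 3 := hRY.trans hYX
    have hne : R.Nonempty := by
      rw [nonempty_iff_ne_empty]
      rintro rfl
      have h2 : Psi (∅ : Finset (Finset α)) = 0 := by simp [Psi, edges]
      rw [h2] at hRx
      omega
    obtain ⟨t, ht⟩ := hne
    obtain ⟨S₁, _, hS1k, hS1c⟩ := ext_perc hK hA (G := edges R) ((edges_mono hRX).trans hXE)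
      ⟨t, hRX ht, fun ε hε => mem_edges.2 ⟨t, ht, mem_powersetCard.1 hε⟩⟩
    have h1 := dimCoc_le (E := part K A 2) (R := R) (S := S₁) hX hRX (hYc.mono hRY) hS1k
    unfold Psi at hRx
    have h3 : 3 * S.card ≤ (part K A 2).card := by omega
    exact ⟨S, hSE, hSk, by omega, Or.inr h3⟩

end Pool.MP_f18604_gt.BO
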