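import Pool.Agent.Helper23.BO.Grad
import Pool.Agent.Helper23.BO.MainA
import Pool.Agent.Helper23.BO.Bverts
import Pool.Agent.Helper23.BO.AcycPart
import Pool.Agent.Helper23.BO.Bal

/-!
# BO: discrete gradients with few critical edges
-/

set_option autoImplicit false

namespace Pool.MP_f18604_gt.BO

open Finset Module Pool.MP_f18604_gt.Gem Pool.MP_f18604_gt.KF

variable {α : Type} [Fintype α] [DecidableEq α]

theorem meets_nonempty [Nonempty α] {K : Finset (Finset α)} (hK : NormalPseudomanifold K)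
    {A : Finset α} (hA : Meets K A) : A.Nonempty := by
  obtain ⟨v⟩ := ‹Nonempty α›
  obtain ⟨F, hF, _, hF5⟩ := hK.pure _ (hK.vertex v)
  have h := hA F hF hF5
  have h1 : (F ∩ A).Nonempty := by
    rw [← card_pos]; omega
  exact h1.mono inter_subset_right

theorem main_type [Nonempty α] {K : Finset (Finset α)} (hK : NormalPseudomanifold K)
    {A : Finset α} (hA : Meets K A) :
    ∃ D : DiscreteGradient (K : Set (Finset α)), (∃! σ, D.Critical σ ∧ σ.card = 1) ∧
      ∃ c : ℕ, {σ | D.Critical σ ∧ σ.card = 2}.ncard = c ∧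
      3 * (c : ℤ) ≤ (part K A 2).card - 3 * A.card + 6 ∧
      (SphereLinks K → Acyc K → c = 0 ∨ 3 * ((c : ℤ) + 1) ≤ (part K A 2).card - 3 * A.card + 6) := by
  obtain ⟨S₀, hS0, hS0k, hS0c, hS0d⟩ := main_A hK hA
  obtain ⟨S, hS, hSk, hSc⟩ := exists_perc hK hA hS0 hS0k
  obtain ⟨D, hD1, hD2⟩ := exists_gradient hK.down hK.vertex hK.conn hS hSk
  refine ⟨D, hD1, _, rfl, ?_, fun hL hac => ?_⟩
  · omega
  · rcases hS0d with h | h
    · left
      have h1 := dim_of_acyc (meets_nonempty hK hA)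
        (fun ε hε => ⟨(mem_part.1 hε).2.1, (mem_part.1 hε).2.2⟩) (tri_part K A)
        (edges_part_subset hK A) (acyc_part hK hL hac hA)
      omega
    · right
      omega

theorem main_balanced [Nonempty α] {K : Finset (Finset α)} (hK : NormalPseudomanifold K)
    {κ : α → Fin 5} (hκ : Rainbow K κ) :
    ∃ D : DiscreteGradient (K : Set (Finset α)), (∃! σ, D.Critical σ ∧ σ.card = 1) ∧
      ∃ c : ℕ, {σ | D.Critical σ ∧ σ.card = 2}.ncard = c ∧
      10 * (c : ℤ) ≤ fnum K 1 - 6 * fnum K 0 + 20 ∧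
      (SphereLinks K → Acyc K → c = 0 ∨ 10 * ((c : ℤ) + 1) ≤ fnum K 1 - 6 * fnum K 0 + 20) := by
  obtain ⟨A, hA, hAc⟩ := exists_colors hK hκ
  obtain ⟨D, hD, c, hc, h1, h2⟩ := main_type hK hA
  refine ⟨D, hD, c, hc, by omega, fun hL hac => ?_⟩
  rcases h2 hL hac with h | h
  · exact Or.inl h
  · right
    omega

end Pool.MP_f18604_gt.BO
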