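import Pool.Agent.Helper23.BO.Basic
import Pool.Agent.Helper47.KF.D02

/-!
# BO-01: the discrete gradient given by a percolating set of edges

`K` is a simplicial complex with connected 1-skeleton all of whose vertices are the elements of
`α`, and `S` a set of edges from which all edges of `K` become known. Then `K` has a discrete
gradient with one critical vertex and `|S| - (n - 1)` critical edges, `n = |α|`.

Proof. (Very similar to `exists_gradient_forest` in `Pool.Agent.Helper47.KF.D02`, which can be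
copied and adapted.)
(1) Rank: let `Kn m ε` say that `ε` is known after `m` steps (`Kn 0 ε` iff `ε ∈ S`; `Kn (m + 1) ε` iff `Kn m ε` or
there is a triangle `t ∈ K` with edge `ε` and `Kn m ε'` for its two other edges). `Known K S ε`
gives `∃ m, Kn m ε`; let `rk ε` be the smallest `m` (`Nat.find`; `0` for other sets). For an edge `ε ∈ K`, `ε ∉ S`,
`rk ε > 0` and there is a triangle `τ ε ∈ K` of cardinality 3, with edge `ε`, whose two other edges
have smaller rank.
(2) The graph `R` on `α` with the edges in `S` is connected: by `hconn` it suffices that the ends of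
every edge `ε = {a, b}` of `K` are joined in `R`; induct on `rk ε`: if `ε ∈ S`, clear; otherwise
`τ ε = {a, b, c}` and `a`, `c` and `c`, `b` are joined (smaller rank).
(3) Fix a base vertex `b`, let `d v` be the distance from `v` to `b` in `R`, and for `v ≠ b` let
`nxt v` be an `R`-neighbour with `d (nxt v) < d v`. Let `T` be the set of the edges `{v, nxt v}`,
`v ≠ b`: `n - 1` distinct elements of `S` (`{v, nxt v} = {w, nxt w}` with
`v ≠ w` would give `d v < d w < d v`).
(4) The pairs: `({v}, {v, nxt v})` for `v ≠ b` and `(ε, τ ε)` for the edges `ε ∈ K`, `ε ∉ S`.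
`down_unique`: if `τ ε = τ ε'` and `ε ≠ ε'` then `rk ε < rk ε' < rk ε`. `no_both`: edges in `T ⊆ S`
are not paired with triangles. `acyclic`: from a vertex `v` a step goes to `{nxt v}`, `d` decreases;
from an edge `ε` a step goes to another edge of `τ ε`, `rk` decreases.
(5) Critical simplices with one element: only `{b}`. With two elements: exactly the elements of
`S` not in `T`.
-/

set_option autoImplicit false

namespace Pool.MP_f18604_gt.BO

open Finset Module Pool.MP_f18604_gt.Gem Pool.MP_f18604_gt.KF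

variable {α : Type} [Fintype α] [DecidableEq α]

/-- known after `m` steps -/
def Kn (K S : Finset (Finset α)) : ℕ → Finset α → Prop
  | 0, ε => ε ∈ S
  | (m + 1), ε => Kn K S m ε ∨ ∃ t ∈ K, t.card = 3 ∧ ε ∈ t.powersetCard 2 ∧
      ∀ ε' ∈ t.powersetCard 2, ε' ≠ ε → Kn K S m ε'

omit [Fintype α] [DecidableEq α] in
theorem Kn.mono' {K S : Finset (Finset α)} {m : ℕ} {ε : Finset α} (h : Kn K S m ε) (k : ℕ) :
    Kn K S (m + k) ε := by
  induction k with
  | zero => exact h
  | succ k ih => exact Or.inl ih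

omit [Fintype α] [DecidableEq α] in
theorem Kn.mono {K S : Finset (Finset α)} {m m' : ℕ} (hm : m ≤ m') {ε : Finset α}
    (h : Kn K S m ε) : Kn K S m' ε := by
  obtain ⟨k, rfl⟩ := Nat.exists_eq_add_of_le hm
  exact h.mono' k

omit [Fintype α] [DecidableEq α] in
theorem exists_Kn {K S : Finset (Finset α)} {ε : Finset α} (h : Known K S ε) :
    ∃ m, Kn K S m ε := by
  classical
  induction h with
  | base h => exact ⟨0, h⟩
  | @step t ε ht hc hε _ ih =>
    have h1 : ∀ ε' : Finset α, ∃ m, ε' ∈ t.powersetCard 2 → ε' ≠ ε → Kn K S m ε' := by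
      intro ε'
      by_cases h2 : ε' ∈ t.powersetCard 2 ∧ ε' ≠ ε
      · obtain ⟨m, hm⟩ := ih ε' h2.1 h2.2
        exact ⟨m, fun _ _ => hm⟩
      · exact ⟨0, fun h3 h4 => absurd ⟨h3, h4⟩ h2⟩
    choose f hf using h1
    refine ⟨(t.powersetCard 2).sup f + 1, Or.inr ⟨t, ht, hc, hε, fun ε' h2 h3 => ?_⟩⟩
    exact (hf ε' h2 h3).mono (le_sup (f := f) h2)

omit [Fintype α] in
theorem exists_rank {K S : Finset (Finset α)} (hkn : ∀ ε ∈ K, ε.card = 2 → Known K S ε) :
    ∃ (rk : Finset α → ℕ) (τ : Finset α → Finset α), ∀ ε ∈ K, ε.card = 2 → ε ∉ S →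
      τ ε ∈ K ∧ (τ ε).card = 3 ∧ ε ⊆ τ ε ∧
        ∀ ε' ⊆ τ ε, ε'.card = 2 → ε' ≠ ε → rk ε' < rk ε := by
  classical
  let rk : Finset α → ℕ := fun ε => if h : ∃ m, Kn K S m ε then Nat.find h else 0
  have h1 : ∀ ε : Finset α, ∃ t : Finset α, ε ∈ K → ε.card = 2 → ε ∉ S →
      t ∈ K ∧ t.card = 3 ∧ ε ⊆ t ∧ ∀ ε' ⊆ t, ε'.card = 2 → ε' ≠ ε → rk ε' < rk ε := by
    intro ε
    by_cases hε : ε ∈ K ∧ ε.card = 2 ∧ ε ∉ S
    · obtain ⟨hK, hc, hS⟩ := hε
      have hex := exists_Kn (hkn ε hK hc)
      have hrk : rk ε = Nat.find hex := dif_pos hex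
      have hspec := Nat.find_spec hex
      obtain ⟨m, hm⟩ : ∃ m, Nat.find hex = m + 1 := by
        apply Nat.exists_eq_succ_of_ne_zero
        intro h0
        rw [h0] at hspec
        exact hS hspec
      rw [hm] at hspec
      rcases hspec with h | ⟨t, ht, ht3, hεt, hoth⟩
      · exfalso
        have := Nat.find_min' hex h
        omega
      · refine ⟨t, fun _ _ _ => ⟨ht, ht3, (mem_powersetCard.1 hεt).1, fun ε' h2 h3 h4 => ?_⟩⟩
        have h5 := hoth ε' (mem_powersetCard.2 ⟨h2, h3⟩) h4
        have hex' : ∃ m, Kn K S m ε' := ⟨m, h5⟩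
        have hrk' : rk ε' = Nat.find hex' := dif_pos hex'
        rw [hrk, hrk', hm]
        have := Nat.find_min' hex' h5
        omega
    · exact ⟨ε, fun a b c => absurd ⟨a, b, c⟩ hε⟩
  choose τ hτ using h1
  exact ⟨rk, τ, hτ⟩

/-- the graph of the seeds -/
def SG (S : Finset (Finset α)) : SimpleGraph α where
  Adj a b := a ≠ b ∧ ({a, b} : Finset α) ∈ S
  symm := ⟨by intro a b h; exact ⟨h.1.symm, by rw [pair_comm]; exact h.2⟩⟩
  loopless := ⟨by intro a h; exact h.1 rfl⟩

omit [Fintype α] in
theorem sg_reach_edge {K S : Finset (Finset α)}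
    (hdown : ∀ σ ∈ K, ∀ ρ ⊆ σ, ρ.Nonempty → ρ ∈ K) {rk : Finset α → ℕ}
    {τ : Finset α → Finset α} (hτ : ∀ ε ∈ K, ε.card = 2 → ε ∉ S →
      τ ε ∈ K ∧ (τ ε).card = 3 ∧ ε ⊆ τ ε ∧
        ∀ ε' ⊆ τ ε, ε'.card = 2 → ε' ≠ ε → rk ε' < rk ε) (m : ℕ) :
    ∀ a b : α, a ≠ b → ({a, b} : Finset α) ∈ K → rk {a, b} = m → (SG S).Reachable a b := by
  induction m using Nat.strong_induction_on with
  | _ m ih =>
    intro a b hab hK hm
    by_cases hS : ({a, b} : Finset α) ∈ S
    · exact SimpleGraph.Adj.reachable ⟨hab, hS⟩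
    · obtain ⟨h1, h2, h3, h4⟩ := hτ _ hK (card_pair hab) hS
      obtain ⟨c, hc, hcab⟩ : ∃ c ∈ τ {a, b}, c ∉ ({a, b} : Finset α) := by
        by_contra hcon
        push Not at hcon
        have := card_le_card (show τ {a, b} ⊆ {a, b} from hcon)
        rw [h2, card_pair hab] at this
        omega
      simp only [mem_insert, mem_singleton, not_or] at hcab
      have ha : a ∈ τ {a, b} := h3 (by simp)
      have hb : b ∈ τ {a, b} := h3 (by simp)
      have hac : ({a, c} : Finset α) ⊆ τ {a, b} := by
        intro x hx; simp only [mem_insert, mem_singleton] at hx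
        rcases hx with rfl | rfl <;> assumption
      have hbc : ({c, b} : Finset α) ⊆ τ {a, b} := by
        intro x hx; simp only [mem_insert, mem_singleton] at hx
        rcases hx with rfl | rfl <;> assumption
      have nac : ({a, c} : Finset α) ≠ {a, b} := by
        intro h
        have : c ∈ ({a, b} : Finset α) := by rw [← h]; simp
        simp only [mem_insert, mem_singleton] at this
        tauto
      have nbc : ({c, b} : Finset α) ≠ {a, b} := by
        intro h
        have : c ∈ ({a, b} : Finset α) := by rw [← h]; simp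
        simp only [mem_insert, mem_singleton] at this
        tauto
      have r1 := h4 _ hac (card_pair (Ne.symm hcab.1)) nac
      have r2 := h4 _ hbc (card_pair hcab.2) nbc
      rw [hm] at r1 r2
      have s1 := ih _ r1 a c (Ne.symm hcab.1) (hdown _ h1 _ hac ⟨a, by simp⟩) rfl
      have s2 := ih _ r2 c b hcab.2 (hdown _ h1 _ hbc ⟨b, by simp⟩) rfl
      exact s1.trans s2

/-- the pairs -/
def Pg (K S : Finset (Finset α)) (τ : Finset α → Finset α) (b : α) (nxt : α → α)
    (σ ρ : Finset α) : Prop :=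
  (∃ v, v ≠ b ∧ σ = {v} ∧ ρ = {v, nxt v}) ∨ (∃ ε, ε ∈ K ∧ ε.card = 2 ∧ ε ∉ S ∧ σ = ε ∧ ρ = τ ε)

theorem exists_gradient [Nonempty α] {K : Finset (Finset α)}
    (hdown : ∀ σ ∈ K, ∀ ρ ⊆ σ, ρ.Nonempty → ρ ∈ K) (hvert : ∀ v : α, ({v} : Finset α) ∈ K)
    (hconn : ∀ u v : α, Relation.ReflTransGen (fun a b => ({a, b} : Finset α) ∈ K) u v)
    {S : Finset (Finset α)} (hS : ∀ ε ∈ S, ε ∈ K ∧ ε.card = 2)
    (hkn : ∀ ε ∈ K, ε.card = 2 → Known K S ε) :
    ∃ D : DiscreteGradient (K : Set (Finset α)), (∃! σ, D.Critical σ ∧ σ.card = 1) ∧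
      {σ | D.Critical σ ∧ σ.card = 2}.ncard + Fintype.card α = S.card + 1 := by
  classical
  obtain ⟨b⟩ := ‹Nonempty α›
  obtain ⟨rk, τ, hτ⟩ := exists_rank hkn
  have hreach : ∀ u v, (SG S).Reachable u v := by
    intro u v
    induction hconn u v with
    | refl => exact SimpleGraph.Reachable.refl _
    | @tail x y _ hxy ih =>
      refine ih.trans ?_
      by_cases he : x = y
      · subst he; exact SimpleGraph.Reachable.refl _
      · exact sg_reach_edge hdown hτ _ x y he hxy rfl
  have hnx : ∀ v, ∃ w, v ≠ b → (SG S).Adj v w ∧ (SG S).dist w b < (SG S).dist v b := by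
    intro v
    by_cases hv : v = b
    · exact ⟨v, fun hh => absurd hv hh⟩
    · obtain ⟨p, hp⟩ := (hreach v b).exists_walk_length_eq_dist
      cases p with
      | nil => exact absurd rfl hv
      | @cons _ w _ hadj q =>
        refine ⟨w, fun _ => ⟨hadj, ?_⟩⟩
        have h1 := SimpleGraph.dist_le q
        rw [SimpleGraph.Walk.length_cons] at hp
        omega
  choose nxt hnxt using hnx
  set d : α → ℕ := fun v => (SG S).dist v b with hd_def
  have nS : ∀ {v}, v ≠ b → ({v, nxt v} : Finset α) ∈ S := fun {v} hv => (hnxt v hv).1.2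
  have nd : ∀ {v}, v ≠ b → d (nxt v) < d v := fun {v} hv => (hnxt v hv).2
  have nne : ∀ {v}, v ≠ b → v ≠ nxt v := fun {v} hv => (hnxt v hv).1.1
  have cardn : ∀ {v}, v ≠ b → ({v, nxt v} : Finset α).card = 2 := by
    intro v hv; exact card_pair (nne hv)
  have ninj : ∀ {v w}, v ≠ b → w ≠ b → ({v, nxt v} : Finset α) = {w, nxt w} → v = w := by
    intro v w hv hw he
    by_contra hne
    have h1 : v ∈ ({w, nxt w} : Finset α) := by rw [← he]; simp
    have h2 : w ∈ ({v, nxt v} : Finset α) := by rw [he]; simp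
    simp only [mem_insert, mem_singleton] at h1 h2
    have h1 : v = nxt w := h1.resolve_left hne
    have h2 : w = nxt v := h2.resolve_left (Ne.symm hne)
    have a := nd hv
    have c := nd hw
    rw [← h2] at a
    rw [← h1] at c
    omega
  let D : DiscreteGradient (K : Set (Finset α)) :=
    { pair := Pg K S τ b nxt
      mem := by
        rintro σ ρ (⟨v, hv, rfl, rfl⟩ | ⟨ε, hε, hc, hεS, rfl, rfl⟩)
        · refine ⟨hvert v, (hS _ (nS hv)).1, by simp, ?_⟩
          rw [cardn hv]; simp
        · obtain ⟨h1, h2, h3, _⟩ := hτ _ hε hc hεS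
          refine ⟨hε, h1, h3, ?_⟩
          rw [h2, hc]
      up_unique := by
        intro σ ρ ρ' h1 h2
        rcases h1 with ⟨v, hv, rfl, rfl⟩ | ⟨ε, hε, hc, hεS, rfl, rfl⟩
        · rcases h2 with ⟨v', hv', hs, rfl⟩ | ⟨ε', hε', hc', hεS', hs, rfl⟩
          · have := Finset.singleton_injective hs; rw [this]
          · have := congrArg Finset.card hs; rw [hc'] at this; simp at this
        · rcases h2 with ⟨v', hv', hs, rfl⟩ | ⟨ε', hε', hc', hεS', hs, rfl⟩
          · rw [hs] at hc; simp at hc
          · rw [hs]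
      down_unique := by
        intro σ σ' ρ h1 h2
        rcases h1 with ⟨v, hv, rfl, rfl⟩ | ⟨ε, hε, hc, hεS, rfl, rfl⟩
        · rcases h2 with ⟨v', hv', rfl, hs⟩ | ⟨ε', hε', hc', hεS', rfl, hs⟩
          · rw [ninj hv hv' hs]
          · have := congrArg Finset.card hs
            rw [(hτ _ hε' hc' hεS').2.1, cardn hv] at this; omega
        · rcases h2 with ⟨v', hv', rfl, hs⟩ | ⟨ε', hε', hc', hεS', rfl, hs⟩
          · have := congrArg Finset.card hs
            rw [(hτ _ hε hc hεS).2.1, cardn hv'] at this; omega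
          · by_contra hne
            obtain ⟨_, _, h3, h4⟩ := hτ _ hε hc hεS
            obtain ⟨_, _, h3', h4'⟩ := hτ _ hε' hc' hεS'
            have r1 := h4 _ (by rw [hs]; exact h3') hc' (Ne.symm hne)
            have r2 := h4' _ (by rw [← hs]; exact h3) hc hne
            omega
      no_both := by
        intro ρ σ σ' h1 h2
        rcases h1 with ⟨v, hv, rfl, rfl⟩ | ⟨ε, hε, hc, hεS, rfl, rfl⟩
        · rcases h2 with ⟨v', hv', hs, rfl⟩ | ⟨ε', hε', hc', hεS', hs, rfl⟩
          · have := congrArg Finset.card hs; rw [cardn hv] at this; simp at this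
          · exact hεS' (hs ▸ nS hv)
        · rcases h2 with ⟨v', hv', hs, rfl⟩ | ⟨ε', hε', hc', hεS', hs, rfl⟩
          · have := congrArg Finset.card hs
            rw [(hτ _ hε hc hεS).2.1] at this; simp at this
          · have := congrArg Finset.card hs
            rw [(hτ _ hε hc hεS).2.1, hc'] at this; omega
      acyclic := by
        let m : Finset α → ℕ := fun σ => if σ.card = 1 then σ.sup d else rk σ
        have dec : ∀ a c : Finset α, (∃ ρ, Pg K S τ b nxt a ρ ∧ Facet c ρ ∧ c ≠ a) →
            m c < m a := by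
          rintro a c ⟨ρ, hp, hf, hba⟩
          rcases hp with ⟨v, hv, rfl, rfl⟩ | ⟨ε, hε, hc, hεS, rfl, rfl⟩
          · have hb : c = {nxt v} := by
              have hc : c.card = 1 := by have := hf.2; rw [cardn hv] at this; omega
              obtain ⟨x, rfl⟩ := card_eq_one.1 hc
              have hx : x ∈ ({v, nxt v} : Finset α) := hf.1 (by simp)
              simp only [mem_insert, mem_singleton] at hx
              rcases hx with rfl | rfl
              · exact absurd rfl hba
              · rfl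
            rw [hb]
            simp only [m, sup_singleton, card_singleton, if_true]
            exact nd hv
          · obtain ⟨_, h2, _, h4⟩ := hτ _ hε hc hεS
            have hcc : c.card = 2 := by have := hf.2; rw [h2] at this; omega
            have := h4 c hf.1 hcc hba
            simp only [m]
            rw [if_neg (by rw [hcc]; norm_num), if_neg (by rw [hc]; norm_num)]
            exact this
        intro σ hσ
        have aux : ∀ a c : Finset α,
            Relation.TransGen (fun a c => ∃ ρ, Pg K S τ b nxt a ρ ∧ Facet c ρ ∧ c ≠ a) a c →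
            m c < m a := by
          intro a c hab
          induction hab with
          | single h1 => exact dec _ _ h1
          | tail _ h2 ih => exact (dec _ _ h2).trans ih
        exact lt_irrefl _ (aux _ _ hσ) }
  have hDpair : ∀ σ ρ, D.pair σ ρ ↔ Pg K S τ b nxt σ ρ := fun _ _ => Iff.rfl
  have tgt : ∀ {σ ρ}, Pg K S τ b nxt σ ρ → ρ.card ≠ 1 := by
    intro σ ρ hp
    rcases hp with ⟨v, hv, rfl, rfl⟩ | ⟨ε, hε, hc, hεS, rfl, rfl⟩
    · rw [cardn hv]; norm_num
    · rw [(hτ _ hε hc hεS).2.1]; norm_num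
  set T : Finset (Finset α) := (univ.erase b).image (fun v => ({v, nxt v} : Finset α)) with hT
  have hTS : T ⊆ S := by
    intro ε hε
    obtain ⟨v, hv, rfl⟩ := mem_image.1 hε
    exact nS (ne_of_mem_erase hv)
  have hTcard : T.card + 1 = Fintype.card α := by
    rw [hT, card_image_of_injOn, card_erase_of_mem (mem_univ _), card_univ]
    · have : 0 < Fintype.card α := Fintype.card_pos_iff.2 ⟨b⟩
      omega
    · intro v hv w hw he
      exact ninj (ne_of_mem_erase (mem_coe.1 hv)) (ne_of_mem_erase (mem_coe.1 hw)) he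
  refine ⟨D, ?_, ?_⟩
  · refine ⟨{b}, ⟨⟨hvert b, ?_⟩, card_singleton b⟩, ?_⟩
    · intro ρ
      rw [hDpair, hDpair]
      constructor
      · intro hp
        rcases hp with ⟨v', hv', hs, rfl⟩ | ⟨ε', hε', hc', hεS', hs, rfl⟩
        · exact hv' (Finset.singleton_injective hs).symm
        · have := congrArg Finset.card hs; rw [hc'] at this; simp at this
      · intro hp
        exact tgt hp (card_singleton b)
    · rintro σ ⟨hσ, hc⟩
      obtain ⟨v, rfl⟩ := card_eq_one.1 hc
      by_contra hne
      have hv : v ≠ b := by rintro rfl; exact hne rfl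
      exact (hσ.2 {v, nxt v}).1 (Or.inl ⟨v, hv, rfl, rfl⟩)
  · have hset : {σ | D.Critical σ ∧ σ.card = 2} = ((S \ T : Finset (Finset α)) : Set (Finset α)) := by
      ext σ
      rw [Finset.mem_coe, mem_sdiff]
      constructor
      · rintro ⟨hσ, hc⟩
        constructor
        · by_contra hS'
          exact (hσ.2 (τ σ)).1 (Or.inr ⟨σ, hσ.1, hc, hS', rfl, rfl⟩)
        · intro hT'
          obtain ⟨v, hv, rfl⟩ := mem_image.1 hT'
          exact (hσ.2 {v}).2 (Or.inl ⟨v, ne_of_mem_erase hv, rfl, rfl⟩)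
      · rintro ⟨h1, h2⟩
        refine ⟨⟨(hS σ h1).1, fun ρ => ?_⟩, (hS σ h1).2⟩
        rw [hDpair, hDpair]
        constructor
        · intro hp
          rcases hp with ⟨v', hv', rfl, rfl⟩ | ⟨ε', hε', hc', hεS', rfl, rfl⟩
          · have := (hS _ h1).2; simp at this
          · exact hεS' h1
        · intro hp
          rcases hp with ⟨v', hv', rfl, rfl⟩ | ⟨ε', hε', hc', hεS', rfl, rfl⟩
          · exact h2 (mem_image.2 ⟨v', mem_erase.2 ⟨hv', mem_univ _⟩, rfl⟩)
          · have := (hS _ h1).2
            rw [(hτ _ hε' hc' hεS').2.1] at this; omega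
    rw [hset, Set.ncard_coe_finset, card_sdiff_of_subset hTS]
    have := card_le_card hTS
    omega

end Pool.MP_f18604_gt.BO
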