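import Pool.Agent.Helper23.BO.Chain

/-!
# BO-16: the link of an edge outside `A`

`K`, `A` as always, `e ∈ K` of cardinality 2 and disjoint from `A`, `Y = surf K A e = {t ∈ part K A 3 : t ∪ e ∈ K}`.
* `surf_nonempty`: `e` lies in a 4-simplex `F` (`hK.pure`), and `F \ A` has two elements and contains `e`, so `F \ A = e` and `F ∩ A ∈ Y`.
* `surf_deg`: `surf_two` (with this `F`, `F \ A = e`).
* `surf_conn`: for `s, t ∈ Y` the 4-simplices `s ∪ e`, `t ∪ e` are joined by a chain of 4-simplices containing `e` (`SphereLinks.conn`), and `G ↦ G ∩ A` maps 4-simplices containing `e` to members of `Y` and consecutive ones to members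
with exactly two common elements (`G \ A = e` for all of them, so `|G ∩ G' ∩ A| = 4 - 2`).
* `surf_euler`: `EdgeLinksSpherical` for `e` says `n₃ - n₄ + n₅ = 2`, `n_i` the number of the simplices of `K` with `i` elements containing `e`. Those with 5 elements correspond to the members of `Y` (`t ↦ t ∪ e`), those
with 4 elements to the members of `edges Y` (`ε ↦ ε ∪ e`; a simplex with 4 elements containing `e` lies in a 4-simplex `F` with `F \ A = e`), those with 3 elements to the elements of
`verts Y` (`x ↦ {x} ∪ e`).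
-/

set_option autoImplicit false

namespace Pool.MP_f18604_gt.BO

open Finset Module Pool.MP_f18604_gt.Gem Pool.MP_f18604_gt.KF

variable {α : Type} [Fintype α] [DecidableEq α]

/-- The link of `e`, if `e` is an edge of `K` outside `A`. -/
def surf (K : Finset (Finset α)) (A e : Finset α) : Finset (Finset α) :=
  (part K A 3).filter (fun t => t ∪ e ∈ K)

omit [Fintype α] in
private theorem Link_sdiff {K : Finset (Finset α)} {A : Finset α} (hA : Meets K A)
    {e F : Finset α} (hc : e.card = 2) (hd : Disjoint e A) (hF : F ∈ K) (hF5 : F.card = 5)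
    (heF : e ⊆ F) : F \ A = e := by
  have h1 := hA F hF hF5
  have h2 : (F \ A).card = 2 := by
    have := card_sdiff_add_card_inter F A
    omega
  refine (eq_of_subset_of_card_le ?_ (by omega)).symm
  intro x hx
  exact mem_sdiff.2 ⟨heF hx, fun h => (disjoint_left.1 hd) hx h⟩

omit [Fintype α] in
private theorem Link_union {A e F : Finset α} (h : F \ A = e) : F ∩ A ∪ e = F := by
  rw [← h]
  ext x
  simp only [mem_union, mem_inter, mem_sdiff]
  tauto

omit [Fintype α] in
private theorem Link_mem {K : Finset (Finset α)} (hK : NormalPseudomanifold K) {A : Finset α}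
    (hA : Meets K A) {e F : Finset α} (hc : e.card = 2) (hd : Disjoint e A) (hF : F ∈ K)
    (hF5 : F.card = 5) (heF : e ⊆ F) : F ∩ A ∈ surf K A e := by
  have h1 := hA F hF hF5
  unfold surf
  rw [mem_filter, mem_part, Link_union (Link_sdiff hA hc hd hF hF5 heF)]
  refine ⟨⟨hK.down F hF _ inter_subset_left ?_, h1, inter_subset_right⟩, hF⟩
  rw [← card_pos]
  omega

theorem surf_nonempty {K : Finset (Finset α)} (hK : NormalPseudomanifold K) {A : Finset α}
    (hA : Meets K A) {e : Finset α} (he : e ∈ K) (hc : e.card = 2) (hd : Disjoint e A) :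
    (surf K A e).Nonempty := by
  obtain ⟨F, hF, heF, hF5⟩ := hK.pure e he
  exact ⟨_, Link_mem hK hA hc hd hF hF5 heF⟩

theorem surf_deg {K : Finset (Finset α)} (hK : NormalPseudomanifold K) {A : Finset α}
    (hA : Meets K A) {e : Finset α} (he : e ∈ K) (hc : e.card = 2) (hd : Disjoint e A) :
    ∀ ε ∈ edges (surf K A e), deg (surf K A e) ε = 2 := by
  obtain ⟨F, hF, heF, hF5⟩ := hK.pure e he
  intro ε hε
  have h1 := Link_sdiff hA hc hd hF hF5 heF
  have h2 := surf_two hK hA hF hF5 (ε := ε)
  rw [h1] at h2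
  exact h2 hε

omit [Fintype α] in
private theorem Link_surf {K : Finset (Finset α)} {A e t : Finset α} (hc : e.card = 2)
    (hd : Disjoint e A) (ht : t ∈ surf K A e) :
    t ∪ e ∈ K ∧ (t ∪ e).card = 5 ∧ (t ∪ e) ∩ A = t ∧ t ⊆ A ∧ t.card = 3 := by
  unfold surf at ht
  rw [mem_filter, mem_part] at ht
  obtain ⟨⟨h1, h2, h3⟩, h4⟩ := ht
  have h5 : Disjoint t e := (hd.mono_right h3).symm
  refine ⟨h4, ?_, ?_, h3, h2⟩
  · rw [card_union_of_disjoint h5]
    omega
  · rw [union_inter_distrib_right, inter_eq_left.2 h3, disjoint_iff_inter_eq_empty.1 hd,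
      union_empty]

theorem surf_conn {K : Finset (Finset α)} (hK : NormalPseudomanifold K) (hS : SphereLinks K)
    {A : Finset α} (hA : Meets K A) {e : Finset α} (he : e ∈ K) (hc : e.card = 2)
    (hd : Disjoint e A) : ∀ s ∈ surf K A e, ∀ t ∈ surf K A e,
      Relation.ReflTransGen (fun a b => a ∈ surf K A e ∧ b ∈ surf K A e ∧ (a ∩ b).card = 2)
        s t := by
  intro s hs t ht
  obtain ⟨s1, s2, s3, -, -⟩ := Link_surf hc hd hs
  obtain ⟨t1, t2, t3, -, -⟩ := Link_surf hc hd ht
  have h1 := hS.conn e he hc _ s1 _ t1 s2 t2 subset_union_right subset_union_right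
  have h2 : Relation.ReflTransGen (fun a b => a ∈ surf K A e ∧ b ∈ surf K A e ∧
      (a ∩ b).card = 2) ((s ∪ e) ∩ A) ((t ∪ e) ∩ A) := by
    refine Relation.ReflTransGen.lift (fun G : Finset α => G ∩ A) ?_ _ _ h1
    intro a b hab
    obtain ⟨ha, hb, ha5, hb5, hea, heb, h4⟩ := hab
    refine ⟨Link_mem hK hA hc hd ha ha5 hea, Link_mem hK hA hc hd hb hb5 heb, ?_⟩
    have e1 := Link_sdiff hA hc hd ha ha5 hea
    have e2 := Link_sdiff hA hc hd hb hb5 heb
    have e3 : a ∩ b = (a ∩ A ∩ (b ∩ A)) ∪ e := by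
      ext x
      simp only [mem_union, mem_inter]
      constructor
      · rintro ⟨h5, h6⟩
        by_cases h7 : x ∈ A
        · exact Or.inl ⟨⟨h5, h7⟩, h6, h7⟩
        · right
          rw [← e1]
          exact mem_sdiff.2 ⟨h5, h7⟩
      · rintro (⟨⟨h5, -⟩, h6, -⟩ | h5)
        · exact ⟨h5, h6⟩
        · exact ⟨hea h5, heb h5⟩
    have e4 : Disjoint (a ∩ A ∩ (b ∩ A)) e :=
      (hd.mono_right (inter_subset_left.trans inter_subset_right)).symm
    rw [e3, card_union_of_disjoint e4] at h4
    change (a ∩ A ∩ (b ∩ A)).card = 2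
    omega
  rwa [s3, t3] at h2

theorem surf_euler {K : Finset (Finset α)} (hK : NormalPseudomanifold K) (hS : SphereLinks K)
    {A : Finset α} (hA : Meets K A) {e : Finset α} (he : e ∈ K) (hc : e.card = 2)
    (hd : Disjoint e A) : (verts (surf K A e)).card + (surf K A e).card =
      (edges (surf K A e)).card + 2 := by
  have hE := hS.euler e he hc
  -- a simplex containing `e` lies in `t ∪ e` for some `t` in the surface
  have key : ∀ σ ∈ K, e ⊆ σ → ∃ t ∈ surf K A e, σ \ e ⊆ t := by
    intro σ hσ heσ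
    obtain ⟨F, hF, hσF, hF5⟩ := hK.pure σ hσ
    refine ⟨F ∩ A, Link_mem hK hA hc hd hF hF5 (heσ.trans hσF), ?_⟩
    have h1 := Link_sdiff hA hc hd hF hF5 (heσ.trans hσF)
    intro x hx
    obtain ⟨h2, h3⟩ := mem_sdiff.1 hx
    refine mem_inter.2 ⟨hσF h2, ?_⟩
    by_contra h4
    exact h3 (h1 ▸ mem_sdiff.2 ⟨hσF h2, h4⟩)
  have n5 : (K.filter (fun σ => e ⊆ σ ∧ σ.card = 5)).card = (surf K A e).card := by
    refine (card_bij (fun t _ => t ∪ e) ?_ ?_ ?_).symm
    · intro t ht
      obtain ⟨h1, h2, -, -, -⟩ := Link_surf hc hd ht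
      exact mem_filter.2 ⟨h1, subset_union_right, h2⟩
    · intro t ht t' ht' h
      obtain ⟨-, -, h1, -, -⟩ := Link_surf hc hd ht
      obtain ⟨-, -, h2, -, -⟩ := Link_surf hc hd ht'
      rw [← h1, ← h2]
      exact congrArg (fun G => G ∩ A) h
    · intro F hF
      obtain ⟨h1, h2, h3⟩ := mem_filter.1 hF
      exact ⟨F ∩ A, Link_mem hK hA hc hd h1 h3 h2, Link_union (Link_sdiff hA hc hd h1 h3 h2)⟩
  have hsd : ∀ t ∈ surf K A e, Disjoint t e := by
    intro t ht
    obtain ⟨-, -, -, h1, -⟩ := Link_surf hc hd ht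
    exact (hd.mono_right h1).symm
  have n4 : (K.filter (fun σ => e ⊆ σ ∧ σ.card = 4)).card = (edges (surf K A e)).card := by
    refine (card_bij (fun ε _ => ε ∪ e) ?_ ?_ ?_).symm
    · intro ε hε
      obtain ⟨t, ht, h1, h2⟩ := mem_edges.1 hε
      have h3 := (hsd t ht).mono_left h1
      refine mem_filter.2 ⟨hK.down _ (Link_surf hc hd ht).1 _ (union_subset_union_left h1) ?_,
        subset_union_right, ?_⟩
      · rw [← card_pos, card_union_of_disjoint h3]
        omega
      · rw [card_union_of_disjoint h3]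
        omega
    · intro ε hε ε' hε' h
      obtain ⟨t, ht, h1, -⟩ := mem_edges.1 hε
      obtain ⟨t', ht', h1', -⟩ := mem_edges.1 hε'
      have h3 := (hsd t ht).mono_left h1
      have h3' := (hsd t' ht').mono_left h1'
      have h4 := congrArg (fun G => G \ e) h
      simp only [union_sdiff_cancel_right h3, union_sdiff_cancel_right h3'] at h4
      exact h4
    · intro σ hσ
      obtain ⟨h1, h2, h3⟩ := mem_filter.1 hσ
      obtain ⟨t, ht, h4⟩ := key σ h1 h2
      refine ⟨σ \ e, mem_edges.2 ⟨t, ht, h4, ?_⟩, sdiff_union_of_subset h2⟩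
      rw [card_sdiff_of_subset h2]
      omega
  have n3 : (K.filter (fun σ => e ⊆ σ ∧ σ.card = 3)).card = (verts (surf K A e)).card := by
    refine (card_bij (fun x _ => insert x e) ?_ ?_ ?_).symm
    · intro x hx
      obtain ⟨t, ht, h1⟩ := mem_biUnion.1 hx
      have h1 : x ∈ t := h1
      have h2 : x ∉ e := fun h => (disjoint_left.1 (hsd t ht)) h1 h
      refine mem_filter.2 ⟨hK.down _ (Link_surf hc hd ht).1 _ ?_ (insert_nonempty x e),
        subset_insert x e, ?_⟩
      · intro y hy
        rcases mem_insert.1 hy with rfl | hy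
        · exact mem_union_left _ h1
        · exact mem_union_right _ hy
      · rw [card_insert_of_notMem h2]
        omega
    · intro x hx y hy h
      obtain ⟨t, ht, h1⟩ := mem_biUnion.1 hx
      have h1 : x ∈ t := h1
      have h2 : x ∉ e := fun h => (disjoint_left.1 (hsd t ht)) h1 h
      have h3 : x ∈ insert y e := by
        have : insert x e = insert y e := h
        rw [← this]
        exact mem_insert_self x e
      rcases mem_insert.1 h3 with h4 | h4
      · exact h4
      · exact absurd h4 h2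
    · intro σ hσ
      obtain ⟨h1, h2, h3⟩ := mem_filter.1 hσ
      obtain ⟨t, ht, h4⟩ := key σ h1 h2
      have h5 : (σ \ e).card = 1 := by
        rw [card_sdiff_of_subset h2]
        omega
      obtain ⟨x, hx⟩ := card_eq_one.1 h5
      have h6 : x ∈ σ \ e := by rw [hx]; exact mem_singleton_self x
      refine ⟨x, mem_biUnion.2 ⟨t, ht, h4 h6⟩, ?_⟩
      rw [insert_eq, ← hx]
      exact sdiff_union_of_subset h2
  rw [n3, n4, n5] at hE
  omega

end Pool.MP_f18604_gt.BO
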