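import Pool.Agent.Helper23.BO.Even

/-!
# BO-04: the excess decreases by three

Let `Q = R \ R'`, a nonempty subset of `R`, so not a cycle: some `ε₀` of cardinality 2 has `deg Q ε₀` odd, and by
`three_le_odd` the set `O` of the edges `ε` of `Q` with `deg Q ε` odd has at least three elements; `O ⊆ edges R`.

`Psi R = ∑_{ε ∈ edges R} (deg R ε - 2)` (`sum_deg`, integers) and `Psi R' = ∑_{ε ∈ edges R'} (deg R' ε - 2)`,
`edges R' ⊆ edges R`. For `ε ∈ edges R` put `c ε = deg R ε - 2` if `ε ∉ edges R'` and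
`c ε = (deg R ε - 2) - (deg R' ε - 2) = deg Q ε` if `ε ∈ edges R'` (`deg_add`). Then `Psi R - Psi R' = ∑ c ε`, and
`c ε ≥ 0`, `c ε ≥ 1` for `ε ∈ O`: if `ε ∈ edges R'`, clear; if `ε ∉ edges R'`, then `deg R' ε = 0`, `deg Q ε = deg R ε ≥ 2` (it is positive and
not `1`, `Stuck R`), and at least `3` if it is odd. So `Psi R - Psi R' ≥ |O| ≥ 3`.
-/

set_option autoImplicit false

namespace Pool.MP_f18604_gt.BO

open Finset Module Pool.MP_f18604_gt.Gem Pool.MP_f18604_gt.KF

variable {α : Type} [Fintype α] [DecidableEq α]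

omit [Fintype α] in
theorem psi_eq_sum {Y : Finset (Finset α)} (hY : Tri Y) :
    Psi Y = ∑ ε ∈ edges Y, ((deg Y ε : ℤ) - 2) := by
  have h := sum_deg hY
  have h' : ∑ ε ∈ edges Y, (deg Y ε : ℤ) = 3 * (Y.card : ℤ) := by
    rw [← Nat.cast_sum, h]
    push_cast
    ring
  rw [sum_sub_distrib, h', sum_const, nsmul_eq_mul]
  unfold Psi
  ring

theorem psi_step {R R' : Finset (Finset α)} (hR : Tri R) (hs : Stuck R) (hsub : R' ⊆ R)
    (hne : R' ≠ R) (hc : NoCyc R) : Psi R' + 3 ≤ Psi R := by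
  classical
  have hnc : ¬ Cyc (R \ R') := fun h => by
    have h1 := hc _ sdiff_subset h
    exact hne (subset_antisymm hsub (sdiff_eq_empty_iff_subset.1 h1))
  obtain ⟨ε₀, hc0, h0⟩ : ∃ ε₀ : Finset α, ε₀.card = 2 ∧ Odd (deg (R \ R') ε₀) := by
    by_contra hcon
    apply hnc
    intro ε hε
    by_contra h
    exact hcon ⟨ε, hε, Nat.not_even_iff_odd.1 h⟩
  have h3 := three_le_odd (hR.mono sdiff_subset) hc0 h0
  have hsum' : Psi R' = ∑ ε ∈ edges R, (if ε ∈ edges R' then ((deg R' ε : ℤ) - 2) else 0) := by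
    rw [psi_eq_sum (hR.mono hsub), ← sum_filter]
    refine sum_congr ?_ fun _ _ => rfl
    ext ε
    rw [mem_filter]
    exact ⟨fun h => ⟨edges_mono hsub h, h⟩, fun h => h.2⟩
  have hcard : (((edges (R \ R')).filter (fun ε => Odd (deg (R \ R') ε))).card : ℤ) =
      ∑ ε ∈ edges R, (if Odd (deg (R \ R') ε) then (1 : ℤ) else 0) := by
    rw [← sum_filter, sum_const, nsmul_eq_mul, mul_one]
    congr 2
    ext ε
    rw [mem_filter, mem_filter]
    constructor
    · rintro ⟨h1, h2⟩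
      exact ⟨edges_mono sdiff_subset h1, h2⟩
    · rintro ⟨h1, h2⟩
      exact ⟨(deg_pos_iff (card_of_mem_edges h1)).1 h2.pos, h2⟩
  have hle : ∑ ε ∈ edges R, (if Odd (deg (R \ R') ε) then (1 : ℤ) else 0) ≤
      ∑ ε ∈ edges R, (((deg R ε : ℤ) - 2) -
        (if ε ∈ edges R' then ((deg R' ε : ℤ) - 2) else 0)) := by
    refine sum_le_sum fun ε hε => ?_
    have hcd := card_of_mem_edges hε
    have hadd := deg_add hsub ε
    have hpos := (deg_pos_iff hcd).2 hε
    have hst := hs ε hcd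
    by_cases h1 : ε ∈ edges R'
    · rw [if_pos h1]
      by_cases h2 : Odd (deg (R \ R') ε)
      · rw [if_pos h2]
        have := h2.pos
        omega
      · rw [if_neg h2]
        omega
    · rw [if_neg h1]
      have h4 := (deg_eq_zero_iff hcd).2 h1
      by_cases h2 : Odd (deg (R \ R') ε)
      · rw [if_pos h2]
        obtain ⟨k, hk⟩ := h2
        omega
      · rw [if_neg h2]
        omega
  rw [← hcard, sum_sub_distrib, ← hsum', ← psi_eq_sum hR] at hle
  have h3' : (3 : ℤ) ≤ (((edges (R \ R')).filter (fun ε => Odd (deg (R \ R') ε))).card : ℤ) := by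
    exact_mod_cast h3
  linarith

end Pool.MP_f18604_gt.BO
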